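import Mathlib

set_option autoImplicit false

/-!
A family of sets which is closed under intersections up to few elements, any two of which differ in
at least `d` points.
-/

namespace Pool.Agent.Helper62K9.NP

open Finset

theorem robust_meet {α : Type} [DecidableEq α] (U : Finset α) (d e : ℕ) (hd : 1 ≤ d)
    (hde : 10 * e * U.card ≤ d ^ 2) :
    ∀ (u : ℕ) (V : Finset α) (j : ℕ) (G : Finset (Finset α)), V ⊆ U → V.card = u →
      j * d + 2 * u ≤ 2 * U.card → (∀ s ∈ G, s ⊆ U) →
      (∀ s ∈ G, ∀ t ∈ G, ∃ w ∈ G, (symmDiff w (s ∩ t)).card ≤ e) →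
      (∀ s ∈ G, ∀ t ∈ G, s ≠ t → d ≤ (symmDiff s t).card) →
      (∀ s ∈ G, ∀ t ∈ G, (symmDiff s t \ V).card ≤ 2 * e * j) → G.card ≤ 2 ^ (2 * u / d) := by
  intro u
  induction u using Nat.strong_induction_on with
  | _ u ih =>
  intro V j G hVU hVu hju hsub hmeet hdist hout
  rcases Nat.lt_or_ge 1 G.card with hG | hG
  swap
  · exact hG.trans Nat.one_le_two_pow
  have hGne : G.Nonempty := card_pos.mp (by omega)
  obtain ⟨B0, hB0, hB0min⟩ := exists_min_image G (fun s => s.card) hGne
  -- general facts on cardinalities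
  have hcard_le : ∀ (s t : Finset α), s.card ≤ t.card + (symmDiff s t).card := by
    intro s t
    have h1 : s ⊆ t ∪ symmDiff s t := by
      intro x hx
      rw [mem_union, mem_symmDiff]
      by_cases h : x ∈ t
      · exact Or.inl h
      · exact Or.inr (Or.inl ⟨hx, h⟩)
    exact (card_le_card h1).trans (card_union_le _ _)
  have hmissing : ∀ (s t w : Finset α), (symmDiff w (s ∩ t)).card ≤ e → t.card ≤ w.card →
      (t \ s).card ≤ e := by
    intro s t w h1 h2
    have h3 := hcard_le w (s ∩ t)
    have h4 : (t \ s).card + (s ∩ t).card = t.card := by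
      rw [inter_comm, add_comm]
      exact card_inter_add_card_sdiff t s
    omega
  have hB0sub : ∀ B ∈ G, (B0 \ B).card ≤ e := by
    intro B hB
    obtain ⟨w, hw, hw1⟩ := hmeet B hB B0 hB0
    exact hmissing B B0 w hw1 (hB0min w hw)
  have hG'ne : (G.erase B0).Nonempty := by
    rw [← card_pos, card_erase_of_mem hB0]
    omega
  obtain ⟨A, hA, hAmin⟩ := exists_min_image (G.erase B0) (fun s => s.card) hG'ne
  rw [mem_erase] at hA
  set D := A \ B0 with hD
  have hDG : ∀ B ∈ G, (D \ B).card ≤ e ∨ (D ∩ B).card ≤ e := by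
    intro B hB
    obtain ⟨w, hw, hw1⟩ := hmeet B hB A hA.2
    by_cases h : w = B0
    · right
      refine (card_le_card ?_).trans hw1
      intro x hx
      rw [mem_inter, hD, mem_sdiff] at hx
      rw [mem_symmDiff, h]
      exact Or.inr ⟨mem_inter.mpr ⟨hx.2, hx.1.1⟩, hx.1.2⟩
    · left
      refine (card_le_card ?_).trans (hmissing B A w hw1 (hAmin w (mem_erase.mpr ⟨h, hw⟩)))
      exact sdiff_subset_sdiff sdiff_subset Subset.rfl
  -- sizes
  have hAB : d ≤ (symmDiff A B0).card := hdist A hA.2 B0 hB0 hA.1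
  have hABU : (symmDiff A B0).card ≤ U.card := by
    refine card_le_card ?_
    intro x hx
    rw [mem_symmDiff] at hx
    rcases hx with h | h
    · exact hsub A hA.2 h.1
    · exact hsub B0 hB0 h.1
  have hdn : d ≤ U.card := hAB.trans hABU
  have hDcard : d ≤ D.card + e := by
    have h1 : (symmDiff A B0).card ≤ D.card + (B0 \ A).card := by
      rw [symmDiff_def, hD]
      exact card_union_le _ _
    have h2 := hB0sub A hA.2
    omega
  have hej : 4 * e * j + 2 * e ≤ d := by
    by_contra hcon
    push Not at hcon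
    have h1 : d * d < (4 * e * j + 2 * e) * d := Nat.mul_lt_mul_of_pos_right hcon (by omega)
    have h2 : (4 * e * j + 2 * e) * d = 4 * e * (j * d) + 2 * e * d := by ring
    have h3 : 4 * e * (j * d) ≤ 4 * e * (2 * U.card) := Nat.mul_le_mul_left _ (by omega)
    have h4 : 2 * e * d ≤ 2 * e * U.card := Nat.mul_le_mul_left _ hdn
    have h5 : 4 * e * (2 * U.card) + 2 * e * U.card = 10 * e * U.card := by ring
    have h6 : d ^ 2 = d * d := by ring
    omega
  have h10 : 5 * e < d := by
    by_contra hcon
    push Not at hcon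
    have h1 : 10 * e * d ≤ 10 * e * U.card := Nat.mul_le_mul_left _ hdn
    have h2 : d ^ 2 = d * d := by ring
    have h3 : 10 * e * d ≤ d * d := by omega
    have h4 : 10 * e ≤ d := Nat.le_of_mul_le_mul_right h3 (by omega)
    omega
  have hDV : d ≤ 2 * (D ∩ V).card := by
    have h1 : (D \ V).card ≤ 2 * e * j := by
      refine (card_le_card ?_).trans (hout A hA.2 B0 hB0)
      refine sdiff_subset_sdiff ?_ Subset.rfl
      intro x hx
      rw [hD, mem_sdiff] at hx
      rw [mem_symmDiff]
      exact Or.inl hx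
    have h2 := card_inter_add_card_sdiff D V
    have h3 : 4 * e * j = 2 * (2 * e * j) := by ring
    omega
  have hV'card : (V \ D).card + (D ∩ V).card = u := by
    have h2 := card_inter_add_card_sdiff V D
    rw [inter_comm] at h2
    omega
  have part : ∀ G1 ⊆ G, (∀ s ∈ G1, ∀ t ∈ G1, ∃ w ∈ G1, (symmDiff w (s ∩ t)).card ≤ e) →
      (∀ s ∈ G1, ∀ t ∈ G1, (symmDiff s t ∩ D).card ≤ 2 * e) →
      G1.card ≤ 2 ^ (2 * (V \ D).card / d) := by
    intro G1 hG1 hcl hagree
    refine ih _ (by omega) (V \ D) (j + 1) G1 (sdiff_subset.trans hVU) rfl ?_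
      (fun s hs => hsub s (hG1 hs)) hcl (fun s hs t ht => hdist s (hG1 hs) t (hG1 ht)) ?_
    · have : (j + 1) * d = j * d + d := by ring
      omega
    · intro s hs t ht
      have h1 : symmDiff s t \ (V \ D) ⊆ (symmDiff s t \ V) ∪ (symmDiff s t ∩ D) := by
        intro x hx
        rw [mem_sdiff, mem_sdiff] at hx
        rw [mem_union, mem_sdiff, mem_inter]
        tauto
      have h2 := (card_le_card h1).trans (card_union_le _ _)
      have h3 := hout s (hG1 hs) t (hG1 ht)
      have h4 := hagree s hs t ht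
      have h5 : 2 * e * (j + 1) = 2 * e * j + 2 * e := by ring
      omega
  have hsplit : G ⊆ G.filter (fun B => (D \ B).card ≤ e) ∪
      G.filter (fun B => (D ∩ B).card ≤ e) := by
    intro B hB
    simp only [mem_union, mem_filter]
    rcases hDG B hB with h | h
    · exact Or.inl ⟨hB, h⟩
    · exact Or.inr ⟨hB, h⟩
  have h1 : (G.filter (fun B => (D \ B).card ≤ e)).card ≤ 2 ^ (2 * (V \ D).card / d) := by
    refine part _ (filter_subset _ _) ?_ ?_
    · intro s hs t ht
      rw [mem_filter] at hs ht
      obtain ⟨w, hw, hw1⟩ := hmeet s hs.1 t ht.1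
      refine ⟨w, mem_filter.mpr ⟨hw, ?_⟩, hw1⟩
      rcases hDG w hw with h | h
      · exact h
      · exfalso
        have h2 : D ⊆ (D ∩ w) ∪ ((D \ s) ∪ ((D \ t) ∪ symmDiff w (s ∩ t))) := by
          intro x hx
          simp only [mem_union, mem_inter, mem_sdiff, mem_symmDiff]
          tauto
        have h3 := card_le_card h2
        have h4 := card_union_le (D ∩ w) ((D \ s) ∪ ((D \ t) ∪ symmDiff w (s ∩ t)))
        have h5 := card_union_le (D \ s) ((D \ t) ∪ symmDiff w (s ∩ t))
        have h6 := card_union_le (D \ t) (symmDiff w (s ∩ t))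
        have h7 := hs.2
        have h8 := ht.2
        omega
    · intro s hs t ht
      rw [mem_filter] at hs ht
      have h2 : symmDiff s t ∩ D ⊆ (D \ s) ∪ (D \ t) := by
        intro x hx
        simp only [mem_union, mem_inter, mem_sdiff, mem_symmDiff] at hx ⊢
        tauto
      have h3 := (card_le_card h2).trans (card_union_le _ _)
      have h7 := hs.2
      have h8 := ht.2
      omega
  have h2 : (G.filter (fun B => (D ∩ B).card ≤ e)).card ≤ 2 ^ (2 * (V \ D).card / d) := by
    refine part _ (filter_subset _ _) ?_ ?_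
    · intro s hs t ht
      rw [mem_filter] at hs ht
      obtain ⟨w, hw, hw1⟩ := hmeet s hs.1 t ht.1
      refine ⟨w, mem_filter.mpr ⟨hw, ?_⟩, hw1⟩
      rcases hDG w hw with h | h
      · exfalso
        have h2 : D ⊆ (D \ w) ∪ ((D ∩ s) ∪ symmDiff w (s ∩ t)) := by
          intro x hx
          simp only [mem_union, mem_inter, mem_sdiff, mem_symmDiff]
          tauto
        have h3 := card_le_card h2
        have h4 := card_union_le (D \ w) ((D ∩ s) ∪ symmDiff w (s ∩ t))
        have h5 := card_union_le (D ∩ s) (symmDiff w (s ∩ t))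
        have h7 := hs.2
        omega
      · exact h
    · intro s hs t ht
      rw [mem_filter] at hs ht
      have h2 : symmDiff s t ∩ D ⊆ (D ∩ s) ∪ (D ∩ t) := by
        intro x hx
        simp only [mem_union, mem_inter, mem_sdiff, mem_symmDiff] at hx ⊢
        tauto
      have h3 := (card_le_card h2).trans (card_union_le _ _)
      have h7 := hs.2
      have h8 := ht.2
      omega
  calc G.card ≤ (G.filter (fun B => (D \ B).card ≤ e)).card +
          (G.filter (fun B => (D ∩ B).card ≤ e)).card :=
        (card_le_card hsplit).trans (card_union_le _ _)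
    _ ≤ 2 ^ (2 * (V \ D).card / d) + 2 ^ (2 * (V \ D).card / d) := Nat.add_le_add h1 h2
    _ = 2 ^ (2 * (V \ D).card / d + 1) := by ring
    _ ≤ 2 ^ (2 * u / d) := by
        refine Nat.pow_le_pow_right (by norm_num) ?_
        rw [← Nat.add_div_right _ (by omega : 0 < d)]
        exact Nat.div_le_div_right (by omega)

end Pool.Agent.Helper62K9.NP
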