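import Pool.Agent.Helper62K9.NPb
import Pool.Agent.Helper62K9.NPd

set_option autoImplicit false

/-!
Codes which are closed under an operation up to few errors.
-/

namespace Pool.Agent.Helper62K9.NP

open Finset

/-- for all words `a_i` of `C` there is a word of `C` at distance at most `e` from
`f (a_1, …, a_k)` -/
def NearClosed {n k : ℕ} (e : ℕ) (f : (Fin k → Bool) → Bool) (C : Finset (Fin n → Bool)) : Prop :=
  ∀ a : Fin k → (Fin n → Bool), (∀ i, a i ∈ C) →
    ∃ c ∈ C, hammingDist c (fun j => f (fun i => a i j)) ≤ e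

/-- `g` is computed by a term in three variables with at most `s` symbols `f` -/
inductive Term {k : ℕ} (f : (Fin k → Bool) → Bool) : ℕ → ((Fin 3 → Bool) → Bool) → Prop
  | proj (i : Fin 3) : Term f 0 (fun x => x i)
  | app (s : Fin k → ℕ) (g : Fin k → ((Fin 3 → Bool) → Bool)) (h : ∀ i, Term f (s i) (g i)) :
      Term f (1 + ∑ i, s i) (fun x => f (fun i => g i x))

lemma dist_app {n k : ℕ} (f : (Fin k → Bool) → Bool) (a b : Fin k → (Fin n → Bool)) :
    hammingDist (fun j => f (fun i => a i j)) (fun j => f (fun i => b i j)) ≤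
      ∑ i, hammingDist (a i) (b i) := by
  classical
  unfold hammingDist
  refine le_trans (card_le_card ?_) card_biUnion_le
  intro j hj
  rw [mem_filter] at hj
  rw [mem_biUnion]
  by_contra hcon
  push Not at hcon
  apply hj.2
  show f (fun i => a i j) = f (fun i => b i j)
  congr 1
  funext i
  have h1 := hcon i (mem_univ i)
  rw [mem_filter] at h1
  push Not at h1
  exact h1 (mem_univ j)

theorem term_near {n k e : ℕ} (f : (Fin k → Bool) → Bool) (C : Finset (Fin n → Bool))
    (hC : NearClosed e f C) {s : ℕ} {g : (Fin 3 → Bool) → Bool} (hg : Term f s g) :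
    ∀ a : Fin 3 → (Fin n → Bool), (∀ i, a i ∈ C) →
      ∃ c ∈ C, hammingDist c (fun j => g (fun i => a i j)) ≤ s * e := by
  induction hg with
  | proj i =>
    intro a ha
    exact ⟨a i, ha i, by simp⟩
  | app s g _ ih =>
    intro a ha
    choose c hc hdist using fun i => ih i a ha
    obtain ⟨w, hw, hw1⟩ := hC c hc
    refine ⟨w, hw, ?_⟩
    have h1 := dist_app f c (fun i j => g i (fun l => a l j))
    have h2 : ∑ i, hammingDist (c i) ((fun i j => g i (fun l => a l j)) i) ≤ ∑ i, s i * e :=
      sum_le_sum fun i _ => hdist i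
    have h3 := hammingDist_triangle w (fun j => f (fun i => c i j))
      (fun j => f (fun i => g i (fun l => a l j)))
    rw [← sum_mul] at h2
    have h4 : (1 + ∑ i, s i) * e = e + (∑ i, s i) * e := by ring
    have h5 : hammingDist (fun j => f (fun i => c i j))
      (fun j => f (fun i => g i (fun l => a l j))) ≤ (∑ i, s i) * e := h1.trans h2
    show hammingDist w (fun j => f (fun i => g i (fun l => a l j))) ≤ _
    omega

/-- one of the three operations is a term -/
theorem exists_term {k : ℕ} (f : (Fin k → Bool) → Bool) (hf : ¬ IsAffine f)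
    (h0 : f (fun _ => false) = false) : ∃ s : ℕ,
      Term f s (fun x => x 0 && x 1) ∨ Term f s (fun x => x 0 || x 1) ∨
      Term f s (fun x => ((x 0 && x 1) || (x 0 && x 2)) || (x 1 && x 2)) := by
  have hcl : Pool.Agent.H523R4.BC.Closed (ι := Fin 3 → Bool) f {g | ∃ s, Term f s g} := by
    intro a ha
    choose s hs using ha
    exact ⟨_, Term.app s a hs⟩
  have hp : ∀ i : Fin 3, (fun x : Fin 3 → Bool => x i) ∈ {g | ∃ s, Term f s g} :=
    fun i => ⟨0, Term.proj i⟩
  rcases Pool.Agent.H523R4.BC.clone (ι := Fin 3 → Bool) f hf h0 {g | ∃ s, Term f s g} hcl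
    ⟨_, hp 0⟩ with h | h | h
  · obtain ⟨s, hs⟩ := h _ (hp 0) _ (hp 1)
    exact ⟨s, Or.inl hs⟩
  · obtain ⟨s, hs⟩ := h _ (hp 0) _ (hp 1)
    exact ⟨s, Or.inr (Or.inl hs)⟩
  · obtain ⟨s, hs⟩ := h _ (hp 0) _ (hp 1) _ (hp 2)
    exact ⟨s, Or.inr (Or.inr hs)⟩

theorem near_translate {k : ℕ} (f : (Fin k → Bool) → Bool) (hf : ¬ IsAffine f)
    (h0 : f (fun _ => false) = false) : ∃ s : ℕ, ∀ (n e : ℕ) (C : Finset (Fin n → Bool)),
      C.Nonempty → NearClosed e f C → ∃ z : Fin n → Bool, ∀ x ∈ C, ∀ y ∈ C,
        ∃ w ∈ C, hammingDist w (fun j => ((x j ^^ z j) && (y j ^^ z j)) ^^ z j) ≤ s * e := by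
  obtain ⟨s, hs⟩ := exists_term f hf h0
  refine ⟨s, ?_⟩
  intro n e C hne hC
  obtain ⟨c, hc⟩ := hne
  rcases hs with hs | hs | hs
  · refine ⟨fun _ => false, fun x hx y hy => ?_⟩
    obtain ⟨w, hw, hw1⟩ := term_near f C hC hs ![x, y, c] (by
      intro i; fin_cases i <;> simp [hx, hy, hc])
    refine ⟨w, hw, le_trans (le_of_eq ?_) hw1⟩
    congr 1
    funext j
    simp
  · refine ⟨fun _ => true, fun x hx y hy => ?_⟩
    obtain ⟨w, hw, hw1⟩ := term_near f C hC hs ![x, y, c] (by
      intro i; fin_cases i <;> simp [hx, hy, hc])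
    refine ⟨w, hw, le_trans (le_of_eq ?_) hw1⟩
    congr 1
    funext j
    simp only [Matrix.cons_val_zero, Matrix.cons_val_one]
    cases x j <;> cases y j <;> rfl
  · refine ⟨c, fun x hx y hy => ?_⟩
    obtain ⟨w, hw, hw1⟩ := term_near f C hC hs ![x, y, c] (by
      intro i; fin_cases i <;> simp [hx, hy, hc])
    refine ⟨w, hw, le_trans (le_of_eq ?_) hw1⟩
    congr 1
    funext j
    simp only [Matrix.cons_val_zero, Matrix.cons_val_one, Matrix.cons_val]
    cases x j <;> cases y j <;> cases c j <;> rfl

theorem near_bound_of_translate {n d e : ℕ} (hd : 1 ≤ d) (hde : 10 * e * n ≤ d ^ 2)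
    (C : Finset (Fin n → Bool)) (hC : IsCode d C)
    (z : Fin n → Bool) (hz : ∀ x ∈ C, ∀ y ∈ C, ∃ w ∈ C,
      hammingDist w (fun j => ((x j ^^ z j) && (y j ^^ z j)) ^^ z j) ≤ e) :
    C.card ≤ 2 ^ (2 * n / d) := by
  classical
  have h1 := robust_meet (univ : Finset (Fin n)) d e hd (by simpa using hde) n univ 0
    (C.image (supp z)) Subset.rfl (by simp) (by simp) (fun s _ => subset_univ s) ?_ ?_ ?_
  · rwa [card_image_of_injective _ (supp_inj z)] at h1
  · intro s hs t ht
    rw [mem_image] at hs ht
    obtain ⟨x, hx, rfl⟩ := hs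
    obtain ⟨y, hy, rfl⟩ := ht
    obtain ⟨w, hw, hw1⟩ := hz x hx y hy
    refine ⟨supp z w, mem_image_of_mem _ hw, ?_⟩
    rw [← supp_inter, card_symmDiff_supp]
    exact hw1
  · intro s hs t ht hst
    rw [mem_image] at hs ht
    obtain ⟨x, hx, rfl⟩ := hs
    obtain ⟨y, hy, rfl⟩ := ht
    rw [card_symmDiff_supp]
    exact hC x hx y hy (fun h => hst (by rw [h]))
  · intro s _ t _
    simp

theorem near_bound_zero {k : ℕ} (f : (Fin k → Bool) → Bool) (hf : ¬ IsAffine f)
    (h0 : f (fun _ => false) = false) : ∃ K : ℕ, ∀ (n d e : ℕ) (C : Finset (Fin n → Bool)),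
      1 ≤ d → IsCode d C → NearClosed e f C → K * e * n ≤ d ^ 2 → C.card ≤ 2 ^ (2 * n / d) := by
  obtain ⟨s, hs⟩ := near_translate f hf h0
  refine ⟨10 * s, ?_⟩
  intro n d e C hd hC hcl hK
  rcases C.eq_empty_or_nonempty with rfl | hne
  · simp
  obtain ⟨z, hz⟩ := hs n e C hne hcl
  exact near_bound_of_translate hd (by rw [← mul_assoc]; exact hK) C hC z hz

/-- the bound for codes closed up to `e` errors, for every operation that is not affine -/
theorem near_bound {k : ℕ} (f : (Fin k → Bool) → Bool) (hf : ¬ IsAffine f) :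
    ∃ K : ℕ, ∀ (n d e : ℕ) (C : Finset (Fin n → Bool)),
      1 ≤ d → IsCode d C → NearClosed e f C → K * e * n ≤ d ^ 2 → C.card ≤ 2 ^ (2 * n / d) := by
  classical
  by_cases h0 : f (fun _ => false) = false
  · exact near_bound_zero f hf h0
  have h0' : f (fun _ => false) = true := by simpa using h0
  by_cases h1 : f (fun _ => true) = true
  · set g : (Fin k → Bool) → Bool := fun x => !(f fun i => !(x i)) with hg
    have hgna : ¬ IsAffine g := by
      intro hga
      apply hf
      intro x y z
      have h2 := hga (fun i => !(x i)) (fun i => !(y i)) (fun i => !(z i))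
      simp only [hg, Bool.not_not] at h2
      have e1 : (fun i => !(((!(x i)) ^^ (!(y i))) ^^ (!(z i)))) =
          (fun i => (x i ^^ y i) ^^ z i) := by
        funext i; cases x i <;> cases y i <;> cases z i <;> rfl
      rw [e1] at h2
      revert h2
      generalize f x = p
      generalize f y = q
      generalize f z = r
      generalize f (fun i => (x i ^^ y i) ^^ z i) = s
      cases p <;> cases q <;> cases r <;> cases s <;> simp
    have hg0 : g (fun _ => false) = false := by simp only [hg, Bool.not_false, h1, Bool.not_true]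
    obtain ⟨K, hK⟩ := near_bound_zero g hgna hg0
    refine ⟨K, ?_⟩
    intro n d e C hd hC hcl hKe
    set C' : Finset (Fin n → Bool) := C.image (fun x j => !(x j)) with hC'
    have hinj : Function.Injective (fun (x : Fin n → Bool) (j : Fin n) => !(x j)) := by
      intro x y h
      funext j
      have := congrFun h j
      simpa using this
    have hcard : C'.card = C.card := card_image_of_injective _ hinj
    have hdistn : ∀ x y : Fin n → Bool, hammingDist (fun j => !(x j)) (fun j => !(y j)) =
        hammingDist x y := by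
      intro x y
      unfold hammingDist
      congr 1
      ext j
      simp
    rw [← hcard]
    refine hK n d e C' hd ?_ ?_ hKe
    · intro x hx y hy hxy
      rw [hC', mem_image] at hx hy
      obtain ⟨x, hx, rfl⟩ := hx
      obtain ⟨y, hy, rfl⟩ := hy
      have h2 := hC x hx y hy (fun h => hxy (by rw [h]))
      rw [hdistn]
      exact h2
    · intro a ha
      have h2 : ∀ i, ∃ b ∈ C, (fun j => !(b j)) = a i := by
        intro i
        have := ha i
        rw [hC', mem_image] at this
        exact this
      choose b hb hba using h2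
      obtain ⟨c, hc, hc1⟩ := hcl b hb
      refine ⟨fun j => !(c j), ?_, ?_⟩
      · rw [hC', mem_image]
        exact ⟨c, hc, rfl⟩
      · have h3 : (fun j => g (fun i => a i j)) = fun j => !(f (fun i => b i j)) := by
          funext j
          simp only [hg]
          congr 2
          funext i
          rw [← hba i]
          simp
        rw [h3, hdistn]
        exact hc1
  · have h1' : f (fun _ => true) = false := by simpa using h1
    set g : (Fin k → Bool) → Bool := fun x => !(f x) with hg
    have hgna : ¬ IsAffine g := by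
      intro hga
      apply hf
      intro x y z
      have h2 := hga x y z
      simp only [hg] at h2
      revert h2
      generalize f x = p
      generalize f y = q
      generalize f z = r
      generalize f (fun i => (x i ^^ y i) ^^ z i) = s
      cases p <;> cases q <;> cases r <;> cases s <;> simp
    have hg0 : g (fun _ => false) = false := by simp only [hg, h0', Bool.not_true]
    obtain ⟨K, hK⟩ := near_bound_zero g hgna hg0
    refine ⟨K * 2, ?_⟩
    intro n d e C hd hC hcl hKe
    refine hK n d (2 * e) C hd hC ?_ (by rw [← mul_assoc]; exact hKe)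
    intro a ha
    obtain ⟨c, hc, hc1⟩ := hcl a ha
    obtain ⟨w, hw, hw1⟩ := hcl (fun _ => c) (fun _ => hc)
    refine ⟨w, hw, ?_⟩
    have h3 : (fun j => f (fun _ => c j)) = (fun j => !(c j)) := by
      funext j
      cases c j
      · simpa using h0'
      · simpa using h1'
    rw [h3] at hw1
    have h4 := hammingDist_triangle w (fun j => !(c j)) (fun j => g (fun i => a i j))
    have h5 : hammingDist (fun j => !(c j)) (fun j => g (fun i => a i j)) =
        hammingDist c (fun j => f (fun i => a i j)) := by
      unfold hammingDist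
      congr 1
      ext j
      simp [hg]
    omega

end Pool.Agent.Helper62K9.NP
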