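import Pool.Agent.Helper62K9.NPc
import Pool.Agent.Helper62K9.NPe
import Pool.Agent.H523R4.Xor
import Pool.Agent.Results.MP_0430e4_lc.ConstantWeightCriterion

/-!
# Binary codes invariant under a Boolean operation: a dichotomy for the asymptotic rate

Linear codes are the codes closed under `x + y`, their cosets those closed under `x + y + z`.  Let
`f : {0,1}^k → {0,1}` be any operation, let `A_f(n, d)` be the largest size of a code of length `n`
and minimum distance at least `d` which is closed under `f`, applied coordinatewise, and consider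
the rate `(1/n) log₂ A_f(n, ⌈δ n⌉)`.

* If `f` is not affine over `F_2` (for instance `x ∧ y`, `x ∨ y`, majority, `x → y`, NAND, any
  threshold function, the multiplexer), then `A_f(n, d) = 2 ^ ⌊n / d⌋` EXACTLY, for all
  `1 ≤ d ≤ n`; the rate is zero for every `δ > 0`.
* This is stable under errors: there is a constant `K = K(f)` such that a code `C` of length `n` and
  minimum distance at least `d`, for which every word `f(c_1, …, c_k)`, `c_i ∈ C`, is within distance
  `e` of `C`, has at most `2 ^ ⌊2 n / d⌋` words if `K e n ≤ d²`.  So for codes of relative distance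
  `δ` a linear number `(δ² / K) n` of errors is allowed, and the size stays at most `4 ^ (1 / δ)`.
* If `f` is affine, then `A_f(n, d)` is at least the bound of Gilbert and Varshamov, and the rate
  is at least `1 - H(δ)`.  If `f` depends on at least two variables the closed codes are exactly
  the kind of codes one expects: they are closed under `x + y + z`, i.e. cosets of linear codes.
* A code of minimum distance at least `d` which is covered by `m` subcodes, each of them closed
  under some operation that is not affine, has at most `m 2 ^ ⌊n / d⌋` words.  So a code with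
  relative distance `δ` and rate `R > 0` is not a union of fewer than `2 ^ (R n - 1 / δ)` such
  subcodes (for instance of solution sets of Horn formulas or of 2-CNF formulas).

Proof of the first part.  An operation which is not affine generates conjunction, disjunction or
majority, up to duality, and after a translation the code is closed under intersections.  Let `B₀`
be its least member and `A` a minimal other member.  Every member meets `A` in `B₀` or in `A`, so the
code splits into the members that contain `A \ B₀` and those that are disjoint from it; both are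
codes of length `n - |A \ B₀| ≤ n - d` closed under intersections.  With errors the same tree
decomposition works, since the errors add up to at most `d / 2` along a branch.
-/

set_option autoImplicit false

open Filter Finset

namespace Pool.Agent.Helper62K9.NPR

/-- `f` is affine over `F_2`: `f (x + y + z) = f x + f y + f z`. -/
def IsAffine {k : ℕ} (f : (Fin k → Bool) → Bool) : Prop :=
  ∀ x y z : Fin k → Bool, f (fun i => (x i ^^ y i) ^^ z i) = ((f x ^^ f y) ^^ f z)

/-- `f` depends on its `i`-th variable: changing it changes the value for some arguments. -/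
def DependsOn {k : ℕ} (f : (Fin k → Bool) → Bool) (i : Fin k) : Prop :=
  ∃ x : Fin k → Bool, f (Function.update x i (!x i)) ≠ f x

/-- `C` is closed under the operation `f`, applied coordinatewise. -/
def ClosedUnder {n k : ℕ} (f : (Fin k → Bool) → Bool) (C : Finset (Fin n → Bool)) : Prop :=
  ∀ a : Fin k → (Fin n → Bool), (∀ i, a i ∈ C) → (fun j => f (fun i => a i j)) ∈ C

/-- `C` is closed under `f` up to `e` errors: for all words `a_i` of `C` there is a word of `C` at
distance at most `e` from `f (a_1, …, a_k)`. -/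
def NearClosed {n k : ℕ} (e : ℕ) (f : (Fin k → Bool) → Bool) (C : Finset (Fin n → Bool)) : Prop :=
  ∀ a : Fin k → (Fin n → Bool), (∀ i, a i ∈ C) →
    ∃ c ∈ C, hammingDist c (fun j => f (fun i => a i j)) ≤ e

/-- minimum distance at least `d` -/
def IsCode {n : ℕ} (d : ℕ) (C : Finset (Fin n → Bool)) : Prop :=
  ∀ x ∈ C, ∀ y ∈ C, x ≠ y → d ≤ hammingDist x y

/-- `A_f(n, d)`: the largest size of a code of length `n` and minimum distance at least `d` which is
closed under `f`. -/
noncomputable def A {k : ℕ} (f : (Fin k → Bool) → Bool) (n d : ℕ) : ℕ :=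
  sSup {m | ∃ C : Finset (Fin n → Bool), ClosedUnder f C ∧ IsCode d C ∧ C.card = m}

/-- the number of words of length `n` and weight less than `d` -/
def ball (n d : ℕ) : ℕ :=
  (univ.filter fun x : Fin n → Bool => hammingDist x (fun _ => false) < d).card

/-- The binary entropy function `H₂(x) = - x log₂ x - (1 - x) log₂ (1 - x)`. -/
noncomputable def H (x : ℝ) : ℝ := -x * Real.logb 2 x - (1 - x) * Real.logb 2 (1 - x)

lemma bdd {k : ℕ} (f : (Fin k → Bool) → Bool) (n d : ℕ) :
    BddAbove {m | ∃ C : Finset (Fin n → Bool), ClosedUnder f C ∧ IsCode d C ∧ C.card = m} := by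
  refine ⟨2 ^ n, ?_⟩
  rintro m ⟨C, -, -, rfl⟩
  refine (Finset.card_le_univ C).trans ?_
  simp

lemma A_le {k : ℕ} (f : (Fin k → Bool) → Bool) (n d : ℕ) : A f n d ≤ 2 ^ n := by
  rcases Set.eq_empty_or_nonempty
    {m | ∃ C : Finset (Fin n → Bool), ClosedUnder f C ∧ IsCode d C ∧ C.card = m} with h | h
  · unfold A
    rw [h]
    simp
  · refine csSup_le h ?_
    rintro m ⟨C, -, -, rfl⟩
    refine (Finset.card_le_univ C).trans ?_
    simp

/-- the exact value for operations that are not affine -/
theorem exact {k : ℕ} (f : (Fin k → Bool) → Bool) (hf : ¬ IsAffine f) (n d : ℕ) (hd : 1 ≤ d)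
    (hdn : d ≤ n) : A f n d = 2 ^ (n / d) := by
  refine IsGreatest.csSup_eq ⟨?_, ?_⟩
  · obtain ⟨C, h1, h2, h3⟩ := Pool.Agent.Helper62K9.NP.blocks n d hd hdn
    exact ⟨C, h1 k f, h2, h3⟩
  · rintro m ⟨C, h1, h2, rfl⟩
    exact Pool.Agent.Helper62K9.NP.bound hd f hf C h2 h1

theorem rate_zero {k : ℕ} (f : (Fin k → Bool) → Bool) (hf : ¬ IsAffine f) (δ : ℝ) (h0 : 0 < δ)
    (h1 : δ ≤ 1) :
    Tendsto (fun n : ℕ => Real.logb 2 (A f n ⌈δ * n⌉₊) / n) atTop (nhds 0) := by
  have hlim : Tendsto (fun n : ℕ => (1 / δ) / (n : ℝ)) atTop (nhds 0) :=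
    tendsto_const_div_atTop_nhds_zero_nat (1 / δ)
  refine squeeze_zero' ?_ ?_ hlim
  · filter_upwards with n
    exact (Pool.Agent.Results.MP_0430e4_lc.ConstantWeightCriterion.rate_mem
      (f := fun n => A f n ⌈δ * n⌉₊) (fun n => A_le f n _) n).1
  · filter_upwards [eventually_ge_atTop 1] with n hn
    have hn0 : (0 : ℝ) < n := by exact_mod_cast hn
    have hd : 1 ≤ ⌈δ * n⌉₊ := Nat.one_le_iff_ne_zero.2 (Nat.ceil_pos.2 (by positivity)).ne'
    have hdn : ⌈δ * n⌉₊ ≤ n := by
      refine Nat.ceil_le.mpr ?_
      nlinarith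
    rw [exact f hf n _ hd hdn]
    push_cast
    rw [Real.logb_pow, Real.logb_self_eq_one (by norm_num), mul_one]
    gcongr
    have h2 : ((n / ⌈δ * n⌉₊ : ℕ) : ℝ) ≤ (n : ℝ) / (⌈δ * n⌉₊ : ℕ) := Nat.cast_div_le
    refine h2.trans ?_
    have h3 : δ * n ≤ (⌈δ * n⌉₊ : ℕ) := Nat.le_ceil _
    rw [div_le_div_iff₀ (by exact_mod_cast hd) h0]
    linarith

theorem gv {k : ℕ} (f : (Fin k → Bool) → Bool) (hf : IsAffine f) (n d : ℕ) (hd : 1 ≤ d)
    (hdn : d ≤ n) : 2 ^ n ≤ A f n d * ball n d := by
  obtain ⟨V, h1, h2, h3⟩ := Pool.Agent.Helper62K9.NP.gv (n := n) hd hdn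
  refine h3.trans (Nat.mul_le_mul_right _ ?_)
  exact le_csSup (bdd f n d) ⟨V, h1 k f hf, h2, rfl⟩

theorem rate_pos {k : ℕ} (f : (Fin k → Bool) → Bool) (hf : IsAffine f) (δ : ℝ) (h0 : 0 < δ)
    (h1 : δ < 1 / 2) :
    1 - H δ ≤ liminf (fun n : ℕ => Real.logb 2 (A f n ⌈δ * n⌉₊) / n) atTop := by
  have hmem := Pool.Agent.Results.MP_0430e4_lc.ConstantWeightCriterion.rate_mem
      (f := fun n => A f n ⌈δ * n⌉₊) (fun n => A_le f n _)
  refine le_liminf_of_le
    (Pool.Agent.Results.MP_0430e4_lc.ConstantWeightCriterion.bdd_le hmem).isCoboundedUnder_flip ?_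
  filter_upwards [eventually_ge_atTop 1] with n hn
  have hn0 : (0 : ℝ) < n := by exact_mod_cast hn
  have hd : 1 ≤ ⌈δ * n⌉₊ := Nat.one_le_iff_ne_zero.2 (Nat.ceil_pos.2 (by positivity)).ne'
  have hdn : ⌈δ * n⌉₊ ≤ n := by
    refine Nat.ceil_le.mpr ?_
    nlinarith
  have h2 := gv f hf n _ hd hdn
  have h3 := Pool.Agent.Results.MP_0430e4_lc.ConstantWeightCriterion.volume h0 h1.le n
  have h4 : (ball n ⌈δ * n⌉₊ : ℝ) ≤ (2 : ℝ) ^ (H δ * n) := by
    refine le_trans ?_ h3
    unfold ball
    refine Nat.cast_le.mpr (card_le_card ?_)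
    intro x hx
    rw [mem_filter] at hx ⊢
    refine ⟨mem_univ _, ?_⟩
    have h5 : Pool.Agent.Results.MP_0430e4_lc.ConstantWeightCriterion.weight x =
        hammingDist x (fun _ => false) := by
      unfold Pool.Agent.Results.MP_0430e4_lc.ConstantWeightCriterion.weight hammingDist
      congr 1
      ext j
      simp
    rw [h5]
    exact (Nat.lt_ceil.mp hx.2).le
  have hApos : 0 < A f n ⌈δ * n⌉₊ := by
    rcases Nat.eq_zero_or_pos (A f n ⌈δ * n⌉₊) with h | h
    · rw [h, zero_mul] at h2
      have : 0 < 2 ^ n := by positivity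
      omega
    · exact h
  have hA : (0 : ℝ) < A f n ⌈δ * n⌉₊ := by exact_mod_cast hApos
  have h5 : (2 : ℝ) ^ (n : ℝ) ≤ A f n ⌈δ * n⌉₊ * (2 : ℝ) ^ (H δ * n) := by
    have h6 : ((2 : ℝ) ^ n) ≤ (A f n ⌈δ * n⌉₊ : ℝ) * (ball n ⌈δ * n⌉₊ : ℝ) := by exact_mod_cast h2
    rw [Real.rpow_natCast]
    exact h6.trans (mul_le_mul_of_nonneg_left h4 hA.le)
  have h6 := Real.logb_le_logb_of_le (b := 2) (by norm_num) (by positivity) h5
  rw [Real.logb_rpow (by norm_num) (by norm_num), Real.logb_mul hA.ne' (by positivity),
    Real.logb_rpow (by norm_num) (by norm_num)] at h6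
  rw [le_div_iff₀ hn0]
  linarith

/-- closed codes are cosets of linear codes if `f` is affine and depends on two variables -/
theorem coset {k : ℕ} (f : (Fin k → Bool) → Bool) (hf : IsAffine f) (i j : Fin k) (hij : i ≠ j)
    (hi : DependsOn f i) (hj : DependsOn f j) {n : ℕ} (C : Finset (Fin n → Bool))
    (hC : ClosedUnder f C) :
    ∀ a ∈ C, ∀ b ∈ C, ∀ c ∈ C, (fun l => (a l ^^ b l) ^^ c l) ∈ C := by
  classical
  by_cases h0 : f (fun _ => false) = false
  · intro a ha b hb c hc
    exact mem_coe.mp (Pool.Agent.H523R4.BC.affine_closed (ι := Fin n) f hf h0 i j hij hi hj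
      (C : Set (Fin n → Bool)) (fun a ha => mem_coe.mpr (hC a (fun i => mem_coe.mp (ha i))))
      a (mem_coe.mpr ha) b (mem_coe.mpr hb) c (mem_coe.mpr hc))
  have h0' : f (fun _ => false) = true := by simpa using h0
  by_cases h1 : f (fun _ => true) = true
  · set g : (Fin k → Bool) → Bool := fun x => !(f fun i => !(x i)) with hg
    have hgaff : IsAffine g := by
      intro x y z
      have h2 := hf (fun i => !(x i)) (fun i => !(y i)) (fun i => !(z i))
      have e1 : (fun i => ((!(x i)) ^^ (!(y i))) ^^ (!(z i))) =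
          (fun i => !((x i ^^ y i) ^^ z i)) := by
        funext i; cases x i <;> cases y i <;> cases z i <;> rfl
      rw [e1] at h2
      simp only [hg]
      rw [h2]
      generalize f (fun i => !(x i)) = p
      generalize f (fun i => !(y i)) = q
      generalize f (fun i => !(z i)) = r
      cases p <;> cases q <;> cases r <;> rfl
    have hdep : ∀ i, DependsOn f i → DependsOn g i := by
      rintro i ⟨x, hx⟩
      refine ⟨fun l => !(x l), ?_⟩
      simp only [hg, Bool.not_not]
      intro h
      apply hx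
      have e : (fun l => !(Function.update (fun l => !(x l)) i (x i) l)) =
          Function.update x i (!x i) := by
        funext l
        by_cases hl : l = i
        · rw [hl]; simp
        · simp [hl]
      rw [e] at h
      simpa using h
    have hg0 : g (fun _ => false) = false := by simp only [hg, Bool.not_false, h1, Bool.not_true]
    intro a ha b hb c hc
    have h2 := Pool.Agent.H523R4.BC.affine_closed (ι := Fin n) g hgaff hg0 i j hij (hdep i hi)
      (hdep j hj) {x : Fin n → Bool | (fun l => !(x l)) ∈ C} (by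
        intro a ha
        show (fun l => !(!(f fun i => !(a i l)))) ∈ C
        simp only [Bool.not_not]
        exact hC (fun i l => !(a i l)) ha) (fun l => !(a l)) (by
        show (fun l => !(!(a l))) ∈ C
        simpa using ha) (fun l => !(b l)) (by
        show (fun l => !(!(b l))) ∈ C
        simpa using hb) (fun l => !(c l)) (by
        show (fun l => !(!(c l))) ∈ C
        simpa using hc)
    have h3 : (fun l => !(((!(a l)) ^^ (!(b l))) ^^ (!(c l)))) = fun l => (a l ^^ b l) ^^ c l := by
      funext l
      cases a l <;> cases b l <;> cases c l <;> rfl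
    rw [← h3]
    exact h2
  · have h1' : f (fun _ => true) = false := by simpa using h1
    have hneg : ∀ x ∈ C, (fun j => !(x j)) ∈ C := by
      intro x hx
      have h2 := hC (fun _ => x) (fun _ => hx)
      have h3 : (fun j => f (fun _ => x j)) = (fun j => !(x j)) := by
        funext j
        cases x j
        · simpa using h0'
        · simpa using h1'
      rw [h3] at h2
      exact h2
    set g : (Fin k → Bool) → Bool := fun x => !(f x) with hg
    have hgaff : IsAffine g := by
      intro x y z
      simp only [hg]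
      rw [hf x y z]
      cases f x <;> cases f y <;> cases f z <;> rfl
    have hdep : ∀ i, DependsOn f i → DependsOn g i := by
      rintro i ⟨x, hx⟩
      refine ⟨x, ?_⟩
      simp only [hg]
      intro h
      apply hx
      simpa using h
    intro a ha b hb c hc
    exact mem_coe.mp (Pool.Agent.H523R4.BC.affine_closed (ι := Fin n) g hgaff
      (by simp only [hg, h0', Bool.not_true]) i j hij (hdep i hi) (hdep j hj)
      (C : Set (Fin n → Bool))
      (fun a ha => mem_coe.mpr (hneg _ (hC a (fun i => mem_coe.mp (ha i)))))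
      a (mem_coe.mpr ha) b (mem_coe.mpr hb) c (mem_coe.mpr hc))

/-- **Dichotomy for binary codes invariant under a Boolean operation.** -/
theorem result :
    -- 1. operations that are not affine: the exact maximum, and stability under errors
    (∀ (k : ℕ) (f : (Fin k → Bool) → Bool), ¬ IsAffine f →
      (∀ n d : ℕ, 1 ≤ d → d ≤ n → A f n d = 2 ^ (n / d)) ∧
      (∀ δ : ℝ, 0 < δ → δ ≤ 1 →
        Tendsto (fun n : ℕ => Real.logb 2 (A f n ⌈δ * n⌉₊) / n) atTop (nhds 0)) ∧
      ∃ K : ℕ, ∀ (n d e : ℕ) (C : Finset (Fin n → Bool)), 1 ≤ d → IsCode d C →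
        NearClosed e f C → K * e * n ≤ d ^ 2 → C.card ≤ 2 ^ (2 * n / d)) ∧
    -- 2. codes covered by such codes
    (∀ (n d m : ℕ) (C : Finset (Fin n → Bool)) (D : Fin m → Finset (Fin n → Bool)), 1 ≤ d →
      IsCode d C → C = univ.biUnion D →
      (∀ i, ∃ (k : ℕ) (f : (Fin k → Bool) → Bool), ¬ IsAffine f ∧ ClosedUnder f (D i)) →
      C.card ≤ m * 2 ^ (n / d)) ∧
    -- 3. affine operations: the bound of Gilbert and Varshamov
    (∀ (k : ℕ) (f : (Fin k → Bool) → Bool), IsAffine f →
      (∀ n d : ℕ, 1 ≤ d → d ≤ n → 2 ^ n ≤ A f n d * ball n d) ∧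
      ∀ δ : ℝ, 0 < δ → δ < 1 / 2 →
        1 - H δ ≤ liminf (fun n : ℕ => Real.logb 2 (A f n ⌈δ * n⌉₊) / n) atTop) ∧
    -- 4. affine operations in at least two variables: cosets of linear codes
    (∀ (k : ℕ) (f : (Fin k → Bool) → Bool), IsAffine f →
      (∃ i j : Fin k, i ≠ j ∧ DependsOn f i ∧ DependsOn f j) →
      ∀ (n : ℕ) (C : Finset (Fin n → Bool)), ClosedUnder f C →
        ∀ a ∈ C, ∀ b ∈ C, ∀ c ∈ C, (fun l => (a l ^^ b l) ^^ c l) ∈ C) := by
  classical
  refine ⟨fun k f hf => ⟨fun n d => exact f hf n d, fun δ h0 h1 => rate_zero f hf δ h0 h1,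
      Pool.Agent.Helper62K9.NP.near_bound f hf⟩, ?_,
    fun k f hf => ⟨fun n d => gv f hf n d, fun δ h0 h1 => rate_pos f hf δ h0 h1⟩, ?_⟩
  · intro n d m C D hd hC hCD hD
    have h1 : ∀ i, (D i).card ≤ 2 ^ (n / d) := by
      intro i
      obtain ⟨k, f, hf, hcl⟩ := hD i
      have hsub : D i ⊆ C := by
        rw [hCD]
        exact subset_biUnion_of_mem D (mem_univ i)
      exact Pool.Agent.Helper62K9.NP.bound hd f hf (D i)
        (fun x hx y hy => hC x (hsub hx) y (hsub hy)) hcl
    rw [hCD]
    refine card_biUnion_le.trans ?_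
    calc ∑ i, (D i).card ≤ ∑ _i : Fin m, 2 ^ (n / d) := sum_le_sum fun i _ => h1 i
      _ = m * 2 ^ (n / d) := by simp
  · rintro k f hf ⟨i, j, hij, hi, hj⟩ n C hC
    exact coset f hf i j hij hi hj C hC

end Pool.Agent.Helper62K9.NPR
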