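import Mathlib

set_option autoImplicit false

/-!
A family of sets closed under intersections, any two of which differ in at least `d` points, has at
most `2 ^ (n / d)` members.
-/

namespace Pool.Agent.Helper62K9.NP

open Finset

theorem meet_bound {α : Type} [DecidableEq α] (d : ℕ) (hd : 1 ≤ d) :
    ∀ (m : ℕ) (U : Finset α) (G : Finset (Finset α)), U.card = m → (∀ s ∈ G, s ⊆ U) →
      (∀ s ∈ G, ∀ t ∈ G, s ∩ t ∈ G) →
      (∀ s ∈ G, ∀ t ∈ G, s ≠ t → d ≤ (symmDiff s t).card) → G.card ≤ 2 ^ (U.card / d) := by
  intro m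
  induction m using Nat.strong_induction_on with
  | _ m ih =>
  intro U G hU hsub hinter hdist
  rcases Nat.lt_or_ge 1 G.card with hG | hG
  swap
  · exact hG.trans Nat.one_le_two_pow
  -- the least member
  have hGne : G.Nonempty := card_pos.mp (by omega)
  obtain ⟨B0, hB0, hB0min⟩ := exists_min_image G (fun s => s.card) hGne
  have hB0sub : ∀ B ∈ G, B0 ⊆ B := by
    intro B hB
    have h1 := hB0min _ (hinter B hB B0 hB0)
    have h2 : B ∩ B0 = B0 := eq_of_subset_of_card_le inter_subset_right h1
    exact inter_eq_right.mp h2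
  -- a minimal other member
  have hG'ne : (G.erase B0).Nonempty := by
    rw [← card_pos, card_erase_of_mem hB0]
    omega
  obtain ⟨A, hA, hAmin⟩ := exists_min_image (G.erase B0) (fun s => s.card) hG'ne
  rw [mem_erase] at hA
  have hAB : ∀ B ∈ G, B ∩ A = B0 ∨ B ∩ A = A := by
    intro B hB
    by_cases h : B ∩ A = B0
    · exact Or.inl h
    · right
      have h1 := hAmin _ (mem_erase.mpr ⟨h, hinter B hB A hA.2⟩)
      exact eq_of_subset_of_card_le inter_subset_right h1
  set D := A \ B0 with hD
  have hDcard : d ≤ D.card := by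
    have h1 := hdist A hA.2 B0 hB0 hA.1
    have h2 : symmDiff A B0 = D := by
      rw [symmDiff_def, hD]
      have : B0 \ A = ∅ := sdiff_eq_empty_iff_subset.mpr (hB0sub A hA.2)
      rw [this]
      simp
    rwa [h2] at h1
  have hDU : D ⊆ U := sdiff_subset.trans (hsub A hA.2)
  have hDG : ∀ B ∈ G, D ⊆ B ∨ Disjoint B D := by
    intro B hB
    rcases hAB B hB with h | h
    · right
      rw [disjoint_left]
      intro x hx hxD
      rw [hD, mem_sdiff] at hxD
      have : x ∈ B ∩ A := mem_inter.mpr ⟨hx, hxD.1⟩
      rw [h] at this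
      exact hxD.2 this
    · left
      exact sdiff_subset.trans (inter_eq_right.mp h)
  -- the bound for a part on which membership of `D` is constant
  have part : ∀ G1 ⊆ G, (∀ s ∈ G1, ∀ t ∈ G1, s ∩ t ∈ G1) →
      (∀ s ∈ G1, ∀ t ∈ G1, s ∩ D = t ∩ D) → G1.card ≤ 2 ^ ((U \ D).card / d) := by
    intro G1 hG1 hcl heq
    have hrec : ∀ s ∈ G1, ∀ t ∈ G1, s \ D = t \ D → s = t := by
      intro s hs t ht h
      rw [← sdiff_union_inter s D, ← sdiff_union_inter t D, h, heq s hs t ht]
    have hinj : Set.InjOn (fun s : Finset α => s \ D) (G1 : Set (Finset α)) := by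
      intro s hs t ht h
      exact hrec s (mem_coe.mp hs) t (mem_coe.mp ht) h
    rw [← card_image_of_injOn hinj]
    have hDpos : 0 < D.card := by omega
    have hlt : (U \ D).card < m := by
      rw [card_sdiff_of_subset hDU]
      have := card_le_card hDU
      omega
    refine ih _ hlt (U \ D) _ rfl ?_ ?_ ?_
    · intro s hs
      rw [mem_image] at hs
      obtain ⟨t, ht, rfl⟩ := hs
      exact sdiff_subset_sdiff (hsub t (hG1 ht)) Subset.rfl
    · intro s hs t ht
      rw [mem_image] at hs ht ⊢
      obtain ⟨s', hs', rfl⟩ := hs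
      obtain ⟨t', ht', rfl⟩ := ht
      refine ⟨s' ∩ t', hcl s' hs' t' ht', ?_⟩
      ext x
      simp only [mem_sdiff, mem_inter]
      tauto
    · intro s hs t ht hst
      rw [mem_image] at hs ht
      obtain ⟨s', hs', rfl⟩ := hs
      obtain ⟨t', ht', rfl⟩ := ht
      have hne : s' ≠ t' := by
        rintro rfl
        exact hst rfl
      have h1 := hdist s' (hG1 hs') t' (hG1 ht') hne
      refine h1.trans (card_le_card ?_)
      intro x hx
      rw [mem_symmDiff] at hx ⊢
      have hxD : x ∉ D := by
        intro hxD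
        have h2 := heq s' hs' t' ht'
        have h3 : x ∈ s' ∩ D ↔ x ∈ t' ∩ D := by rw [h2]
        simp only [mem_inter, hxD, and_true] at h3
        tauto
      simp only [mem_sdiff, hxD, not_false_eq_true, and_true]
      exact hx
  have hsplit : G = G.filter (fun B => D ⊆ B) ∪ G.filter (fun B => Disjoint B D) := by
    ext B
    simp only [mem_union, mem_filter]
    constructor
    · intro hB
      rcases hDG B hB with h | h
      · exact Or.inl ⟨hB, h⟩
      · exact Or.inr ⟨hB, h⟩
    · rintro (h | h) <;> exact h.1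
  have h1 : (G.filter (fun B => D ⊆ B)).card ≤ 2 ^ ((U \ D).card / d) := by
    refine part _ (filter_subset _ _) ?_ ?_
    · intro s hs t ht
      rw [mem_filter] at hs ht ⊢
      exact ⟨hinter s hs.1 t ht.1, subset_inter hs.2 ht.2⟩
    · intro s hs t ht
      rw [mem_filter] at hs ht
      rw [inter_eq_right.mpr hs.2, inter_eq_right.mpr ht.2]
  have h2 : (G.filter (fun B => Disjoint B D)).card ≤ 2 ^ ((U \ D).card / d) := by
    refine part _ (filter_subset _ _) ?_ ?_
    · intro s hs t ht
      rw [mem_filter] at hs ht ⊢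
      exact ⟨hinter s hs.1 t ht.1, disjoint_of_subset_left inter_subset_left hs.2⟩
    · intro s hs t ht
      rw [mem_filter] at hs ht
      rw [disjoint_iff_inter_eq_empty.mp hs.2, disjoint_iff_inter_eq_empty.mp ht.2]
  calc G.card ≤ (G.filter (fun B => D ⊆ B)).card + (G.filter (fun B => Disjoint B D)).card := by
        conv_lhs => rw [hsplit]
        exact card_union_le _ _
    _ ≤ 2 ^ ((U \ D).card / d) + 2 ^ ((U \ D).card / d) := Nat.add_le_add h1 h2
    _ = 2 ^ ((U \ D).card / d + 1) := by ring
    _ ≤ 2 ^ (U.card / d) := by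
        refine Nat.pow_le_pow_right (by norm_num) ?_
        rw [card_sdiff_of_subset hDU]
        have h3 := card_le_card hDU
        have h4 : (U.card - D.card) / d + 1 = (U.card - D.card + d) / d := by
          rw [Nat.add_div_right _ (by omega)]
        rw [h4]
        exact Nat.div_le_div_right (by omega)

end Pool.Agent.Helper62K9.NP
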