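import Pool.Agent.Helper62K9.NPa
import Pool.Agent.H523R4.BitClone

set_option autoImplicit false

/-!
Binary codes closed under a coordinatewise Boolean operation.
-/

namespace Pool.Agent.Helper62K9.NP

open Finset

/-- affine Boolean functions -/
def IsAffine {k : ℕ} (f : (Fin k → Bool) → Bool) : Prop :=
  ∀ x y z : Fin k → Bool, f (fun i => (x i ^^ y i) ^^ z i) = ((f x ^^ f y) ^^ f z)

/-- `C` is closed under the coordinatewise operation `f` -/
def ClosedUnder {n k : ℕ} (f : (Fin k → Bool) → Bool) (C : Finset (Fin n → Bool)) : Prop :=
  ∀ a : Fin k → (Fin n → Bool), (∀ i, a i ∈ C) → (fun j => f (fun i => a i j)) ∈ C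

/-- minimum distance at least `d` -/
def IsCode {n : ℕ} (d : ℕ) (C : Finset (Fin n → Bool)) : Prop :=
  ∀ x ∈ C, ∀ y ∈ C, x ≠ y → d ≤ hammingDist x y

/-- the support of `x + z` -/
def supp {n : ℕ} (z x : Fin n → Bool) : Finset (Fin n) := univ.filter fun j => (x j ^^ z j) = true

lemma mem_supp {n : ℕ} {z x : Fin n → Bool} {j : Fin n} : j ∈ supp z x ↔ (x j ^^ z j) = true := by
  simp [supp]

lemma supp_inj {n : ℕ} (z : Fin n → Bool) : Function.Injective (supp z) := by
  intro x y h
  funext j
  have h1 : j ∈ supp z x ↔ j ∈ supp z y := by rw [h]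
  rw [mem_supp, mem_supp] at h1
  cases hx : x j <;> cases hy : y j <;> cases hz : z j <;> simp_all

lemma card_symmDiff_supp {n : ℕ} (z x y : Fin n → Bool) :
    (symmDiff (supp z x) (supp z y)).card = hammingDist x y := by
  unfold hammingDist
  congr 1
  ext j
  rw [mem_symmDiff, mem_supp, mem_supp]
  simp only [mem_filter, mem_univ, true_and]
  cases x j <;> cases y j <;> cases z j <;> simp

lemma supp_inter {n : ℕ} (z x y : Fin n → Bool) :
    supp z (fun j => ((x j ^^ z j) && (y j ^^ z j)) ^^ z j) = supp z x ∩ supp z y := by
  ext j
  rw [mem_inter, mem_supp, mem_supp, mem_supp]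
  cases x j <;> cases y j <;> cases z j <;> simp

theorem bound_of_translate {n d : ℕ} (hd : 1 ≤ d) (C : Finset (Fin n → Bool)) (hC : IsCode d C)
    (z : Fin n → Bool) (hz : ∀ x ∈ C, ∀ y ∈ C,
      (fun j => ((x j ^^ z j) && (y j ^^ z j)) ^^ z j) ∈ C) : C.card ≤ 2 ^ (n / d) := by
  classical
  have h1 := meet_bound d hd n (univ : Finset (Fin n)) (C.image (supp z)) (by simp)
    (fun s _ => subset_univ s) ?_ ?_
  · rw [card_image_of_injective _ (supp_inj z)] at h1
    simpa using h1
  · intro s hs t ht
    rw [mem_image] at hs ht ⊢
    obtain ⟨x, hx, rfl⟩ := hs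
    obtain ⟨y, hy, rfl⟩ := ht
    exact ⟨_, hz x hx y hy, supp_inter z x y⟩
  · intro s hs t ht hst
    rw [mem_image] at hs ht
    obtain ⟨x, hx, rfl⟩ := hs
    obtain ⟨y, hy, rfl⟩ := ht
    rw [card_symmDiff_supp]
    exact hC x hx y hy (fun h => hst (by rw [h]))

theorem bound_zero {n d k : ℕ} (hd : 1 ≤ d) (f : (Fin k → Bool) → Bool) (hf : ¬ IsAffine f)
    (h0 : f (fun _ => false) = false) (C : Finset (Fin n → Bool)) (hC : IsCode d C)
    (hcl : ClosedUnder f C) : C.card ≤ 2 ^ (n / d) := by
  rcases C.eq_empty_or_nonempty with rfl | hne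
  · simp
  obtain ⟨z, hz⟩ := Pool.Agent.H523R4.BC.translate (ι := Fin n) f hf h0 (C : Set (Fin n → Bool))
    (fun a ha => mem_coe.mpr (hcl a (fun i => mem_coe.mp (ha i)))) (by simpa using hne)
  exact bound_of_translate hd C hC z (fun x hx y hy => mem_coe.mp (hz x (mem_coe.mpr hx) y
    (mem_coe.mpr hy)))

/-- the upper bound, for every operation that is not affine -/
theorem bound {n d k : ℕ} (hd : 1 ≤ d) (f : (Fin k → Bool) → Bool) (hf : ¬ IsAffine f)
    (C : Finset (Fin n → Bool)) (hC : IsCode d C) (hcl : ClosedUnder f C) :
    C.card ≤ 2 ^ (n / d) := by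
  classical
  by_cases h0 : f (fun _ => false) = false
  · exact bound_zero hd f hf h0 C hC hcl
  have h0' : f (fun _ => false) = true := by simpa using h0
  by_cases h1 : f (fun _ => true) = true
  · -- the dual operation and the complemented code
    set g : (Fin k → Bool) → Bool := fun x => !(f fun i => !(x i)) with hg
    set C' : Finset (Fin n → Bool) := C.image (fun x j => !(x j)) with hC'
    have hinj : Function.Injective (fun (x : Fin n → Bool) (j : Fin n) => !(x j)) := by
      intro x y h
      funext j
      have := congrFun h j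
      simpa using this
    have hcard : C'.card = C.card := card_image_of_injective _ hinj
    rw [← hcard]
    refine bound_zero hd g ?_ ?_ C' ?_ ?_
    · intro hga
      apply hf
      intro x y z
      have h2 := hga (fun i => !(x i)) (fun i => !(y i)) (fun i => !(z i))
      simp only [hg, Bool.not_not] at h2
      have e1 : (fun i => !(((!(x i)) ^^ (!(y i))) ^^ (!(z i)))) =
          (fun i => (x i ^^ y i) ^^ z i) := by
        funext i; cases x i <;> cases y i <;> cases z i <;> rfl
      rw [e1] at h2
      revert h2
      generalize f x = p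
      generalize f y = q
      generalize f z = r
      generalize f (fun i => (x i ^^ y i) ^^ z i) = s
      cases p <;> cases q <;> cases r <;> cases s <;> simp
    · simp only [hg, Bool.not_false, h1, Bool.not_true]
    · intro x hx y hy hxy
      rw [hC', mem_image] at hx hy
      obtain ⟨x, hx, rfl⟩ := hx
      obtain ⟨y, hy, rfl⟩ := hy
      have h2 := hC x hx y hy (fun h => hxy (by rw [h]))
      refine h2.trans (le_of_eq ?_)
      unfold hammingDist
      congr 1
      ext j
      simp
    · intro a ha
      have h2 : ∀ i, ∃ b ∈ C, (fun j => !(b j)) = a i := by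
        intro i
        have := ha i
        rw [hC', mem_image] at this
        exact this
      choose b hb hba using h2
      rw [hC', mem_image]
      refine ⟨_, hcl b hb, ?_⟩
      funext j
      simp only [hg]
      congr 2
      funext i
      rw [← hba i]
      simp
  · -- closed under negation
    have h1' : f (fun _ => true) = false := by simpa using h1
    have hneg : ∀ x ∈ C, (fun j => !(x j)) ∈ C := by
      intro x hx
      have h2 := hcl (fun _ => x) (fun _ => hx)
      have h3 : (fun j => f (fun _ => x j)) = (fun j => !(x j)) := by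
        funext j
        cases x j
        · simpa using h0'
        · simpa using h1'
      rw [h3] at h2
      exact h2
    set g : (Fin k → Bool) → Bool := fun x => !(f x) with hg
    refine bound_zero hd g ?_ ?_ C hC ?_
    · intro hga
      apply hf
      intro x y z
      have h2 := hga x y z
      simp only [hg] at h2
      revert h2
      generalize f x = p
      generalize f y = q
      generalize f z = r
      generalize f (fun i => (x i ^^ y i) ^^ z i) = s
      cases p <;> cases q <;> cases r <;> cases s <;> simp
    · simp only [hg, h0', Bool.not_true]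
    · intro a ha
      exact hneg _ (hcl a ha)

/-- the code of the words that are constant on the blocks of length `d` (the last block may be
longer) -/
def blockWord {n : ℕ} (d : ℕ) (b : Fin (n / d) → Bool) (h : 0 < n / d) : Fin n → Bool :=
  fun j => b ⟨min (j.val / d) (n / d - 1), by omega⟩

theorem blocks (n d : ℕ) (hd : 1 ≤ d) (hdn : d ≤ n) :
    ∃ C : Finset (Fin n → Bool), (∀ (k : ℕ) (f : (Fin k → Bool) → Bool), ClosedUnder f C) ∧
      IsCode d C ∧ C.card = 2 ^ (n / d) := by
  classical
  have hpos : 0 < n / d := Nat.div_pos hdn hd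
  have key : ∀ (b b' : Fin (n / d) → Bool) (i : Fin (n / d)), b i ≠ b' i →
      d ≤ hammingDist (blockWord d b hpos) (blockWord d b' hpos) := by
    intro b b' i hi
    unfold hammingDist
    have hlt : ∀ t : Fin d, i.val * d + t.val < n := by
      intro t
      have h1 : (i.val + 1) * d ≤ n / d * d := Nat.mul_le_mul_right d i.isLt
      have h2 : n / d * d ≤ n := Nat.div_mul_le_self n d
      have h3 := t.isLt
      have h4 : (i.val + 1) * d = i.val * d + d := by ring
      omega
    have h1 : (univ.image (fun t : Fin d => (⟨i.val * d + t.val, hlt t⟩ : Fin n))).card = d := by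
      rw [card_image_of_injective]
      · simp
      · intro t t' h
        simp only [Fin.mk.injEq] at h
        exact Fin.ext (by omega)
    calc d = _ := h1.symm
      _ ≤ _ := by
        refine card_le_card ?_
        intro j hj
        rw [mem_image] at hj
        obtain ⟨t, _, rfl⟩ := hj
        simp only [mem_filter, mem_univ, true_and]
        have h2 : min ((i.val * d + t.val) / d) (n / d - 1) = i.val := by
          have h3 : (i.val * d + t.val) / d = i.val := by
            rw [mul_comm, Nat.mul_add_div (by omega), Nat.div_eq_of_lt t.isLt, add_zero]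
          rw [h3]
          have := i.isLt
          omega
        unfold blockWord
        simp only [h2]
        exact hi
  have hinj : Function.Injective (fun b : Fin (n / d) → Bool => blockWord d b hpos) := by
    intro b b' h
    by_contra hne
    obtain ⟨i, hi⟩ := Function.ne_iff.mp hne
    have h1 := key b b' i hi
    simp only at h
    rw [h, hammingDist_self] at h1
    omega
  refine ⟨univ.image (fun b : Fin (n / d) → Bool => blockWord d b hpos), ?_, ?_, ?_⟩
  · intro k f a ha
    have h1 : ∀ i, ∃ b : Fin (n / d) → Bool, blockWord d b hpos = a i := by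
      intro i
      have := ha i
      rw [mem_image] at this
      obtain ⟨b, _, hb⟩ := this
      exact ⟨b, hb⟩
    choose b hb using h1
    rw [mem_image]
    refine ⟨fun i => f (fun l => b l i), mem_univ _, ?_⟩
    funext j
    have h2 : (fun l => a l j) = fun l => blockWord d (b l) hpos j := by
      funext l
      rw [hb l]
    rw [h2]
    rfl
  · intro x hx y hy hxy
    rw [mem_image] at hx hy
    obtain ⟨b, _, rfl⟩ := hx
    obtain ⟨b', _, rfl⟩ := hy
    have hne : b ≠ b' := fun h => hxy (by rw [h])
    obtain ⟨i, hi⟩ := Function.ne_iff.mp hne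
    exact key b b' i hi
  · rw [card_image_of_injective _ hinj]
    simp

end Pool.Agent.Helper62K9.NP
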