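import Pool.Agent.Helper62K9.NPb

set_option autoImplicit false

/-!
Affine operations: the bound of Gilbert and Varshamov for linear codes containing the all-one word.
-/

namespace Pool.Agent.Helper62K9.NP

open Finset

/-- a linear code containing the all-one word is closed under all affine operations -/
theorem closed_affine {n k : ℕ} (f : (Fin k → Bool) → Bool) (hf : IsAffine f)
    (V : Finset (Fin n → Bool)) (h0 : (fun _ => false) ∈ V) (h1 : (fun _ => true) ∈ V)
    (hx : ∀ x ∈ V, ∀ y ∈ V, (fun j => x j ^^ y j) ∈ V) : ClosedUnder f V := by
  classical
  intro a ha
  have key : ∀ s : Finset (Fin k), (fun j => f (fun i => if i ∈ s then a i j else false)) ∈ V := by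
    intro s
    induction s using Finset.induction_on with
    | empty =>
      simp only [notMem_empty, if_false]
      cases h : f (fun _ => false)
      · exact h0
      · exact h1
    | insert i s his ih =>
      have h2 : (fun j => f (fun l => if l ∈ insert i s then a l j else false)) =
          (fun j => f (fun l => if l ∈ s then a l j else false) ^^
            ((a i j) && (f (fun l => decide (l = i)) ^^ f (fun _ => false)))) := by
        funext j
        cases hij : a i j
        · have e1 : (fun l => if l ∈ insert i s then a l j else false) =
              (fun l => if l ∈ s then a l j else false) := by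
            funext l
            by_cases hl : l = i
            · rw [hl]; simp [his, hij]
            · simp [mem_insert, hl]
          rw [e1]
          simp
        · have e1 : (fun l => if l ∈ insert i s then a l j else false) =
              (fun l => ((if l ∈ s then a l j else false) ^^ (decide (l = i))) ^^ false) := by
            funext l
            by_cases hl : l = i
            · rw [hl]; simp [his, hij]
            · simp [mem_insert, hl]
          rw [e1, hf]
          cases f (fun l => if l ∈ s then a l j else false) <;>
            cases f (fun l => decide (l = i)) <;> cases f (fun _ => false) <;> rfl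
      rw [h2]
      cases h3 : (f (fun l => decide (l = i)) ^^ f (fun _ => false))
      · have : (fun j => f (fun l => if l ∈ s then a l j else false) ^^ ((a i j) && false)) =
            (fun j => f (fun l => if l ∈ s then a l j else false)) := by
          funext j
          simp
        rw [this]
        exact ih
      · have := hx _ ih _ (ha i)
        have e : (fun j => f (fun l => if l ∈ s then a l j else false) ^^ ((a i j) && true)) =
            (fun j => f (fun l => if l ∈ s then a l j else false) ^^ (a i j)) := by
          funext j
          simp
        rw [e]
        exact this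
  have h2 := key univ
  simpa using h2

lemma dist_xor {n : ℕ} (x y z : Fin n → Bool) :
    hammingDist (fun j => x j ^^ z j) (fun j => y j ^^ z j) = hammingDist x y := by
  unfold hammingDist
  congr 1
  ext j
  simp

/-- the bound of Gilbert and Varshamov for linear codes with the all-one word -/
theorem gv {n d : ℕ} (hd : 1 ≤ d) (hdn : d ≤ n) :
    ∃ V : Finset (Fin n → Bool), (∀ (k : ℕ) (f : (Fin k → Bool) → Bool), IsAffine f →
      ClosedUnder f V) ∧ IsCode d V ∧
      2 ^ n ≤ V.card * (univ.filter fun x : Fin n → Bool =>
        hammingDist x (fun _ => false) < d).card := by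
  classical
  -- the good codes
  set P : Finset (Finset (Fin n → Bool)) := univ.filter fun V =>
    (fun _ => false) ∈ V ∧ (fun _ => true) ∈ V ∧ (∀ x ∈ V, ∀ y ∈ V, (fun j => x j ^^ y j) ∈ V) ∧
      IsCode d V with hP
  have hPne : P.Nonempty := by
    refine ⟨{fun _ => false, fun _ => true}, ?_⟩
    rw [hP, mem_filter]
    refine ⟨mem_univ _, by simp, by simp, ?_, ?_⟩
    · intro x hx y hy
      simp only [mem_insert, mem_singleton] at hx hy ⊢
      rcases hx with rfl | rfl <;> rcases hy with rfl | rfl <;> simp
    · intro x hx y hy hxy
      simp only [mem_insert, mem_singleton] at hx hy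
      have h1 : hammingDist (fun _ : Fin n => false) (fun _ => true) = n := by
        unfold hammingDist; simp
      have h2 : hammingDist (fun _ : Fin n => true) (fun _ => false) = n := by
        unfold hammingDist; simp
      rcases hx with rfl | rfl <;> rcases hy with rfl | rfl
      · exact absurd rfl hxy
      · rw [h1]; exact hdn
      · rw [h2]; exact hdn
      · exact absurd rfl hxy
  obtain ⟨V, hV, hmax⟩ := exists_max_image P (fun V => V.card) hPne
  rw [hP, mem_filter] at hV
  obtain ⟨-, h0, h1, hxor, hcode⟩ := hV
  refine ⟨V, fun k f hf => closed_affine f hf V h0 h1 hxor, hcode, ?_⟩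
  by_contra hcon
  push Not at hcon
  set B := univ.filter fun x : Fin n → Bool => hammingDist x (fun _ => false) < d with hB
  -- a word far from `V`
  have hfar : ∃ v : Fin n → Bool, ∀ c ∈ V, d ≤ hammingDist v c := by
    by_contra hno
    push Not at hno
    have hcover : (univ : Finset (Fin n → Bool)) ⊆
        (V ×ˢ B).image (fun p j => p.1 j ^^ p.2 j) := by
      intro v _
      obtain ⟨c, hc, hvc⟩ := hno v
      rw [mem_image]
      refine ⟨(c, fun j => v j ^^ c j), ?_, ?_⟩
      · rw [mem_product]
        refine ⟨hc, ?_⟩
        rw [hB, mem_filter]
        refine ⟨mem_univ _, ?_⟩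
        have e := dist_xor v c c
        have e2 : (fun j => c j ^^ c j) = fun _ => false := by funext j; simp
        rw [e2] at e
        show hammingDist (fun j => v j ^^ c j) (fun _ => false) < d
        rw [e]
        exact hvc
      · funext j
        show (c j ^^ (v j ^^ c j)) = v j
        cases c j <;> cases v j <;> rfl
    have h2 := card_le_card hcover
    have h3 : (univ : Finset (Fin n → Bool)).card = 2 ^ n := by simp
    rw [h3] at h2
    have h4 := h2.trans card_image_le
    rw [card_product] at h4
    omega
  obtain ⟨v, hv⟩ := hfar
  have hvV : v ∉ V := by
    intro h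
    have := hv v h
    rw [hammingDist_self] at this
    omega
  set W := V ∪ V.image (fun c j => c j ^^ v j) with hW
  have hWP : W ∈ P := by
    rw [hP, mem_filter]
    refine ⟨mem_univ _, mem_union_left _ h0, mem_union_left _ h1, ?_, ?_⟩
    · intro x hx y hy
      rw [hW, mem_union, mem_image] at hx hy ⊢
      rcases hx with hx | ⟨c, hc, rfl⟩ <;> rcases hy with hy | ⟨c', hc', rfl⟩
      · exact Or.inl (hxor x hx y hy)
      · refine Or.inr ⟨_, hxor x hx c' hc', ?_⟩
        funext j
        show ((x j ^^ c' j) ^^ v j) = (x j ^^ (c' j ^^ v j))
        cases x j <;> cases c' j <;> cases v j <;> rfl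
      · refine Or.inr ⟨_, hxor c hc y hy, ?_⟩
        funext j
        show ((c j ^^ y j) ^^ v j) = ((c j ^^ v j) ^^ y j)
        cases c j <;> cases y j <;> cases v j <;> rfl
      · refine Or.inl ?_
        have := hxor c hc c' hc'
        have e : (fun j => (c j ^^ v j) ^^ (c' j ^^ v j)) = fun j => c j ^^ c' j := by
          funext j
          cases c j <;> cases c' j <;> cases v j <;> rfl
        rw [e]
        exact this
    · intro x hx y hy hxy
      rw [hW, mem_union, mem_image] at hx hy
      rcases hx with hx | ⟨c, hc, rfl⟩ <;> rcases hy with hy | ⟨c', hc', rfl⟩
      · exact hcode x hx y hy hxy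
      · have h2 := hv _ (hxor x hx c' hc')
        refine h2.trans (le_of_eq ?_)
        unfold hammingDist
        congr 1
        ext j
        simp only [mem_filter, mem_univ, true_and]
        cases x j <;> cases c' j <;> cases v j <;> simp
      · have h2 := hv _ (hxor c hc y hy)
        refine h2.trans (le_of_eq ?_)
        unfold hammingDist
        congr 1
        ext j
        simp only [mem_filter, mem_univ, true_and]
        cases c j <;> cases y j <;> cases v j <;> simp
      · have hne : c ≠ c' := fun h => hxy (by rw [h])
        have h2 := hcode c hc c' hc' hne
        rw [dist_xor]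
        exact h2
  have h2 := hmax W hWP
  have h3 : V ⊂ W := by
    rw [Finset.ssubset_iff_of_subset subset_union_left]
    refine ⟨v, ?_, hvV⟩
    rw [mem_union, mem_image]
    refine Or.inr ⟨_, h0, ?_⟩
    funext j
    simp
  have h4 := card_lt_card h3
  omega

end Pool.Agent.Helper62K9.NP
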