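import Mathlib

set_option autoImplicit false

/-!
Straight-line programs of additions.
-/

namespace Pool.Agent.Helper62K9.SLP

/-- Run a straight-line program on a list of registers: the instruction `(i, j)` appends one new
register, which contains the sum of the registers `i` and `j` (a register that does not exist is
read as `0`). -/
def run {A : Type*} [AddCommMonoid A] (P : List (ℕ × ℕ)) (v : List A) : List A :=
  P.foldl (fun r ij => r ++ [r.getD ij.1 0 + r.getD ij.2 0]) v

/-- from the vectors in `B` one gets all vectors in `T` with `s` additions -/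
def Can {V : Type*} [AddCommMonoid V] : ℕ → Set V → Set V → Prop
  | 0, B, T => T ⊆ insert 0 B
  | s + 1, B, T => ∃ x ∈ insert 0 B, ∃ y ∈ insert 0 B, Can s (insert (x + y) B) T

section
variable {V : Type*} [AddCommMonoid V]

theorem Can.mono {s : ℕ} : ∀ {B B' T T' : Set V}, Can s B T → B ⊆ B' → T' ⊆ T → Can s B' T' := by
  induction s with
  | zero =>
    intro B B' T T' h hB hT
    exact (hT.trans h).trans (Set.insert_subset_insert hB)
  | succ s ih =>
    rintro B B' T T' ⟨x, hx, y, hy, h⟩ hB hT
    exact ⟨x, Set.insert_subset_insert hB hx, y, Set.insert_subset_insert hB hy,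
      ih h (Set.insert_subset_insert hB) hT⟩

theorem Can.succ {s : ℕ} {B T : Set V} (h : Can s B T) : Can (s + 1) B T :=
  ⟨0, Set.mem_insert _ _, 0, Set.mem_insert _ _, h.mono (Set.subset_insert _ _) subset_rfl⟩

theorem Can.le {s t : ℕ} {B T : Set V} (h : Can s B T) (hst : s ≤ t) : Can t B T := by
  induction hst with
  | refl => exact h
  | step _ ih => exact ih.succ

theorem Can.keep {s : ℕ} : ∀ {B T : Set V}, Can s B T → Can s B (T ∪ insert 0 B) := by
  induction s with
  | zero =>
    intro B T h
    exact Set.union_subset h subset_rfl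
  | succ s ih =>
    rintro B T ⟨x, hx, y, hy, h⟩
    exact ⟨x, hx, y, hy, (ih h).mono subset_rfl (Set.union_subset_union_right _
      (Set.insert_subset_insert (Set.subset_insert _ _)))⟩

theorem Can.zero_left {s : ℕ} : ∀ {B T : Set V}, Can s (insert 0 B) T → Can s B T := by
  induction s with
  | zero =>
    intro B T h
    refine h.trans ?_
    rw [Set.insert_eq_of_mem (Set.mem_insert _ _)]
  | succ s ih =>
    rintro B T ⟨x, hx, y, hy, h⟩
    rw [Set.insert_eq_of_mem (Set.mem_insert _ _)] at hx hy
    refine ⟨x, hx, y, hy, ih ?_⟩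
    rwa [Set.insert_comm]

theorem Can.trans {s t : ℕ} : ∀ {B T T' : Set V}, Can s B T → Can t (B ∪ T) T' →
    Can (s + t) B (T ∪ T') := by
  induction s with
  | zero =>
    intro B T T' h1 h2
    rw [Nat.zero_add]
    have h3 : Can t (insert 0 B) T' := h2.mono (Set.union_subset (Set.subset_insert _ _) h1)
      subset_rfl
    have h4 : T ⊆ insert 0 B := h1
    exact h3.zero_left.keep.mono subset_rfl (Set.union_subset
      (Set.Subset.trans h4 Set.subset_union_right) Set.subset_union_left)
  | succ s ih =>
    rintro B T T' ⟨x, hx, y, hy, h⟩ h2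
    have e : s + 1 + t = (s + t) + 1 := by omega
    rw [e]
    exact ⟨x, hx, y, hy, ih h (h2.mono
      (Set.union_subset_union_left _ (Set.subset_insert _ _)) subset_rfl)⟩

theorem Can.trans' {s t : ℕ} {B T T' : Set V} (h1 : Can s B T) (h2 : Can t (B ∪ T) T') :
    Can (s + t) B T' := (h1.trans h2).mono subset_rfl Set.subset_union_right

theorem Can.union {s t : ℕ} {B T T' : Set V} (h1 : Can s B T) (h2 : Can t B T') :
    Can (s + t) B (T ∪ T') := h1.trans (h2.mono Set.subset_union_left subset_rfl)

theorem Can.one {B : Set V} {x y : V} (hx : x ∈ insert 0 B) (hy : y ∈ insert 0 B) :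
    Can 1 B {x + y} := by
  refine ⟨x, hx, y, hy, ?_⟩
  intro z hz
  rw [Set.mem_singleton_iff] at hz
  rw [hz]
  exact Set.mem_insert_of_mem _ (Set.mem_insert _ _)

theorem Can.self {B T : Set V} (h : T ⊆ insert 0 B) : Can 0 B T := h

/-- adding up groups -/
theorem Can.group {ι κ : Type*} [DecidableEq ι] [DecidableEq κ] (g : ι → κ) (w : κ → V)
    (x : ι → V) (B : Set V) (U : Set κ) (hw : ∀ u ∈ U, w u ∈ insert 0 B) (S : Finset ι)
    (hx : ∀ i ∈ S, x i ∈ insert 0 B) :
    Can S.card B {z | ∃ u ∈ U, z = w u + ∑ i ∈ S.filter (fun i => g i = u), x i} := by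
  induction S using Finset.induction_on with
  | empty =>
    apply Can.self
    rintro z ⟨u, hu, rfl⟩
    simpa using hw u hu
  | insert a S ha ih =>
    rw [Finset.card_insert_of_notMem ha]
    have h1 := ih (fun i hi => hx i (Finset.mem_insert_of_mem hi))
    by_cases hU : g a ∈ U
    · have h2 : Can 1 (B ∪ {z | ∃ u ∈ U, z = w u + ∑ i ∈ S.filter (fun i => g i = u), x i})
          {(w (g a) + ∑ i ∈ S.filter (fun i => g i = g a), x i) + x a} := by
        apply Can.one
        · right; right
          exact ⟨g a, hU, rfl⟩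
        · exact Set.insert_subset_insert Set.subset_union_left (hx a (Finset.mem_insert_self _ _))
      refine (h1.trans h2).mono subset_rfl ?_
      rintro z ⟨u, hu, rfl⟩
      by_cases hga : g a = u
      · right
        rw [Set.mem_singleton_iff, Finset.filter_insert, if_pos hga, Finset.sum_insert (by
          rw [Finset.mem_filter]; exact fun h => ha h.1), ← hga, add_assoc,
          add_comm (x a)]
      · left
        refine ⟨u, hu, ?_⟩
        rw [Finset.filter_insert, if_neg hga]
    · refine h1.succ.mono subset_rfl ?_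
      rintro z ⟨u, hu, rfl⟩
      refine ⟨u, hu, ?_⟩
      rw [Finset.filter_insert, if_neg]
      rintro rfl
      exact hU hu

theorem Can.sum {ι : Type*} [DecidableEq ι] (x : ι → V) (B : Set V) (S : Finset ι)
    (hx : ∀ i ∈ S, x i ∈ insert 0 B) : Can S.card B {∑ i ∈ S, x i} := by
  have h := Can.group (fun _ : ι => ()) (fun _ => (0 : V)) x B Set.univ
    (fun _ _ => Set.mem_insert _ _) S hx
  refine h.mono subset_rfl ?_
  rintro z hz
  rw [Set.mem_singleton_iff] at hz
  refine ⟨(), Set.mem_univ _, ?_⟩
  rw [hz]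
  simp

/-- many targets one after the other -/
theorem Can.biUnion {κ : Type*} [DecidableEq κ] (B : Set V) (T : κ → Set V) (c : κ → ℕ)
    (S : Finset κ) (h : ∀ k ∈ S, Can (c k) B (T k)) :
    Can (∑ k ∈ S, c k) B {z | ∃ k ∈ S, z ∈ T k} := by
  induction S using Finset.induction_on with
  | empty =>
    apply Can.self
    rintro z ⟨u, hu, -⟩
    simp at hu
  | insert a S ha ih =>
    rw [Finset.sum_insert ha]
    refine ((h a (Finset.mem_insert_self _ _)).union
      (ih (fun k hk => h k (Finset.mem_insert_of_mem hk)))).mono subset_rfl ?_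
    rintro z ⟨k, hk, hz⟩
    rw [Finset.mem_insert] at hk
    rcases hk with rfl | hk
    · exact Or.inl hz
    · exact Or.inr ⟨k, hk, hz⟩

end

section
variable {A V : Type*} [AddCommMonoid A] [AddCommMonoid V]

lemma run_nil (v : List A) : run [] v = v := rfl

lemma run_cons (i j : ℕ) (P : List (ℕ × ℕ)) (v : List A) :
    run ((i, j) :: P) v = run P (v ++ [v.getD i 0 + v.getD j 0]) := rfl

theorem run_map (φ : V →+ A) (P : List (ℕ × ℕ)) : ∀ v : List V,
    run P (v.map φ) = (run P v).map φ := by
  induction P with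
  | nil => intro v; rfl
  | cons ij P ih =>
    intro v
    obtain ⟨i, j⟩ := ij
    rw [run_cons, run_cons, ← ih]
    congr 1
    rw [List.map_append]
    congr 1
    have hg : ∀ i, (v.map φ).getD i 0 = φ (v.getD i 0) := by
      intro i
      simp only [List.getD_eq_getElem?_getD, List.getElem?_map]
      cases v[i]? with
      | none => simp
      | some a => simp
    rw [hg, hg, List.map_singleton, map_add]

theorem exists_program {s : ℕ} : ∀ {B T : Set V} (L : List V), Can s B T → (∀ b ∈ B, b ∈ L) →
    ∃ P : List (ℕ × ℕ), P.length = s ∧ ∀ t ∈ T, ∃ i, (run P L).getD i 0 = t := by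
  induction s with
  | zero =>
    intro B T L h hL
    refine ⟨[], rfl, fun t ht => ?_⟩
    rcases h ht with rfl | h1
    · exact ⟨L.length, by rw [run_nil, List.getD_eq_default _ _ le_rfl]⟩
    · obtain ⟨i, hi, h2⟩ := List.mem_iff_getElem.mp (hL t h1)
      exact ⟨i, by rw [run_nil, List.getD_eq_getElem _ _ hi, h2]⟩
  | succ s ih =>
    rintro B T L ⟨x, hx, y, hy, h⟩ hL
    have hget : ∀ x ∈ insert 0 B, ∃ i, L.getD i 0 = x := by
      intro x hx
      rcases hx with rfl | h1
      · exact ⟨L.length, by rw [List.getD_eq_default _ _ le_rfl]⟩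
      · obtain ⟨i, hi, h2⟩ := List.mem_iff_getElem.mp (hL x h1)
        exact ⟨i, by rw [List.getD_eq_getElem _ _ hi, h2]⟩
    obtain ⟨i, hi⟩ := hget x hx
    obtain ⟨j, hj⟩ := hget y hy
    obtain ⟨P, hP, h1⟩ := ih (L ++ [x + y]) h (by
      rintro b (rfl | hb)
      · simp
      · exact List.mem_append_left _ (hL b hb))
    refine ⟨(i, j) :: P, by rw [List.length_cons, hP], ?_⟩
    rw [run_cons, hi, hj]
    exact h1

end

end Pool.Agent.Helper62K9.SLP
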