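import Pool.Agent.Helper62K9.OMVa

set_option autoImplicit false

/-!
The zeta transform of a finite meet-semilattice.
-/

namespace Pool.Agent.Helper62K9.SLP

open Finset

theorem exists_least {P : Type*} [SemilatticeInf P] (S : Finset P) (p : P → Prop)
    (hp : ∀ x ∈ S, p x → ∀ y ∈ S, p y → x ⊓ y ∈ S ∧ p (x ⊓ y)) (hne : ∃ x ∈ S, p x) :
    ∃ c ∈ S, p c ∧ ∀ s ∈ S, p s → c ≤ s := by
  classical
  obtain ⟨x, hx, hpx⟩ := hne
  have hT : (S.filter p).Nonempty := ⟨x, mem_filter.mpr ⟨hx, hpx⟩⟩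
  have h := Finset.inf'_mem {z | z ∈ S ∧ p z} (by
    rintro a ⟨ha, hpa⟩ b ⟨hb, hpb⟩
    exact hp a ha hpa b hb hpb) (S.filter p) hT id (by
    intro i hi
    rw [mem_filter] at hi
    exact hi)
  refine ⟨_, h.1, h.2, fun s hs hps => ?_⟩
  exact Finset.inf'_le id (mem_filter.mpr ⟨hs, hps⟩)

lemma ineq {x y z : ℝ} (hx : 0 ≤ x) (hy : 0 ≤ y) (hz : 0 < z) (h : z ^ 2 = x ^ 2 + y ^ 2)
    (hyz : z ≤ y ^ 2) : x ^ 3 + y ^ 3 + x ^ 2 ≤ z ^ 3 := by
  have h1 : x ≤ z := by nlinarith
  have h2 : y ≤ z := by nlinarith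
  have h3 : y ^ 2 ≤ 2 * z * (z - x) := by nlinarith
  have h4 : x ^ 2 ≤ 2 * z * (z - y) := by nlinarith
  have h5 : z * (z ^ 3 - x ^ 3 - y ^ 3 - x ^ 2) ≥ 0 := by
    have e : z * (z ^ 3 - x ^ 3 - y ^ 3 - x ^ 2) = x ^ 2 * (z * (z - x)) + y ^ 2 * (z * (z - y))
        - z * x ^ 2 := by
      have : z ^ 3 = z * (x ^ 2 + y ^ 2) := by rw [← h]; ring
      rw [this]; ring
    rw [e]
    have h6 : x ^ 2 * y ^ 2 ≤ x ^ 2 * (2 * z * (z - x)) := mul_le_mul_of_nonneg_left h3 (sq_nonneg _)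
    have h7 : y ^ 2 * x ^ 2 ≤ y ^ 2 * (2 * z * (z - y)) := mul_le_mul_of_nonneg_left h4 (sq_nonneg _)
    have h8 : x ^ 2 * z ≤ x ^ 2 * y ^ 2 := mul_le_mul_of_nonneg_left hyz (sq_nonneg _)
    nlinarith
  have h9 : 0 ≤ z ^ 3 - x ^ 3 - y ^ 3 - x ^ 2 := by
    by_contra hcon
    push Not at hcon
    have := mul_neg_of_pos_of_neg hz hcon
    linarith
  linarith

lemma ineq_nat {n s : ℕ} (hs : s ≤ n) (hn : 0 < n) (hsn : n ≤ s ^ 2) :
    (Real.sqrt ((n - s : ℕ) : ℝ)) ^ 3 + (Real.sqrt s) ^ 3 + ((n - s : ℕ) : ℝ) ≤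
      (Real.sqrt n) ^ 3 := by
  have h1 : ((n - s : ℕ) : ℝ) = (Real.sqrt ((n - s : ℕ) : ℝ)) ^ 2 :=
    (Real.sq_sqrt (Nat.cast_nonneg _)).symm
  have h2 : (Real.sqrt n) ^ 2 = (Real.sqrt ((n - s : ℕ) : ℝ)) ^ 2 + (Real.sqrt s) ^ 2 := by
    rw [Real.sq_sqrt (Nat.cast_nonneg _), Real.sq_sqrt (Nat.cast_nonneg _),
      Real.sq_sqrt (Nat.cast_nonneg _), Nat.cast_sub hs]
    ring
  have h3 : Real.sqrt n ≤ (Real.sqrt s) ^ 2 := by
    rw [Real.sq_sqrt (Nat.cast_nonneg _)]
    apply Real.sqrt_le_iff.mpr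
    exact ⟨Nat.cast_nonneg _, by exact_mod_cast hsn⟩
  have h4 := ineq (Real.sqrt_nonneg _) (Real.sqrt_nonneg _)
    (Real.sqrt_pos.mpr (by exact_mod_cast hn)) h2 h3
  rw [← h1] at h4
  exact h4

variable {V : Type*} [AddCommMonoid V]

theorem zeta_aux {P : Type*} [SemilatticeInf P] (n : ℕ) : ∀ (S : Finset P), S.card = n →
    (∀ x ∈ S, ∀ y ∈ S, x ⊓ y ∈ S) → ∀ (w : P → V) (B : Set V), (∀ y ∈ S, w y ∈ insert 0 B) →
    ∃ t : ℕ, (t : ℝ) ≤ (Real.sqrt n) ^ 3 ∧
      Can t B {z | ∃ x ∈ S, z = ∑ᶠ y ∈ {y | y ∈ S ∧ y ≤ x}, w y} := by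
  classical
  induction n using Nat.strong_induction_on with
  | _ n ih =>
  intro S hSn hS w B hw
  have hconv : ∀ (S : Finset P) (w : P → V) (x : P),
      ∑ᶠ y ∈ {y | y ∈ S ∧ y ≤ x}, w y = ∑ y ∈ S.filter (fun y => y ≤ x), w y := by
    intro S w x
    rw [finsum_mem_eq_sum_of_inter_support_eq]
    ext y
    simp
  simp only [hconv] at ih ⊢
  rcases S.eq_empty_or_nonempty with rfl | hne
  · refine ⟨0, by rw [Nat.cast_zero]; positivity, ?_⟩
    apply Can.self
    rintro z ⟨x, hx, -⟩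
    simp at hx
  have hn : 0 < n := by rw [← hSn]; exact hne.card_pos
  obtain ⟨b, hb, -, hbot'⟩ := exists_least S (fun _ => True)
    (fun x hx _ y hy _ => ⟨hS x hx y hy, trivial⟩) (by
      obtain ⟨x, hx⟩ := hne
      exact ⟨x, hx, trivial⟩)
  have hbot : ∀ s ∈ S, b ≤ s := fun s hs => hbot' s hs trivial
  by_cases hcase : ∃ a ∈ S, a ≠ b ∧ n ≤ (S.filter (fun y => a ≤ y)).card ^ 2
  · obtain ⟨a, ha, hab, hbig⟩ := hcase
    set U := S.filter (fun y => a ≤ y) with hU
    set D := S.filter (fun y => ¬ a ≤ y) with hD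
    have hcard : U.card + D.card = n := by
      rw [← hSn, hU, hD]
      exact Finset.card_filter_add_card_filter_not (s := S) (fun y => a ≤ y)
    have hUpos : 0 < U.card := Finset.card_pos.mpr ⟨a, by rw [hU, mem_filter]; exact ⟨ha, le_rfl⟩⟩
    have hDpos : 0 < D.card := by
      refine Finset.card_pos.mpr ⟨b, ?_⟩
      rw [hD, mem_filter]
      exact ⟨hb, fun h => hab (le_antisymm h (hbot a ha))⟩
    have hUS : ∀ y ∈ U, y ∈ S ∧ a ≤ y := fun y hy => by rwa [hU, mem_filter] at hy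
    have hDS : ∀ y ∈ D, y ∈ S ∧ ¬ a ≤ y := fun y hy => by rwa [hD, mem_filter] at hy
    obtain ⟨t1, ht1, hc1⟩ := ih D.card (by omega) D rfl (by
      intro x hx y hy
      rw [hD, mem_filter]
      refine ⟨hS x (hDS x hx).1 y (hDS y hy).1, fun h => (hDS x hx).2 (h.trans inf_le_left)⟩)
      w B (fun y hy => hw y (hDS y hy).1)
    -- the elements outside that have a common upper bound with `a`
    set Y := D.filter (fun y => ∃ z ∈ S, a ≤ z ∧ y ≤ z) with hY
    have hg : ∀ y, ∃ g, y ∈ Y → g ∈ U ∧ y ≤ g ∧ ∀ z ∈ S, a ≤ z → y ≤ z → g ≤ z := by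
      intro y
      by_cases hy : y ∈ Y
      · obtain ⟨c, hc, ⟨hc1, hc2⟩, hc3⟩ := exists_least S (fun z => a ≤ z ∧ y ≤ z)
          (fun x hx hx1 z hz hz1 => ⟨hS x hx z hz, le_inf hx1.1 hz1.1, le_inf hx1.2 hz1.2⟩) (by
            rw [hY, mem_filter] at hy
            exact hy.2)
        exact ⟨c, fun _ => ⟨by rw [hU, mem_filter]; exact ⟨hc, hc1⟩, hc2,
          fun z hz h1 h2 => hc3 z hz ⟨h1, h2⟩⟩⟩
      · exact ⟨y, fun h => absurd h hy⟩
    choose g hg using hg
    have hYcard : Y.card ≤ D.card := card_le_card (filter_subset _ _)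
    have hc2 := Can.group g w w B (↑U : Set P) (fun u hu => hw u (hUS u hu).1) Y (by
      intro i hi
      rw [hY, mem_filter] at hi
      exact hw i (hDS i hi.1).1)
    set w' : P → V := fun u => w u + ∑ i ∈ Y.filter (fun i => g i = u), w i with hw'
    obtain ⟨t3, ht3, hc3⟩ := ih U.card (by omega) U rfl (by
      intro x hx y hy
      rw [hU, mem_filter]
      exact ⟨hS x (hUS x hx).1 y (hUS y hy).1, le_inf (hUS x hx).2 (hUS y hy).2⟩)
      w' (B ∪ {z | ∃ u ∈ (↑U : Set P), z = w u + ∑ i ∈ Y.filter (fun i => g i = u), w i}) (by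
        intro y hy
        right; right
        exact ⟨y, hy, rfl⟩)
    refine ⟨t1 + (Y.card + t3), ?_, ?_⟩
    · have h1 := ineq_nat (n := n) (s := U.card) (by omega) hn hbig
      have e : n - U.card = D.card := by omega
      rw [e] at h1
      push_cast
      have h2 : (Y.card : ℝ) ≤ D.card := by exact_mod_cast hYcard
      linarith
    · refine (hc1.union (hc2.trans' hc3)).mono subset_rfl ?_
      rintro z ⟨x, hx, rfl⟩
      by_cases hax : a ≤ x
      · right
        refine ⟨x, by rw [hU, mem_filter]; exact ⟨hx, hax⟩, ?_⟩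
        rw [hw']
        simp only
        rw [sum_add_distrib]
        have e1 : S.filter (fun y => y ≤ x) = U.filter (fun y => y ≤ x) ∪
            D.filter (fun y => y ≤ x) := by
          ext y
          simp only [hU, hD, mem_union, mem_filter]
          tauto
        have e2 : Disjoint (U.filter (fun y => y ≤ x)) (D.filter (fun y => y ≤ x)) := by
          rw [disjoint_left]
          intro y hy1 hy2
          rw [mem_filter] at hy1 hy2
          exact (hDS y hy2.1).2 (hUS y hy1.1).2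
        rw [e1, sum_union e2]
        congr 1
        have e3 : D.filter (fun y => y ≤ x) = Y.filter (fun y => g y ≤ x) := by
          ext y
          constructor
          · intro h
            obtain ⟨h1, h2⟩ := mem_filter.mp h
            have hy : y ∈ Y := by
              rw [hY, mem_filter]
              exact ⟨h1, x, hx, hax, h2⟩
            exact mem_filter.mpr ⟨hy, (hg y hy).2.2 x hx hax h2⟩
          · intro h
            obtain ⟨h1, h2⟩ := mem_filter.mp h
            have hy : y ∈ D := (mem_filter.mp h1).1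
            exact mem_filter.mpr ⟨hy, (hg y h1).2.1.trans h2⟩
        rw [e3]
        rw [← sum_fiberwise_of_maps_to (s := Y.filter (fun y => g y ≤ x))
          (t := U.filter (fun y => y ≤ x)) (g := g) (by
            intro y hy
            rw [mem_filter] at hy
            rw [mem_filter]
            exact ⟨(hg y hy.1).1, hy.2⟩)]
        apply sum_congr rfl
        intro u hu
        rw [mem_filter] at hu
        apply sum_congr _ (fun _ _ => rfl)
        ext y
        simp only [mem_filter]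
        constructor
        · rintro ⟨⟨h1, _⟩, h2⟩
          exact ⟨h1, h2⟩
        · rintro ⟨h1, h2⟩
          exact ⟨⟨h1, h2 ▸ hu.2⟩, h2⟩
      · left
        refine ⟨x, by rw [hD, mem_filter]; exact ⟨hx, hax⟩, ?_⟩
        apply sum_congr _ (fun _ _ => rfl)
        ext y
        simp only [hD, mem_filter]
        constructor
        · rintro ⟨h1, h2⟩
          exact ⟨⟨h1, fun h => hax (h.trans h2)⟩, h2⟩
        · rintro ⟨⟨h1, _⟩, h2⟩
          exact ⟨h1, h2⟩
  · push Not at hcase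
    have hstep : ∀ x ∈ S, Can ((S.filter (fun y => y ≤ x)).erase b).card B
        {∑ y ∈ S.filter (fun y => y ≤ x), w y} := by
      intro x hx
      have h1 := Can.group (fun _ : P => ()) (fun _ => w b) w B Set.univ
        (fun _ _ => hw b hb) ((S.filter (fun y => y ≤ x)).erase b) (by
          intro i hi
          rw [mem_erase, mem_filter] at hi
          exact hw i hi.2.1)
      refine h1.mono subset_rfl ?_
      intro z hz
      rw [Set.mem_singleton_iff] at hz
      refine ⟨(), Set.mem_univ _, ?_⟩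
      rw [hz, filter_true_of_mem (fun _ _ => rfl)]
      rw [add_sum_erase _ _ (by rw [mem_filter]; exact ⟨hb, hbot x hx⟩)]
    refine ⟨∑ x ∈ S, ((S.filter (fun y => y ≤ x)).erase b).card, ?_, ?_⟩
    · have h1 : ∑ x ∈ S, ((S.filter (fun y => y ≤ x)).erase b).card =
          ∑ y ∈ S.erase b, (S.filter (fun x => y ≤ x)).card := by
        have h2 : ∀ x ∈ S, ((S.filter (fun y => y ≤ x)).erase b).card =
            ∑ y ∈ S.erase b, if y ≤ x then 1 else 0 := by
          intro x _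
          rw [← filter_erase, card_filter]
        rw [sum_congr rfl h2, sum_comm]
        apply sum_congr rfl
        intro y _
        rw [card_filter]
      rw [h1]
      push_cast
      have h3 : ∀ y ∈ S.erase b, ((S.filter (fun x => y ≤ x)).card : ℝ) ≤ Real.sqrt n := by
        intro y hy
        rw [mem_erase] at hy
        have h4 := hcase y hy.2 hy.1
        apply Real.le_sqrt_of_sq_le
        exact_mod_cast h4.le
      refine (sum_le_card_nsmul _ _ _ h3).trans ?_
      rw [nsmul_eq_mul, card_erase_of_mem hb, hSn]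
      have h5 : ((n - 1 : ℕ) : ℝ) ≤ (Real.sqrt n) ^ 2 := by
        rw [Real.sq_sqrt (Nat.cast_nonneg _)]
        exact_mod_cast Nat.sub_le n 1
      have h6 := mul_le_mul_of_nonneg_right h5 (Real.sqrt_nonneg (n : ℝ))
      nlinarith
    · refine (Can.biUnion B (fun x => {∑ y ∈ S.filter (fun y => y ≤ x), w y}) _ S hstep).mono
        subset_rfl ?_
      rintro z ⟨x, hx, rfl⟩
      exact ⟨x, hx, rfl⟩

/-- The sums of `w` over all principal ideals of a finite set `S` closed under meets can be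
computed with `|S|^{3/2}` additions. -/
theorem zeta {P : Type*} [SemilatticeInf P] [DecidableLE P] (S : Finset P)
    (hS : ∀ x ∈ S, ∀ y ∈ S, x ⊓ y ∈ S) (w : P → V) (B : Set V)
    (hw : ∀ y ∈ S, w y ∈ insert 0 B) :
    ∃ t : ℕ, (t : ℝ) ≤ (S.card : ℝ) ^ (3 / 2 : ℝ) ∧
      Can t B {z | ∃ x ∈ S, z = ∑ y ∈ S.filter (fun y => y ≤ x), w y} := by
  obtain ⟨t, ht, hc⟩ := zeta_aux S.card S rfl hS w B hw
  refine ⟨t, ?_, ?_⟩
  · have e : (S.card : ℝ) ^ (3 / 2 : ℝ) = (Real.sqrt S.card) ^ 3 := by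
      rw [Real.sqrt_eq_rpow, ← Real.rpow_natCast, ← Real.rpow_mul (Nat.cast_nonneg _)]
      norm_num
    rw [e]
    exact ht
  · refine hc.mono subset_rfl ?_
    rintro z ⟨x, hx, rfl⟩
    refine ⟨x, hx, ?_⟩
    rw [finsum_mem_eq_sum_of_inter_support_eq]
    ext y
    simp

end Pool.Agent.Helper62K9.SLP
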