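import Pool.Agent.Helper62K9.OMVb

set_option autoImplicit false

/-!
Products with the members of a family of Boolean vectors that is closed under an operation.
-/

namespace Pool.Agent.Helper62K9.SLP

open Finset

section
variable {V ι : Type*} [AddCommMonoid V] [Fintype ι] [DecidableEq ι]

/-- the product of the Boolean vector `r` with the vector `x` -/
def form (x : ι → V) (r : ι → Bool) : V := ∑ j, if r j = true then x j else 0

omit [DecidableEq ι] in
lemma form_eq (x : ι → V) (r : ι → Bool) :
    form x r = ∑ j ∈ univ.filter (fun j => r j = true), x j := by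
  rw [form, sum_filter]

lemma can_form (x : ι → V) (B : Set V) (hx : ∀ j, x j ∈ insert 0 B) (r : ι → Bool) :
    Can (Fintype.card ι) B {form x r} := by
  rw [form_eq]
  refine (Can.sum x B _ (fun j _ => hx j)).le ?_
  exact card_le_univ _

/-- families closed under intersection -/
theorem and_family (R : Finset (ι → Bool))
    (hR : ∀ r ∈ R, ∀ s ∈ R, (fun j => r j && s j) ∈ R) (x : ι → V) (B : Set V)
    (hx : ∀ j, x j ∈ insert 0 B) :
    ∃ t : ℕ, (t : ℝ) ≤ Fintype.card ι + (R.card : ℝ) ^ (3 / 2 : ℝ) ∧
      Can t B {z | ∃ r ∈ R, z = form x r} := by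
  classical
  have hinf : ∀ r s : ι → Bool, r ⊓ s = fun j => r j && s j := fun r s => rfl
  have hle : ∀ r s : ι → Bool, r ≤ s ↔ ∀ j, r j = true → s j = true := by
    intro r s
    constructor
    · intro h j hj
      have := h j
      rw [hj] at this
      exact top_le_iff.mp this
    · intro h j
      cases hr : r j with
      | false => exact Bool.false_le _
      | true => rw [h j hr]
  set J : Finset ι := univ.filter (fun j => ∃ r ∈ R, r j = true) with hJ
  have hc : ∀ j, ∃ c, j ∈ J → c ∈ R ∧ c j = true ∧ ∀ s ∈ R, s j = true → c ≤ s := by
    intro j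
    by_cases hj : j ∈ J
    · obtain ⟨c, h1, h2, h3⟩ := exists_least R (fun r => r j = true)
        (fun r hr hr1 s hs hs1 => ⟨by rw [hinf]; exact hR r hr s hs, by
          rw [hinf]; simp [hr1, hs1]⟩) (by
          rw [hJ, mem_filter] at hj
          exact hj.2)
      exact ⟨c, fun _ => ⟨h1, h2, h3⟩⟩
    · exact ⟨fun _ => false, fun h => absurd h hj⟩
  choose c hc using hc
  have h1 := Can.group c (fun _ => (0 : V)) x B (↑R : Set (ι → Bool))
    (fun _ _ => Set.mem_insert _ _) J (fun j _ => hx j)
  set w : (ι → Bool) → V := fun u => 0 + ∑ i ∈ J.filter (fun i => c i = u), x i with hw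
  obtain ⟨t, ht, h2⟩ := zeta (P := ι → Bool) R (fun r hr s hs => by rw [hinf]; exact hR r hr s hs)
    w (B ∪ {z | ∃ u ∈ (↑R : Set (ι → Bool)), z = 0 + ∑ i ∈ J.filter (fun i => c i = u), x i}) (by
      intro y hy
      right; right
      exact ⟨y, hy, rfl⟩)
  refine ⟨J.card + t, ?_, (h1.trans' h2).mono subset_rfl ?_⟩
  · push_cast
    have : (J.card : ℝ) ≤ Fintype.card ι := by exact_mod_cast card_le_univ J
    linarith
  · rintro z ⟨r, hr, rfl⟩
    refine ⟨r, hr, ?_⟩
    rw [form_eq, hw]
    simp only [zero_add]
    have e : univ.filter (fun j => r j = true) = J.filter (fun j => c j ≤ r) := by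
      ext j
      constructor
      · intro h
        have h3 : r j = true := (mem_filter.mp h).2
        have hj : j ∈ J := by
          rw [hJ, mem_filter]
          exact ⟨mem_univ _, r, hr, h3⟩
        exact mem_filter.mpr ⟨hj, (hc j hj).2.2 r hr h3⟩
      · intro h
        obtain ⟨h3, h4⟩ := mem_filter.mp h
        exact mem_filter.mpr ⟨mem_univ _, (hle _ _).mp h4 j (hc j h3).2.1⟩
    rw [e, ← sum_fiberwise_of_maps_to (s := J.filter (fun j => c j ≤ r))
      (t := R.filter (fun y => y ≤ r)) (g := c) (by
        intro j hj
        obtain ⟨h3, h4⟩ := mem_filter.mp hj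
        exact mem_filter.mpr ⟨(hc j h3).1, h4⟩)]
    apply sum_congr rfl
    intro u hu
    rw [mem_filter] at hu
    apply sum_congr _ (fun _ _ => rfl)
    ext j
    simp only [mem_filter]
    constructor
    · rintro ⟨⟨h1, _⟩, h2⟩
      exact ⟨h1, h2⟩
    · rintro ⟨h1, h2⟩
      exact ⟨⟨h1, h2 ▸ hu.2⟩, h2⟩

end

section
variable {V ι : Type*} [AddCommMonoid V] [Fintype ι] [DecidableEq ι]

omit [DecidableEq ι] in
lemma form_xor (h2 : ∀ v : V, v + v = 0) (x : ι → V) (r s : ι → Bool) :
    form x (fun j => r j ^^ s j) = form x r + form x s := by
  rw [form, form, form, ← sum_add_distrib]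
  apply sum_congr rfl
  intro j _
  cases r j <;> cases s j <;> simp [h2]

/-- families closed under union -/
theorem or_family (h2 : ∀ v : V, v + v = 0) (R : Finset (ι → Bool))
    (hR : ∀ r ∈ R, ∀ s ∈ R, (fun j => r j || s j) ∈ R) (x : ι → V) (B : Set V)
    (hx : ∀ j, x j ∈ insert 0 B) :
    ∃ t : ℕ, (t : ℝ) ≤ 2 * Fintype.card ι + R.card + (R.card : ℝ) ^ (3 / 2 : ℝ) ∧
      Can t B {z | ∃ r ∈ R, z = form x r} := by
  classical
  set R' : Finset (ι → Bool) := R.image (fun r j => !(r j)) with hR'
  have hcard : R'.card = R.card := by
    rw [hR']
    apply card_image_of_injective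
    intro r s h
    funext j
    have := congrFun h j
    simpa using this
  obtain ⟨t, ht, hc⟩ := and_family R' (by
    intro r hr s hs
    rw [hR', mem_image] at hr hs ⊢
    obtain ⟨r', hr', rfl⟩ := hr
    obtain ⟨s', hs', rfl⟩ := hs
    refine ⟨_, hR r' hr' s' hs', ?_⟩
    funext j
    simp) x B hx
  have h1 := (can_form x B hx (fun _ => true)).union hc
  have h3 : Can (R.card) (B ∪ ({form x (fun _ => true)} ∪ {z | ∃ r ∈ R', z = form x r}))
      {z | ∃ r ∈ R, z = form x r} := by
    have h4 := Can.biUnion (B ∪ ({form x (fun _ => true)} ∪ {z | ∃ r ∈ R', z = form x r}))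
      (fun r => {form x (fun _ => true) + form x (fun j => !(r j))}) (fun _ => 1) R (by
        intro r hr
        apply Can.one
        · right; right; left
          exact rfl
        · right; right; right
          exact ⟨_, mem_image_of_mem _ hr, rfl⟩)
    rw [sum_const, smul_eq_mul, mul_one] at h4
    refine h4.mono subset_rfl ?_
    rintro z ⟨r, hr, rfl⟩
    refine ⟨r, hr, ?_⟩
    rw [Set.mem_singleton_iff, ← form_xor h2]
    congr 1
    funext j
    simp
  refine ⟨Fintype.card ι + t + R.card, ?_, h1.trans' h3⟩
  rw [hcard] at ht
  push_cast
  linarith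

/-- families closed under majority -/
theorem maj_family (h2 : ∀ v : V, v + v = 0) (R : Finset (ι → Bool))
    (hR : ∀ r ∈ R, ∀ s ∈ R, ∀ t ∈ R,
      (fun j => ((r j && s j) || (r j && t j)) || (s j && t j)) ∈ R) (x : ι → V) (B : Set V)
    (hx : ∀ j, x j ∈ insert 0 B) :
    ∃ t : ℕ, t ≤ 2 * Fintype.card ι + R.card ∧ Can t B {z | ∃ r ∈ R, z = form x r} := by
  classical
  rcases R.eq_empty_or_nonempty with rfl | ⟨r₀, hr₀⟩
  · refine ⟨0, by positivity, ?_⟩
    apply Can.self
    rintro z ⟨x, hx, -⟩
    simp at hx
  -- positions that vary together on `R`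
  let cls : ι → Finset ι := fun i => univ.filter (fun j => ∀ s ∈ R, (s j ^^ s i) = (r₀ j ^^ r₀ i))
  -- the difference of two vectors
  let D : (ι → Bool) → (ι → Bool) → Finset ι := fun r s => univ.filter (fun j => r j ≠ s j)
  have hD : ∀ r s, D r s = ∅ → r = s := by
    intro r s h
    funext j
    by_contra hne
    have : j ∈ D r s := mem_filter.mpr ⟨mem_univ _, hne⟩
    rw [h] at this
    simp at this
  -- the sums over the classes
  have hcls : Can (Fintype.card ι) B {z | ∃ i, z = ∑ j ∈ cls i, x j} := by
    have h := Can.group cls (fun _ => (0 : V)) x B Set.univ (fun _ _ => Set.mem_insert _ _)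
      univ (fun j _ => hx j)
    rw [card_univ] at h
    refine h.mono subset_rfl ?_
    rintro z ⟨i, rfl⟩
    refine ⟨cls i, Set.mem_univ _, ?_⟩
    rw [zero_add]
    apply sum_congr _ (fun _ _ => rfl)
    ext j
    constructor
    · intro h
      have h1 := (mem_filter.mp h).2
      refine mem_filter.mpr ⟨mem_univ _, ?_⟩
      ext l
      constructor
      · intro hl
        have h3 := (mem_filter.mp hl).2
        refine mem_filter.mpr ⟨mem_univ _, fun s hs => ?_⟩
        have h4 := h1 s hs
        have h5 := h3 s hs
        revert h4 h5
        cases s i <;> cases s j <;> cases s l <;> cases r₀ i <;> cases r₀ j <;> cases r₀ l <;> simp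
      · intro hl
        have h3 := (mem_filter.mp hl).2
        refine mem_filter.mpr ⟨mem_univ _, fun s hs => ?_⟩
        have h4 := h1 s hs
        have h5 := h3 s hs
        revert h4 h5
        cases s i <;> cases s j <;> cases s l <;> cases r₀ i <;> cases r₀ j <;> cases r₀ l <;> simp
    · intro h
      have h1 : cls j = cls i := (mem_filter.mp h).2
      rw [← h1]
      exact mem_filter.mpr ⟨mem_univ _, fun s _ => by simp⟩
  -- the neighbour in the direction of the root
  have hnb : ∀ r ∈ R, r ≠ r₀ → ∃ r' ∈ R, (D r' r₀).card < (D r r₀).card ∧
      ∃ i, D r r' = cls i := by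
    intro r hr hne
    have hex : ((R.filter (fun s => s ≠ r ∧ D r s ⊆ D r r₀))).Nonempty :=
      ⟨r₀, by rw [mem_filter]; exact ⟨hr₀, hne.symm, subset_rfl⟩⟩
    obtain ⟨r', hr', hmin⟩ := exists_min_image _ (fun s => (D r s).card) hex
    rw [mem_filter] at hr'
    obtain ⟨hr'R, hr'ne, hr'D⟩ := hr'
    have hne2 : (D r r').Nonempty := by
      rw [nonempty_iff_ne_empty]
      intro h
      exact hr'ne (hD _ _ h).symm
    -- every member agrees with `r` or with `r'` on the difference
    have hag : ∀ s ∈ R, (∀ j ∈ D r r', s j = r j) ∨ (∀ j ∈ D r r', s j = r' j) := by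
      intro s hs
      have ht := hR r hr r' hr'R s hs
      set t : ι → Bool := fun j => ((r j && r' j) || (r j && s j)) || (r' j && s j) with htdef
      have hsub : D r t ⊆ D r r' := by
        intro j hj
        have h1 := (mem_filter.mp hj).2
        refine mem_filter.mpr ⟨mem_univ _, fun h => h1 ?_⟩
        rw [htdef]
        simp only
        rw [← h]
        cases r j <;> cases s j <;> rfl
      have hsj : ∀ j ∈ D r r', t j = s j := by
        intro j hj
        have h1 := (mem_filter.mp hj).2
        rw [htdef]
        simp only
        revert h1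
        cases r j <;> cases r' j <;> cases s j <;> simp
      by_cases htr : t = r
      · left
        intro j hj
        rw [← hsj j hj, htr]
      · right
        have h1 := hmin t (by
          rw [mem_filter]
          exact ⟨ht, htr, hsub.trans hr'D⟩)
        have h3 : D r t = D r r' := eq_of_subset_of_card_le hsub h1
        intro j hj
        have h4 : j ∈ D r t := by rw [h3]; exact hj
        have h5 := (mem_filter.mp h4).2
        have h6 := (mem_filter.mp hj).2
        rw [← hsj j hj]
        revert h5 h6
        cases r j <;> cases r' j <;> cases t j <;> simp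
    obtain ⟨i, hi⟩ := hne2
    refine ⟨r', hr'R, ?_, i, ?_⟩
    · apply card_lt_card
      rw [ssubset_iff_of_subset]
      · refine ⟨i, hr'D hi, ?_⟩
        intro h
        have h1 := (mem_filter.mp h).2
        have h3 := (mem_filter.mp hi).2
        have h4 := (mem_filter.mp (hr'D hi)).2
        revert h1 h3 h4
        cases r i <;> cases r' i <;> cases r₀ i <;> simp
      · intro j hj
        by_contra hcon
        have h1 : j ∉ D r r' := fun h => hcon (hr'D h)
        have h3 : r j = r' j := by
          by_contra h; exact h1 (mem_filter.mpr ⟨mem_univ _, h⟩)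
        have h4 := (mem_filter.mp hj).2
        apply hcon
        exact mem_filter.mpr ⟨mem_univ _, by rw [h3]; exact h4⟩
    · ext j
      constructor
      · intro hj
        refine mem_filter.mpr ⟨mem_univ _, ?_⟩
        have key : ∀ s ∈ R, (s j ^^ s i) = (r j ^^ r i) := by
          intro s hs
          have h1 := (mem_filter.mp hj).2
          have h3 := (mem_filter.mp hi).2
          rcases hag s hs with h | h
          · rw [h j hj, h i hi]
          · rw [h j hj, h i hi]
            revert h1 h3
            cases r i <;> cases r' i <;> cases r j <;> cases r' j <;> simp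
        intro s hs
        rw [key s hs, key r₀ hr₀]
      · intro hj
        have h1 := (mem_filter.mp hj).2
        have h3 := h1 r hr
        have h4 := h1 r' hr'R
        have h5 := (mem_filter.mp hi).2
        refine mem_filter.mpr ⟨mem_univ _, ?_⟩
        revert h3 h4 h5
        cases r i <;> cases r' i <;> cases r j <;> cases r' j <;> cases r₀ i <;> cases r₀ j <;> simp
  -- the members at distance at most `m` from the root
  have hmain : ∀ m : ℕ, Can ((R.filter (fun r => (D r r₀).card ≤ m)).card)
      (B ∪ ({form x r₀} ∪ {z | ∃ i, z = ∑ j ∈ cls i, x j}))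
      {z | ∃ r ∈ R.filter (fun r => (D r r₀).card ≤ m), z = form x r} := by
    intro m
    induction m with
    | zero =>
      apply (Can.self _).le (Nat.zero_le _)
      rintro z ⟨r, hr, rfl⟩
      rw [mem_filter] at hr
      have h1 : r = r₀ := hD _ _ (card_eq_zero.mp (by omega))
      rw [h1]
      right; right; left
      rfl
    | succ m ih =>
      set B' := B ∪ ({form x r₀} ∪ {z | ∃ i, z = ∑ j ∈ cls i, x j}) with hB'
      have e : R.filter (fun r => (D r r₀).card ≤ m + 1) =
          R.filter (fun r => (D r r₀).card ≤ m) ∪ R.filter (fun r => (D r r₀).card = m + 1) := by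
        ext r
        simp only [mem_filter, mem_union]
        constructor
        · rintro ⟨h1, h3⟩
          by_cases h4 : (D r r₀).card ≤ m
          · exact Or.inl ⟨h1, h4⟩
          · exact Or.inr ⟨h1, by omega⟩
        · rintro (⟨h1, h3⟩ | ⟨h1, h3⟩)
          · exact ⟨h1, by omega⟩
          · exact ⟨h1, by omega⟩
      have e2 : Disjoint (R.filter (fun r => (D r r₀).card ≤ m))
          (R.filter (fun r => (D r r₀).card = m + 1)) := by
        rw [disjoint_left]
        intro r h1 h3
        rw [mem_filter] at h1 h3
        omega
      rw [e, card_union_of_disjoint e2]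
      have h5 : Can (R.filter (fun r => (D r r₀).card = m + 1)).card
          (B' ∪ {z | ∃ r ∈ R.filter (fun r => (D r r₀).card ≤ m), z = form x r})
          {z | ∃ r ∈ R.filter (fun r => (D r r₀).card = m + 1), z = form x r} := by
        have h6 := Can.biUnion
          (B' ∪ {z | ∃ r ∈ R.filter (fun r => (D r r₀).card ≤ m), z = form x r})
          (fun r => {form x r}) (fun _ => 1) (R.filter (fun r => (D r r₀).card = m + 1)) (by
            intro r hr
            rw [mem_filter] at hr
            have hne : r ≠ r₀ := by
              rintro rfl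
              have : (D r r) = ∅ := by
                rw [eq_empty_iff_forall_notMem]
                intro j hj
                exact (mem_filter.mp hj).2 rfl
              rw [this] at hr
              simp at hr
            obtain ⟨r', hr', h7, i, h8⟩ := hnb r hr.1 hne
            have h9 : form x r = form x r' + ∑ j ∈ cls i, x j := by
              rw [← h8]
              have : ∑ j ∈ D r r', x j = form x (fun j => r j ^^ r' j) := by
                rw [form_eq]
                apply sum_congr _ (fun _ _ => rfl)
                ext j
                constructor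
                · intro h
                  refine mem_filter.mpr ⟨mem_univ _, ?_⟩
                  have := (mem_filter.mp h).2
                  revert this
                  cases r j <;> cases r' j <;> simp
                · intro h
                  refine mem_filter.mpr ⟨mem_univ _, ?_⟩
                  have := (mem_filter.mp h).2
                  revert this
                  cases r j <;> cases r' j <;> simp
              rw [this, ← form_xor h2]
              congr 1
              funext j
              cases r j <;> cases r' j <;> rfl
            have h10 : form x r' ∈ insert 0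
                (B' ∪ {z | ∃ r ∈ R.filter (fun r => (D r r₀).card ≤ m), z = form x r}) := by
              right; right
              refine ⟨r', mem_filter.mpr ⟨hr', by omega⟩, rfl⟩
            have h11 : ∑ j ∈ cls i, x j ∈ insert 0
                (B' ∪ {z | ∃ r ∈ R.filter (fun r => (D r r₀).card ≤ m), z = form x r}) := by
              right; left; right; right
              exact ⟨i, rfl⟩
            have h12 := Can.one h10 h11
            rw [← h9] at h12
            exact h12)
        rw [sum_const, smul_eq_mul, mul_one] at h6
        refine h6.mono subset_rfl ?_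
        rintro z ⟨r, hr, rfl⟩
        exact ⟨r, hr, rfl⟩
      refine (ih.trans h5).mono subset_rfl ?_
      rintro z ⟨r, hr, rfl⟩
      rw [mem_union] at hr
      rcases hr with hr | hr
      · exact Or.inl ⟨r, hr, rfl⟩
      · exact Or.inr ⟨r, hr, rfl⟩
  have h3 := ((can_form x B hx r₀).union hcls).trans' (hmain (Fintype.card ι))
  refine ⟨_, ?_, h3.mono subset_rfl ?_⟩
  · have : (R.filter (fun r => (D r r₀).card ≤ Fintype.card ι)).card ≤ R.card :=
      card_le_card (filter_subset _ _)
    omega
  · rintro z ⟨r, hr, rfl⟩
    exact ⟨r, mem_filter.mpr ⟨hr, card_le_univ _⟩, rfl⟩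

/-- families closed under the sum of three vectors -/
theorem aff_family (h2 : ∀ v : V, v + v = 0) (R : Finset (ι → Bool))
    (hR : ∀ r ∈ R, ∀ s ∈ R, ∀ t ∈ R, (fun j => (r j ^^ s j) ^^ t j) ∈ R)
    (x : ι → V) (B : Set V) (hx : ∀ j, x j ∈ insert 0 B) :
    ∃ t : ℕ, t ≤ Fintype.card ι * (Nat.log 2 R.card + 1) + R.card ∧
      Can t B {z | ∃ r ∈ R, z = form x r} := by
  classical
  rcases R.eq_empty_or_nonempty with rfl | ⟨r₀, hr₀⟩
  · refine ⟨0, by positivity, ?_⟩
    apply Can.self
    rintro z ⟨x, hx, -⟩
    simp at hx
  -- a maximal subfamily for which the claim holds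
  let good : Finset (ι → Bool) → Prop := fun A => A ⊆ R ∧ r₀ ∈ A ∧
    (∀ r ∈ A, ∀ s ∈ A, ∀ t ∈ A, (fun j => (r j ^^ s j) ^^ t j) ∈ A) ∧
    Can (Fintype.card ι * (Nat.log 2 A.card + 1) + A.card) B {z | ∃ r ∈ A, z = form x r}
  have h0 : good {r₀} := by
    refine ⟨by simpa using hr₀, by simp, ?_, ?_⟩
    · intro r hr s hs t ht
      rw [mem_singleton] at hr hs ht ⊢
      rw [hr, hs, ht]
      funext j
      cases r₀ j <;> rfl
    · refine ((can_form x B hx r₀).le ?_).mono subset_rfl ?_
      · simp
      · rintro z ⟨r, hr, rfl⟩
        rw [mem_singleton] at hr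
        rw [hr]
        rfl
  obtain ⟨A, hA, hmax⟩ := exists_max_image (R.powerset.filter good) (fun A => A.card)
    ⟨{r₀}, by rw [mem_filter, mem_powerset]; exact ⟨by simpa using hr₀, h0⟩⟩
  obtain ⟨hAR, hrA, hAcl, hAC⟩ := (mem_filter.mp hA).2
  by_cases hAR' : A = R
  · rw [hAR'] at hAC
    exact ⟨_, le_rfl, hAC⟩
  · exfalso
    obtain ⟨r, hr, hrA'⟩ : ∃ r ∈ R, r ∉ A := by
      by_contra hcon
      push Not at hcon
      exact hAR' (Subset.antisymm hAR hcon)
    set sh : (ι → Bool) → (ι → Bool) := fun a j => (a j ^^ r₀ j) ^^ r j with hsh
    have hshinj : Function.Injective sh := by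
      intro a b h
      funext j
      have := congrFun h j
      rw [hsh] at this
      simp only at this
      revert this
      cases a j <;> cases b j <;> cases r₀ j <;> cases r j <;> simp
    set A' := A ∪ A.image sh with hA'
    have hdis : Disjoint A (A.image sh) := by
      rw [disjoint_left]
      intro a ha hb
      rw [mem_image] at hb
      obtain ⟨b, hb, hab⟩ := hb
      apply hrA'
      have h3 := hAcl a ha b hb r₀ hrA
      have e : (fun j => (a j ^^ b j) ^^ r₀ j) = r := by
        funext j
        have := congrFun hab j
        rw [hsh] at this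
        simp only at this
        rw [← this]
        cases b j <;> cases r₀ j <;> cases r j <;> rfl
      rw [e] at h3
      exact h3
    have hcard : A'.card = 2 * A.card := by
      rw [hA', card_union_of_disjoint hdis, card_image_of_injective _ hshinj]
      ring
    have hApos : 0 < A.card := card_pos.mpr ⟨r₀, hrA⟩
    have hgood : good A' := by
      refine ⟨?_, mem_union_left _ hrA, ?_, ?_⟩
      · intro a ha
        rw [hA', mem_union, mem_image] at ha
        rcases ha with ha | ⟨b, hb, rfl⟩
        · exact hAR ha
        · exact hR b (hAR hb) r₀ hr₀ r hr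
      · -- closed
        have hmem : ∀ a, a ∈ A' ↔ a ∈ A ∨ sh a ∈ A := by
          intro a
          rw [hA', mem_union, mem_image]
          constructor
          · rintro (h | ⟨b, hb, rfl⟩)
            · exact Or.inl h
            · right
              have : sh (sh b) = b := by
                funext j
                rw [hsh]
                simp only
                cases b j <;> cases r₀ j <;> cases r j <;> rfl
              rw [this]
              exact hb
          · rintro (h | h)
            · exact Or.inl h
            · right
              refine ⟨sh a, h, ?_⟩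
              funext j
              rw [hsh]
              simp only
              cases a j <;> cases r₀ j <;> cases r j <;> rfl
        intro a ha b hb c hc
        rw [hmem] at ha hb hc ⊢
        have e1 : ∀ a b c : ι → Bool, (fun j => (sh a j ^^ b j) ^^ c j) =
            sh (fun j => (a j ^^ b j) ^^ c j) := by
          intro a b c
          funext j
          rw [hsh]
          simp only
          cases a j <;> cases b j <;> cases c j <;> cases r₀ j <;> cases r j <;> rfl
        have e2 : ∀ a b c : ι → Bool, (fun j => (a j ^^ sh b j) ^^ c j) =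
            sh (fun j => (a j ^^ b j) ^^ c j) := by
          intro a b c
          funext j
          rw [hsh]
          simp only
          cases a j <;> cases b j <;> cases c j <;> cases r₀ j <;> cases r j <;> rfl
        have e3 : ∀ a b c : ι → Bool, (fun j => (a j ^^ b j) ^^ sh c j) =
            sh (fun j => (a j ^^ b j) ^^ c j) := by
          intro a b c
          funext j
          rw [hsh]
          simp only
          cases a j <;> cases b j <;> cases c j <;> cases r₀ j <;> cases r j <;> rfl
        have e4 : ∀ a, sh (sh a) = a := by
          intro a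
          funext j
          rw [hsh]
          simp only
          cases a j <;> cases r₀ j <;> cases r j <;> rfl
        rcases ha with ha | ha <;> rcases hb with hb | hb <;> rcases hc with hc | hc
        · left; exact hAcl a ha b hb c hc
        · right; rw [← e3]; exact hAcl _ ha _ hb _ hc
        · right; rw [← e2]; exact hAcl _ ha _ hb _ hc
        · left
          have := hAcl _ ha _ hb _ hc
          rw [e2, e3, e4] at this
          exact this
        · right; rw [← e1]; exact hAcl _ ha _ hb _ hc
        · left
          have := hAcl _ ha _ hb _ hc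
          rw [e1, e3, e4] at this
          exact this
        · left
          have := hAcl _ ha _ hb _ hc
          rw [e1, e2, e4] at this
          exact this
        · right
          have := hAcl _ ha _ hb _ hc
          rw [e1, e2, e3, e4] at this
          exact this
      · -- cost
        have h3 := hAC.union (can_form x B hx (fun j => r₀ j ^^ r j))
        have h4 : Can A.card (B ∪ ({z | ∃ r ∈ A, z = form x r} ∪ {form x (fun j => r₀ j ^^ r j)}))
            {z | ∃ a ∈ A, z = form x (sh a)} := by
          have h5 := Can.biUnion
            (B ∪ ({z | ∃ r ∈ A, z = form x r} ∪ {form x (fun j => r₀ j ^^ r j)}))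
            (fun a => {form x a + form x (fun j => r₀ j ^^ r j)}) (fun _ => 1) A (by
              intro a ha
              apply Can.one
              · right; right; left
                exact ⟨a, ha, rfl⟩
              · right; right; right
                rfl)
          rw [sum_const, smul_eq_mul, mul_one] at h5
          refine h5.mono subset_rfl ?_
          rintro z ⟨a, ha, rfl⟩
          refine ⟨a, ha, ?_⟩
          rw [Set.mem_singleton_iff, ← form_xor h2]
          congr 1
          funext j
          rw [hsh]
          simp only
          cases a j <;> cases r₀ j <;> cases r j <;> rfl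
        refine ((h3.trans h4).le (le_of_eq ?_)).mono subset_rfl ?_
        · rw [hcard, mul_comm 2 A.card, Nat.log_mul_base (by norm_num) (by omega)]
          ring
        · rintro z ⟨a, ha, rfl⟩
          rw [hA', mem_union, mem_image] at ha
          rcases ha with ha | ⟨b, hb, rfl⟩
          · left; left
            exact ⟨a, ha, rfl⟩
          · right
            exact ⟨b, hb, rfl⟩
    have h3 : A'.card ≤ A.card := hmax A' (by
      rw [mem_filter, mem_powerset]
      exact ⟨hgood.1, hgood⟩)
    omega

end

end Pool.Agent.Helper62K9.SLP
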