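import Pool.Agent.Helper62K9.OMVc
import Pool.Agent.H523R4.BitClone

set_option autoImplicit false

/-!
Boolean operations with at least two essential variables, and operations with at most one.
-/

namespace Pool.Agent.Helper62K9.SLP

open Finset
open Pool.Agent.H523R4.BC (IsAffine)

/-- `f` depends on its argument `i` -/
def DependsOn {k : ℕ} (f : (Fin k → Bool) → Bool) (i : Fin k) : Prop :=
  ∃ x : Fin k → Bool, f (Function.update x i true) ≠ f (Function.update x i false)

/-- the family `R` of Boolean vectors is closed under the coordinatewise operation `f` -/
def ClosedUnder {N k : ℕ} (f : (Fin k → Bool) → Bool) (R : Finset (Fin N → Bool)) : Prop :=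
  ∀ a : Fin k → (Fin N → Bool), (∀ i, a i ∈ R) → (fun j => f (fun i => a i j)) ∈ R

/-- closed under and, or, majority, or the sum of three vectors -/
def Four {N : ℕ} (R : Finset (Fin N → Bool)) : Prop :=
  (∀ x ∈ R, ∀ y ∈ R, (fun j => x j && y j) ∈ R) ∨
  (∀ x ∈ R, ∀ y ∈ R, (fun j => x j || y j) ∈ R) ∨
  (∀ x ∈ R, ∀ y ∈ R, ∀ z ∈ R, (fun j => ((x j && y j) || (x j && z j)) || (y j && z j)) ∈ R) ∨
  (∀ x ∈ R, ∀ y ∈ R, ∀ z ∈ R, (fun j => (x j ^^ y j) ^^ z j) ∈ R)

theorem four_zero {N k : ℕ} (f : (Fin k → Bool) → Bool) (hf : ¬ IsAffine f)
    (h0 : f (fun _ => false) = false) (R : Finset (Fin N → Bool)) (hR : ClosedUnder f R)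
    (hne : R.Nonempty) : Four R := by
  have h := Pool.Agent.H523R4.BC.clone (ι := Fin N) f hf h0 (R : Set (Fin N → Bool))
    (fun a ha => mem_coe.mpr (hR a (fun i => mem_coe.mp (ha i)))) (by simpa using hne)
  rcases h with h | h | h
  · exact Or.inl h
  · exact Or.inr (Or.inl h)
  · exact Or.inr (Or.inr (Or.inl h))

theorem four_nonaffine {N k : ℕ} (f : (Fin k → Bool) → Bool) (hf : ¬ IsAffine f)
    (R : Finset (Fin N → Bool)) (hR : ClosedUnder f R) (hne : R.Nonempty) : Four R := by
  classical
  by_cases h0 : f (fun _ => false) = false
  · exact four_zero f hf h0 R hR hne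
  have h0' : f (fun _ => false) = true := by simpa using h0
  by_cases h1 : f (fun _ => true) = true
  · -- the dual operation and the complemented family
    set g : (Fin k → Bool) → Bool := fun x => !(f fun i => !(x i)) with hg
    set R' : Finset (Fin N → Bool) := R.image (fun x j => !(x j)) with hR'
    have hmem : ∀ x : Fin N → Bool, x ∈ R → (fun j => !(x j)) ∈ R' := by
      intro x hx
      exact mem_image_of_mem (fun (x : Fin N → Bool) (j : Fin N) => !(x j)) hx
    have hmem' : ∀ x : Fin N → Bool, x ∈ R' → (fun j => !(x j)) ∈ R := by
      intro x hx
      rw [hR', mem_image] at hx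
      obtain ⟨y, hy, rfl⟩ := hx
      simpa using hy
    have h4 : Four R' := by
      refine four_zero g ?_ ?_ R' ?_ ?_
      · intro hga
        apply hf
        intro x y z
        have h2 := hga (fun i => !(x i)) (fun i => !(y i)) (fun i => !(z i))
        simp only [hg, Bool.not_not] at h2
        have e1 : (fun i => !(((!(x i)) ^^ (!(y i))) ^^ (!(z i)))) =
            (fun i => (x i ^^ y i) ^^ z i) := by
          funext i; cases x i <;> cases y i <;> cases z i <;> rfl
        rw [e1] at h2
        revert h2
        generalize f x = p
        generalize f y = q
        generalize f z = r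
        generalize f (fun i => (x i ^^ y i) ^^ z i) = s
        cases p <;> cases q <;> cases r <;> cases s <;> simp
      · simp only [hg, Bool.not_false, h1, Bool.not_true]
      · intro a ha
        have h2 := hmem _ (hR (fun i j => !(a i j)) (fun i => hmem' _ (ha i)))
        exact h2
      · obtain ⟨x, hx⟩ := hne
        exact ⟨_, hmem x hx⟩
    rcases h4 with h | h | h | h
    · right; left
      intro x hx y hy
      have h2 := hmem' _ (h _ (hmem x hx) _ (hmem y hy))
      have e : (fun j => !((!(x j)) && (!(y j)))) = (fun j => x j || y j) := by
        funext j; cases x j <;> cases y j <;> rfl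
      rw [e] at h2
      exact h2
    · left
      intro x hx y hy
      have h2 := hmem' _ (h _ (hmem x hx) _ (hmem y hy))
      have e : (fun j => !((!(x j)) || (!(y j)))) = (fun j => x j && y j) := by
        funext j; cases x j <;> cases y j <;> rfl
      rw [e] at h2
      exact h2
    · right; right; left
      intro x hx y hy z hz
      have h2 := hmem' _ (h _ (hmem x hx) _ (hmem y hy) _ (hmem z hz))
      have e : (fun j => !((((!(x j)) && (!(y j))) || ((!(x j)) && (!(z j)))) ||
          ((!(y j)) && (!(z j))))) =
          (fun j => ((x j && y j) || (x j && z j)) || (y j && z j)) := by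
        funext j; cases x j <;> cases y j <;> cases z j <;> rfl
      rw [e] at h2
      exact h2
    · right; right; right
      intro x hx y hy z hz
      have h2 := hmem' _ (h _ (hmem x hx) _ (hmem y hy) _ (hmem z hz))
      have e : (fun j => !(((!(x j)) ^^ (!(y j))) ^^ (!(z j)))) =
          (fun j => (x j ^^ y j) ^^ z j) := by
        funext j; cases x j <;> cases y j <;> cases z j <;> rfl
      rw [e] at h2
      exact h2
  · -- closed under negation
    have h1' : f (fun _ => true) = false := by simpa using h1
    have hneg : ∀ x ∈ R, (fun j => !(x j)) ∈ R := by
      intro x hx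
      have h2 := hR (fun _ => x) (fun _ => hx)
      have h3 : (fun j => f (fun _ => x j)) = (fun j => !(x j)) := by
        funext j
        cases x j
        · simpa using h0'
        · simpa using h1'
      rw [h3] at h2
      exact h2
    set g : (Fin k → Bool) → Bool := fun x => !(f x) with hg
    refine four_zero g ?_ ?_ R ?_ hne
    · intro hga
      apply hf
      intro x y z
      have h2 := hga x y z
      simp only [hg] at h2
      revert h2
      generalize f x = p
      generalize f y = q
      generalize f z = r
      generalize f (fun i => (x i ^^ y i) ^^ z i) = s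
      cases p <;> cases q <;> cases r <;> cases s <;> simp
    · simp only [hg, h0', Bool.not_true]
    · intro a ha
      exact hneg _ (hR a ha)

lemma affine_flip {k : ℕ} (f : (Fin k → Bool) → Bool) (hf : IsAffine f) (i : Fin k)
    (hi : DependsOn f i) (c : Fin k → Bool) : f (Function.update c i (!(c i))) = !(f c) := by
  obtain ⟨x, hx⟩ := hi
  have h := hf (Function.update x i true) (Function.update x i false) c
  have e : (fun l => (Function.update x i true l ^^ Function.update x i false l) ^^ c l) =
      Function.update c i (!(c i)) := by
    funext l
    by_cases hl : l = i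
    · subst hl
      simp
    · simp [Function.update_of_ne hl]
  rw [e] at h
  rw [h]
  revert hx
  generalize f (Function.update x i true) = p
  generalize f (Function.update x i false) = q
  cases p <;> cases q <;> simp

theorem four_affine {N k : ℕ} (f : (Fin k → Bool) → Bool) (hf : IsAffine f) (i j : Fin k)
    (hij : i ≠ j) (hi : DependsOn f i) (hj : DependsOn f j)
    (R : Finset (Fin N → Bool)) (hR : ClosedUnder f R) : Four R := by
  right; right; right
  -- a ternary operation
  set g : Bool → Bool → Bool → Bool :=
    fun p q r => f (fun l => if l = i then p else if l = j then q else r) with hg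
  have hcl : ∀ u ∈ R, ∀ v ∈ R, ∀ w ∈ R, (fun t => g (u t) (v t) (w t)) ∈ R := by
    intro u hu v hv w hw
    have h2 := hR (fun l => if l = i then u else if l = j then v else w) (by
      intro l
      split_ifs
      · exact hu
      · exact hv
      · exact hw)
    have h3 : (fun t => f (fun l => (if l = i then u else if l = j then v else w) t)) =
        (fun t => g (u t) (v t) (w t)) := by
      funext t
      rw [hg]
      dsimp only
      congr 1
      funext l
      split_ifs <;> rfl
    rw [h3] at h2
    exact h2
  have hgi : ∀ p q r, g (!p) q r = !(g p q r) := by
    intro p q r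
    rw [hg]
    dsimp only
    rw [← affine_flip f hf i hi]
    congr 1
    funext l
    by_cases hl : l = i
    · subst hl
      simp
    · rw [Function.update_of_ne hl, if_neg hl, if_neg hl]
  have hgj : ∀ p q r, g p (!q) r = !(g p q r) := by
    intro p q r
    rw [hg]
    dsimp only
    rw [← affine_flip f hf j hj]
    congr 1
    funext l
    by_cases hl : l = j
    · subst hl
      simp [hij.symm]
    · rw [Function.update_of_ne hl]
      by_cases hl2 : l = i
      · rw [if_pos hl2, if_pos hl2]
      · rw [if_neg hl2, if_neg hl2, if_neg hl, if_neg hl]
  have hgv : ∀ p q r, g p q r = ((p ^^ q) ^^ g false false r) := by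
    intro p q r
    have h1 : g true q r = !(g false q r) := hgi false q r
    have h2 : g false true r = !(g false false r) := hgj false false r
    have h3 : g true true r = !(g true false r) := hgj true false r
    have h4 : g true false r = !(g false false r) := hgi false false r
    cases p <;> cases q <;> simp [h2, h3, h4]
  clear_value g
  cases hA : g false false false <;> cases hB : g false false true
  · intro x hx y hy z hz
    have h2 := hcl _ (hcl x hx y hy z hz) z hz z hz
    have h3 : (fun t => g (g (x t) (y t) (z t)) (z t) (z t)) = (fun t => (x t ^^ y t) ^^ z t) := by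
      funext t
      rw [hgv (g (x t) (y t) (z t)), hgv (x t)]
      cases x t <;> cases y t <;> cases z t <;> simp [hA, hB]
    rw [h3] at h2
    exact h2
  · intro x hx y hy z hz
    have h2 := hcl x hx y hy z hz
    have h3 : (fun t => g (x t) (y t) (z t)) = (fun t => (x t ^^ y t) ^^ z t) := by
      funext t
      rw [hgv]
      cases x t <;> cases y t <;> cases z t <;> simp [hA, hB]
    rw [h3] at h2
    exact h2
  · intro x hx y hy z hz
    have h1 := hcl x hx y hy z hz
    have h2 := hcl _ h1 _ h1 _ h1
    have h3 : (fun t => g (g (x t) (y t) (z t)) (g (x t) (y t) (z t)) (g (x t) (y t) (z t))) =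
        (fun t => (x t ^^ y t) ^^ z t) := by
      funext t
      rw [hgv (g (x t) (y t) (z t)), hgv (x t)]
      cases x t <;> cases y t <;> cases z t <;> simp [hA, hB]
    rw [h3] at h2
    exact h2
  · intro x hx y hy z hz
    have h2 := hcl _ (hcl x hx y hy z hz) z hz z hz
    have h3 : (fun t => g (g (x t) (y t) (z t)) (z t) (z t)) = (fun t => (x t ^^ y t) ^^ z t) := by
      funext t
      rw [hgv (g (x t) (y t) (z t)), hgv (x t)]
      cases x t <;> cases y t <;> cases z t <;> simp [hA, hB]
    rw [h3] at h2
    exact h2

/-- a family closed under an operation that depends on two arguments is closed under one of four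
operations -/
theorem four {N k : ℕ} (f : (Fin k → Bool) → Bool) (i j : Fin k) (hij : i ≠ j)
    (hi : DependsOn f i) (hj : DependsOn f j) (R : Finset (Fin N → Bool))
    (hR : ClosedUnder f R) (hne : R.Nonempty) : Four R := by
  by_cases hf : IsAffine f
  · exact four_affine f hf i j hij hi hj R hR
  · exact four_nonaffine f hf R hR hne

/-- a function with at most one essential argument -/
theorem unary_form {k : ℕ} (f : (Fin k → Bool) → Bool)
    (h : ∀ i j, DependsOn f i → DependsOn f j → i = j) :
    (∃ c, ∀ x, f x = c) ∨ ∃ i, ∃ g : Bool → Bool, ∀ x, f x = g (x i) := by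
  classical
  have key : ∀ (i₀ : Option (Fin k)), (∀ i, DependsOn f i → some i = i₀) →
      ∀ x y : Fin k → Bool, (∀ i, some i = i₀ → x i = y i) → f x = f y := by
    intro i₀ hi₀ x y hxy
    -- change the coordinates one by one
    have hstep : ∀ S : Finset (Fin k), f (fun i => if i ∈ S then y i else x i) = f x := by
      intro S
      induction S using Finset.induction_on with
      | empty => simp
      | insert a S ha ih =>
        rw [← ih]
        by_cases hd : DependsOn f a
        · have h1 := hxy a (hi₀ a hd)
          congr 1
          funext i
          by_cases hia : i = a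
          · subst hia
            simp [ha, h1]
          · simp [hia]
        · unfold DependsOn at hd
          push Not at hd
          have h1 := hd (fun i => if i ∈ S then y i else x i)
          have h2 : ∀ b, f (Function.update (fun i => if i ∈ S then y i else x i) a b) =
              f (fun i => if i ∈ S then y i else x i) := by
            intro b
            have h3 : Function.update (fun i => if i ∈ S then y i else x i) a
                ((fun i => if i ∈ S then y i else x i) a) =
                (fun i => if i ∈ S then y i else x i) := Function.update_eq_self _ _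
            rw [← h3]
            cases b <;> cases ((fun i => if i ∈ S then y i else x i) a) <;>
              simp only [Function.update_idem, h1]
          rw [← h2 (y a)]
          congr 1
          funext i
          by_cases hia : i = a
          · subst hia
            simp
          · simp [hia]
    have := hstep univ
    simp only [mem_univ, if_true] at this
    exact this.symm
  by_cases hex : ∃ i, DependsOn f i
  · obtain ⟨i, hi⟩ := hex
    right
    refine ⟨i, fun b => f (fun _ => b), fun x => ?_⟩
    apply key (some i) (fun j hj => by rw [h j i hj hi])
    intro j hj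
    rw [Option.some_inj] at hj
    rw [hj]
  · push Not at hex
    left
    refine ⟨f (fun _ => false), fun x => ?_⟩
    apply key none (fun j hj => absurd hj (hex j))
    intro j hj
    cases hj

/-- for an operation with at most one essential argument every family can be closed by at most
doubling it (and adding the two constant vectors) -/
theorem unary_closure {N k : ℕ} (f : (Fin k → Bool) → Bool)
    (h : ∀ i j, DependsOn f i → DependsOn f j → i = j) (R : Finset (Fin N → Bool)) :
    ∃ R' : Finset (Fin N → Bool), R ⊆ R' ∧ R'.card ≤ 2 * R.card + 2 ∧ ClosedUnder f R' := by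
  classical
  set R' : Finset (Fin N → Bool) := (R ∪ R.image (fun x j => !(x j))) ∪
    {(fun _ => false), (fun _ => true)} with hR'
  have hneg : ∀ x ∈ R', (fun j => !(x j)) ∈ R' := by
    intro x hx
    rw [hR', mem_union, mem_union, mem_image, mem_insert, mem_singleton] at hx
    rcases hx with (hx | ⟨y, hy, rfl⟩) | hx | hx
    · rw [hR', mem_union, mem_union]
      exact Or.inl (Or.inr (mem_image_of_mem (fun (x : Fin N → Bool) (j : Fin N) => !(x j)) hx))
    · simp only [Bool.not_not]
      rw [hR', mem_union, mem_union]
      exact Or.inl (Or.inl hy)
    · rw [hx, hR', mem_union, mem_insert, mem_singleton]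
      right; right; rfl
    · rw [hx, hR', mem_union, mem_insert, mem_singleton]
      right; left; rfl
  have hconst : ∀ b : Bool, (fun _ : Fin N => b) ∈ R' := by
    intro b
    rw [hR', mem_union, mem_insert, mem_singleton]
    cases b
    · right; left; rfl
    · right; right; rfl
  refine ⟨R', ?_, ?_, ?_⟩
  · exact (subset_union_left).trans subset_union_left
  · refine (card_union_le _ _).trans ?_
    have h1 := card_union_le R (R.image (fun (x : Fin N → Bool) (j : Fin N) => !(x j)))
    have h2 : (R.image (fun (x : Fin N → Bool) (j : Fin N) => !(x j))).card ≤ R.card :=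
      card_image_le
    have h3 : ({(fun _ => false), (fun _ => true)} : Finset (Fin N → Bool)).card ≤ 2 :=
      card_le_two
    omega
  · intro a ha
    rcases unary_form f h with ⟨c, hc⟩ | ⟨i, g, hg⟩
    · simp only [hc]
      exact hconst c
    · simp only [hg]
      cases h0 : g false <;> cases h1 : g true
      · have : (fun j => g (a i j)) = fun _ => false := by
          funext j; cases a i j
          · exact h0
          · exact h1
        rw [this]; exact hconst _
      · have : (fun j => g (a i j)) = a i := by
          funext j; cases a i j
          · exact h0
          · exact h1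
        rw [this]; exact ha i
      · have : (fun j => g (a i j)) = fun j => !(a i j) := by
          funext j; cases a i j
          · exact h0
          · exact h1
        rw [this]; exact hneg _ (ha i)
      · have : (fun j => g (a i j)) = fun _ => true := by
          funext j; cases a i j
          · exact h0
          · exact h1
        rw [this]; exact hconst _

end Pool.Agent.Helper62K9.SLP
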