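import Pool.Agent.Helper62K9.OMVd

set_option autoImplicit false

/-!
Programs for matrices: the upper bound, and the lower bound by counting.
-/

namespace Pool.Agent.Helper62K9.SLP

open Finset

/-- the Boolean matrix `M` as a matrix over `ZMod 2` -/
def toMat {n N : ℕ} (M : Fin n → Fin N → Bool) : Matrix (Fin n) (Fin N) (ZMod 2) :=
  fun i j => if M i j = true then 1 else 0

/-- The straight-line program `P` computes the product with `M`: when it is run on the
coordinates of a vector `v`, then each coordinate of `M v` is in a fixed register. -/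
def Computes {n N : ℕ} (P : List (ℕ × ℕ)) (M : Matrix (Fin n) (Fin N) (ZMod 2)) : Prop :=
  ∃ out : Fin n → ℕ, ∀ (v : Fin N → ZMod 2) (i : Fin n),
    (run P (List.ofFn v)).getD (out i) 0 = M.mulVec v i

/-- evaluation of a row vector at `v` -/
def evalHom {N : ℕ} (v : Fin N → ZMod 2) : (Fin N → ZMod 2) →+ ZMod 2 where
  toFun u := ∑ j, u j * v j
  map_zero' := by simp
  map_add' := by
    intro u w
    rw [← sum_add_distrib]
    apply sum_congr rfl
    intro j _
    rw [Pi.add_apply, add_mul]

lemma evalHom_single {N : ℕ} (v : Fin N → ZMod 2) (j : Fin N) :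
    evalHom v (Pi.single j 1) = v j := by
  show ∑ l, (Pi.single j 1 : Fin N → ZMod 2) l * v l = v j
  rw [sum_eq_single j]
  · simp
  · intro l _ hl
    rw [Pi.single_eq_of_ne hl, zero_mul]
  · intro h
    exact absurd (mem_univ _) h

lemma run_length {A : Type*} [AddCommMonoid A] (P : List (ℕ × ℕ)) : ∀ v : List A,
    (run P v).length = v.length + P.length := by
  induction P with
  | nil => intro v; rfl
  | cons ij P ih =>
    intro v
    obtain ⟨i, j⟩ := ij
    rw [run_cons, ih]
    simp
    omega

lemma getD_map {A B : Type*} [AddCommMonoid A] [AddCommMonoid B] (φ : A →+ B) (L : List A)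
    (i : ℕ) : (L.map φ).getD i 0 = φ (L.getD i 0) := by
  simp only [List.getD_eq_getElem?_getD, List.getElem?_map]
  cases L[i]? with
  | none => simp
  | some a => simp

theorem computes_of_can {n N s : ℕ} (M : Fin n → Fin N → Bool) (R : Finset (Fin N → Bool))
    (hM : ∀ i, M i ∈ R)
    (h : Can s (Set.range (fun j : Fin N => (Pi.single j 1 : Fin N → ZMod 2)))
      {z | ∃ r ∈ R, z = form (fun j : Fin N => (Pi.single j 1 : Fin N → ZMod 2)) r}) :
    ∃ P : List (ℕ × ℕ), P.length = s ∧ Computes P (toMat M) := by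
  obtain ⟨P, hP, h1⟩ := exists_program
    (List.ofFn (fun j : Fin N => (Pi.single j 1 : Fin N → ZMod 2))) h (by
      rintro b ⟨j, rfl⟩
      rw [List.mem_ofFn]
      exact ⟨j, rfl⟩)
  refine ⟨P, hP, ?_⟩
  choose out hout using fun i => h1 _ ⟨M i, hM i, rfl⟩
  refine ⟨out, fun v i => ?_⟩
  have e : List.ofFn v = (List.ofFn (fun j : Fin N => (Pi.single j 1 : Fin N → ZMod 2))).map
      (evalHom v) := by
    rw [List.map_ofFn]
    congr 1
    funext j
    rw [Function.comp, evalHom_single]
  rw [e, run_map, getD_map, hout, form, map_sum]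
  show _ = ∑ j, toMat M i j * v j
  apply sum_congr rfl
  intro j _
  unfold toMat
  cases M i j
  · simp
  · simp [evalHom_single]

/-- the upper bound for families closed under an operation with two essential variables -/
theorem upper {k : ℕ} (f : (Fin k → Bool) → Bool) (i j : Fin k) (hij : i ≠ j)
    (hi : DependsOn f i) (hj : DependsOn f j) {n N : ℕ} (M : Fin n → Fin N → Bool)
    (R : Finset (Fin N → Bool)) (hR : ClosedUnder f R) (hM : ∀ i, M i ∈ R) :
    ∃ P : List (ℕ × ℕ), Computes P (toMat M) ∧
      (P.length : ℝ) ≤ (R.card : ℝ) ^ (3 / 2 : ℝ) + R.card + N * (Nat.log 2 R.card + 2) := by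
  rcases R.eq_empty_or_nonempty with rfl | hne
  · refine ⟨[], ⟨fun _ => 0, fun v i => ?_⟩, ?_⟩
    · have := hM i
      simp at this
    · rw [List.length_nil, Nat.cast_zero]
      positivity
  have h2 : ∀ v : Fin N → ZMod 2, v + v = 0 := fun v => by
    funext j
    exact CharTwo.add_self_eq_zero (v j)
  have hx : ∀ j, (Pi.single j 1 : Fin N → ZMod 2) ∈ insert 0
      (Set.range (fun j : Fin N => (Pi.single j 1 : Fin N → ZMod 2))) :=
    fun j => Or.inr ⟨j, rfl⟩
  have hpos : (0 : ℝ) ≤ (R.card : ℝ) ^ (3 / 2 : ℝ) := by positivity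
  have hc : (0 : ℝ) ≤ R.card := Nat.cast_nonneg _
  have hN : (0 : ℝ) ≤ N := Nat.cast_nonneg _
  have hlog : (0 : ℝ) ≤ (N : ℝ) * (Nat.log 2 R.card) := by positivity
  rcases four f i j hij hi hj R hR hne with h | h | h | h
  · obtain ⟨t, ht, hc⟩ := and_family R h _ _ hx
    obtain ⟨P, hP, hP2⟩ := computes_of_can M R hM hc
    refine ⟨P, hP2, ?_⟩
    rw [hP]
    rw [Fintype.card_fin] at ht
    nlinarith
  · obtain ⟨t, ht, hc⟩ := or_family h2 R h _ _ hx
    obtain ⟨P, hP, hP2⟩ := computes_of_can M R hM hc
    refine ⟨P, hP2, ?_⟩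
    rw [hP]
    rw [Fintype.card_fin] at ht
    nlinarith
  · obtain ⟨t, ht, hc⟩ := maj_family h2 R h _ _ hx
    obtain ⟨P, hP, hP2⟩ := computes_of_can M R hM hc
    refine ⟨P, hP2, ?_⟩
    rw [hP]
    rw [Fintype.card_fin] at ht
    have ht' : (t : ℝ) ≤ 2 * N + R.card := by exact_mod_cast ht
    nlinarith
  · obtain ⟨t, ht, hc⟩ := aff_family h2 R h _ _ hx
    obtain ⟨P, hP, hP2⟩ := computes_of_can M R hM hc
    refine ⟨P, hP2, ?_⟩
    rw [hP]
    rw [Fintype.card_fin] at ht
    have ht' : (t : ℝ) ≤ N * (Nat.log 2 R.card + 1) + R.card := by exact_mod_cast ht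
    nlinarith

/-- the zeta transform of a finite meet-semilattice, over all commutative monoids at once -/
theorem zeta_program (P : Type) [SemilatticeInf P] [Fintype P] [DecidableLE P] (n : ℕ)
    (e : Fin n ≃ P) :
    ∃ (Q : List (ℕ × ℕ)) (out : P → ℕ), (Q.length : ℝ) ≤ (n : ℝ) ^ (3 / 2 : ℝ) ∧
      ∀ (A : Type) [AddCommMonoid A] (w : P → A) (x : P),
        (run Q (List.ofFn (fun i => w (e i)))).getD (out x) 0 =
          ∑ y ∈ univ.filter (fun y => y ≤ x), w y := by
  classical
  obtain ⟨t, ht, hc⟩ := zeta (P := P) univ (fun _ _ _ _ => mem_univ _)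
    (fun y : P => (Pi.single y 1 : P → ℕ)) (Set.range (fun y : P => (Pi.single y 1 : P → ℕ)))
    (fun y _ => Or.inr ⟨y, rfl⟩)
  have hcard : (univ : Finset P).card = n := by
    rw [card_univ, ← Fintype.card_congr e, Fintype.card_fin]
  rw [hcard] at ht
  obtain ⟨Q, hQ, h1⟩ := exists_program
    (List.ofFn (fun i => (Pi.single (e i) 1 : P → ℕ))) hc (by
      rintro b ⟨y, rfl⟩
      rw [List.mem_ofFn]
      exact ⟨e.symm y, by simp⟩)
  choose out hout using fun x : P => h1 _ ⟨x, mem_univ x, rfl⟩
  refine ⟨Q, out, by rw [hQ]; exact ht, ?_⟩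
  intro A _ w x
  let φ : (P → ℕ) →+ A :=
    { toFun := fun u => ∑ y, u y • w y
      map_zero' := by simp
      map_add' := by
        intro u v
        rw [← sum_add_distrib]
        apply sum_congr rfl
        intro y _
        rw [Pi.add_apply, add_smul] }
  have hφ : ∀ y, φ (Pi.single y 1) = w y := by
    intro y
    show ∑ z, (Pi.single y 1 : P → ℕ) z • w z = w y
    rw [sum_eq_single y]
    · simp
    · intro l _ hl
      rw [Pi.single_eq_of_ne hl, zero_smul]
    · intro h
      exact absurd (mem_univ _) h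
  have e1 : List.ofFn (fun i => w (e i)) =
      (List.ofFn (fun i => (Pi.single (e i) 1 : P → ℕ))).map φ := by
    rw [List.map_ofFn]
    congr 1
    funext i
    rw [Function.comp, hφ]
  rw [e1, run_map, getD_map, hout, map_sum]
  apply sum_congr rfl
  intro y _
  exact hφ y

/-! ### Counting -/

lemma getD_min {A : Type*} [AddCommMonoid A] (L : List A) (T i : ℕ) (h : L.length ≤ T) :
    L.getD (min i T) 0 = L.getD i 0 := by
  rcases le_or_gt i T with hi | hi
  · rw [min_eq_left hi]
  · rw [min_eq_right hi.le, List.getD_eq_default _ _ h, List.getD_eq_default _ _ (h.trans hi.le)]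

lemma run_clip {A : Type*} [AddCommMonoid A] (T : ℕ) (P : List (ℕ × ℕ)) : ∀ v : List A,
    v.length + P.length ≤ T →
      run (P.map (fun ij => (min ij.1 T, min ij.2 T))) v = run P v := by
  induction P with
  | nil => intro v _; rfl
  | cons ij P ih =>
    intro v hv
    obtain ⟨i, j⟩ := ij
    rw [List.length_cons] at hv
    rw [List.map_cons, run_cons, run_cons, getD_min _ _ _ (by omega), getD_min _ _ _ (by omega),
      ih _ (by simp; omega)]

theorem count (n s : ℕ) (E : Type) [Fintype E] (M : E → Matrix (Fin n) (Fin n) (ZMod 2))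
    (hinj : Function.Injective M)
    (h : ∀ e, ∃ P : List (ℕ × ℕ), P.length ≤ s ∧ Computes P (M e)) :
    Fintype.card E ≤ (n + s + 2) ^ (2 * s + n) := by
  classical
  choose P hP hc using h
  choose out hout using hc
  set T := n + s with hT
  let clip : ℕ → Fin (T + 1) := fun i => ⟨min i T, by omega⟩
  let code : E → (Fin s → Option (Fin (T + 1) × Fin (T + 1))) × (Fin n → Fin (T + 1)) :=
    fun e => (fun i => ((P e).map (fun ij => (clip ij.1, clip ij.2)))[(i : ℕ)]?,
      fun r => clip (out e r))
  have hcode : Function.Injective code := by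
    intro e e' hee
    apply hinj
    have h1 : (P e).map (fun ij => (clip ij.1, clip ij.2)) =
        (P e').map (fun ij => (clip ij.1, clip ij.2)) := by
      apply List.ext_getElem?
      intro i
      rcases lt_or_ge i s with hi | hi
      · exact congrFun (congrArg Prod.fst hee) ⟨i, hi⟩
      · rw [List.getElem?_eq_none (by rw [List.length_map]; exact (hP e).trans hi),
          List.getElem?_eq_none (by rw [List.length_map]; exact (hP e').trans hi)]
    have h2 : (P e).map (fun ij => (min ij.1 T, min ij.2 T)) =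
        (P e').map (fun ij => (min ij.1 T, min ij.2 T)) := by
      have h3 := congrArg (List.map (fun ab : Fin (T + 1) × Fin (T + 1) =>
        ((ab.1 : ℕ), (ab.2 : ℕ)))) h1
      rw [List.map_map, List.map_map] at h3
      exact h3
    have h3 : ∀ r, min (out e r) T = min (out e' r) T := by
      intro r
      exact congrArg Fin.val (congrFun (congrArg Prod.snd hee) r)
    have h4 : ∀ (v : Fin n → ZMod 2), (M e).mulVec v = (M e').mulVec v := by
      intro v
      have h5 : run (P e) (List.ofFn v) = run (P e') (List.ofFn v) := by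
        rw [← run_clip T (P e) (List.ofFn v) (by
            rw [List.length_ofFn]; have := hP e; omega),
          ← run_clip T (P e') (List.ofFn v) (by
            rw [List.length_ofFn]; have := hP e'; omega), h2]
      funext r
      rw [← hout e v r, ← hout e' v r]
      rw [← getD_min _ T (out e r) (by
          rw [run_length, List.length_ofFn]; have := hP e; omega),
        ← getD_min _ T (out e' r) (by
          rw [run_length, List.length_ofFn]; have := hP e'; omega), h5, h3]
    ext i j
    have h5 := congrFun (h4 (Pi.single j 1)) i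
    simpa using h5
  have h1 := Fintype.card_le_of_injective code hcode
  have h2 : Fintype.card ((Fin s → Option (Fin (T + 1) × Fin (T + 1))) × (Fin n → Fin (T + 1))) =
      ((T + 1) * (T + 1) + 1) ^ s * (T + 1) ^ n := by
    simp
  rw [h2] at h1
  refine h1.trans ?_
  have e : (T + 2) ^ (2 * s + n) = ((T + 2) ^ 2) ^ s * (T + 2) ^ n := by
    rw [pow_add, pow_mul]
  rw [e]
  apply Nat.mul_le_mul
  · apply Nat.pow_le_pow_left
    nlinarith
  · exact Nat.pow_le_pow_left (by omega) n

/-- subsets of the incidences of the affine plane over `ZMod p`, all single points and nothing -/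
def baseRow {p : ℕ} (E : ZMod p × ZMod p × ZMod p → Bool) :
    Option ((ZMod p × ZMod p) ⊕ (ZMod p × ZMod p)) → Option (ZMod p × ZMod p) → Bool
  | none, _ => false
  | some (Sum.inl _), none => false
  | some (Sum.inl ab), some xy => E (ab.1, ab.2, xy.1) && decide (xy.2 = ab.1 * xy.1 + ab.2)
  | some (Sum.inr q), c => decide (c = some q)

lemma base_and {p : ℕ} [Fact p.Prime] (E : ZMod p × ZMod p × ZMod p → Bool)
    (r s : Option ((ZMod p × ZMod p) ⊕ (ZMod p × ZMod p))) :
    ∃ t, ∀ c, baseRow E t c = (baseRow E r c && baseRow E s c) := by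
  -- at most one common point is enough
  have key : (∀ c, (baseRow E r c && baseRow E s c) = true → c ≠ none) →
      (∀ c d, (baseRow E r c && baseRow E s c) = true → (baseRow E r d && baseRow E s d) = true →
        c = d) → ∃ t, ∀ c, baseRow E t c = (baseRow E r c && baseRow E s c) := by
    intro h0 h1
    by_cases hex : ∃ c, (baseRow E r c && baseRow E s c) = true
    · obtain ⟨c, hc⟩ := hex
      have hcn := h0 c hc
      obtain ⟨q, rfl⟩ := Option.ne_none_iff_exists'.mp hcn
      refine ⟨some (Sum.inr q), fun d => ?_⟩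
      by_cases hd : d = some q
      · rw [hd, hc]
        simp [baseRow]
      · have h2 : (baseRow E r d && baseRow E s d) = false := by
          rw [Bool.eq_false_iff]
          intro h
          exact hd (h1 d (some q) h hc)
        rw [h2]
        simp [baseRow, hd]
    · push Not at hex
      refine ⟨none, fun d => ?_⟩
      have h2 : (baseRow E r d && baseRow E s d) = false := by
        rw [Bool.eq_false_iff]
        exact hex d
      rw [h2]
      rfl
  match r, s with
  | none, _ => exact key (fun c h => by simp [baseRow] at h) (fun c d h => by simp [baseRow] at h)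
  | some (Sum.inl _), none =>
    exact key (fun c h => by simp [baseRow] at h) (fun c d h => by simp [baseRow] at h)
  | some (Sum.inr _), none =>
    exact key (fun c h => by simp [baseRow] at h) (fun c d h => by simp [baseRow] at h)
  | some (Sum.inr q), some (Sum.inl _) =>
    apply key
    · intro c h
      simp only [baseRow, Bool.and_eq_true, decide_eq_true_eq] at h
      rw [h.1]; simp
    · intro c d h h'
      simp only [baseRow, Bool.and_eq_true, decide_eq_true_eq] at h h'
      rw [h.1, h'.1]
  | some (Sum.inr q), some (Sum.inr _) =>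
    apply key
    · intro c h
      simp only [baseRow, Bool.and_eq_true, decide_eq_true_eq] at h
      rw [h.1]; simp
    · intro c d h h'
      simp only [baseRow, Bool.and_eq_true, decide_eq_true_eq] at h h'
      rw [h.1, h'.1]
  | some (Sum.inl _), some (Sum.inr q) =>
    apply key
    · intro c h
      simp only [baseRow, Bool.and_eq_true, decide_eq_true_eq] at h
      rw [h.2]; simp
    · intro c d h h'
      simp only [baseRow, Bool.and_eq_true, decide_eq_true_eq] at h h'
      rw [h.2, h'.2]
  | some (Sum.inl (a, b)), some (Sum.inl (a', b')) =>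
    by_cases hne : (a, b) = (a', b')
    · rw [← hne]
      exact ⟨some (Sum.inl (a, b)), fun c => by simp⟩
    · apply key
      · rintro c h rfl
        simp [baseRow] at h
      · intro c d h h'
        match c, d with
        | none, _ => simp [baseRow] at h
        | some _, none => simp [baseRow] at h'
        | some (x, y), some (x', y') =>
          simp only [baseRow, Bool.and_eq_true, decide_eq_true_eq] at h h'
          obtain ⟨⟨-, h1⟩, ⟨-, h2⟩⟩ := h
          obtain ⟨⟨-, h3⟩, ⟨-, h4⟩⟩ := h'
          have ha : a ≠ a' := by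
            rintro rfl
            apply hne
            have : b = b' := by
              have h5 := h1.symm.trans h2
              exact add_left_cancel h5
            rw [this]
          have hx : x = x' := by
            have h5 : (a - a') * (x - x') = 0 := by
              have h6 := h1.symm.trans h2
              have h7 := h3.symm.trans h4
              linear_combination h6 - h7
            rcases mul_eq_zero.mp h5 with h6 | h6
            · exact absurd (sub_eq_zero.mp h6) ha
            · exact sub_eq_zero.mp h6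
          rw [h1, h3, hx]

theorem lower_prime (n p : ℕ) (hp : p.Prime) (hpn : 2 * p ^ 2 + 1 ≤ n) (s : ℕ)
    (h : ∀ M : Fin n → Fin n → Bool, (∀ i i', ∃ i'', ∀ j, M i'' j = (M i j && M i' j)) →
      ∃ P : List (ℕ × ℕ), P.length ≤ s ∧ Computes P (toMat M)) :
    2 ^ (p ^ 3) ≤ (n + s + 2) ^ (2 * s + n) := by
  classical
  haveI : Fact p.Prime := ⟨hp⟩
  haveI : NeZero p := ⟨hp.ne_zero⟩
  have hcp : Fintype.card (ZMod p) = p := ZMod.card p
  obtain ⟨e1⟩ : Nonempty (Option ((ZMod p × ZMod p) ⊕ (ZMod p × ZMod p)) ↪ Fin n) := by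
    apply Function.Embedding.nonempty_of_card_le
    rw [Fintype.card_option, Fintype.card_sum, Fintype.card_prod, hcp, Fintype.card_fin]
    nlinarith
  obtain ⟨e2⟩ : Nonempty (Option (ZMod p × ZMod p) ↪ Fin n) := by
    apply Function.Embedding.nonempty_of_card_le
    rw [Fintype.card_option, Fintype.card_prod, hcp, Fintype.card_fin]
    nlinarith
  let ρ := Function.invFun e1
  let κ := Function.invFun e2
  have hρ : ∀ x, ρ (e1 x) = x := Function.leftInverse_invFun e1.injective
  have hκ : ∀ x, κ (e2 x) = x := Function.leftInverse_invFun e2.injective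
  let M : (ZMod p × ZMod p × ZMod p → Bool) → Fin n → Fin n → Bool :=
    fun E i j => baseRow E (ρ i) (κ j)
  have h1 := count n s (ZMod p × ZMod p × ZMod p → Bool) (fun E => toMat (M E)) (by
    intro E E' hE
    have h2 : ∀ i j, M E i j = M E' i j := by
      intro i j
      have h3 := congrFun (congrFun hE i) j
      simp only [toMat] at h3
      revert h3
      cases M E i j <;> cases M E' i j <;> simp
    funext abx
    obtain ⟨a, b, x⟩ := abx
    have h3 := h2 (e1 (some (Sum.inl (a, b)))) (e2 (some (x, a * x + b)))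
    simp only [M, hρ, hκ, baseRow, decide_true, Bool.and_true] at h3
    exact h3) (by
    intro E
    apply h (M E)
    intro i i'
    obtain ⟨t, ht⟩ := base_and E (ρ i) (ρ i')
    refine ⟨e1 t, fun j => ?_⟩
    simp only [M, hρ]
    exact ht (κ j))
  have h2 : Fintype.card (ZMod p × ZMod p × ZMod p → Bool) = 2 ^ (p ^ 3) := by
    rw [Fintype.card_fun, Fintype.card_bool, Fintype.card_prod, Fintype.card_prod, hcp]
    congr 1
    ring
  rw [h2] at h1
  exact h1

theorem lower (n : ℕ) (hn : 2 ≤ n) : ∃ M : Fin n → Fin n → Bool,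
    (∀ i i', ∃ i'', ∀ j, M i'' j = (M i j && M i' j)) ∧
    ∀ P : List (ℕ × ℕ), Computes P (toMat M) →
      (n : ℝ) ^ (3 / 2 : ℝ) ≤ 100 * Real.logb 2 n * (P.length + n) := by
  classical
  have hn2 : (2 : ℝ) ≤ n := by exact_mod_cast hn
  have hlog1 : 1 ≤ Real.logb 2 n := by
    rw [← Real.logb_self_eq_one (b := 2) (by norm_num)]
    exact Real.logb_le_logb_of_le (by norm_num) (by norm_num) hn2
  -- the numerical claim
  have hsq : (n : ℝ) ^ (3 / 2 : ℝ) = n * Real.sqrt n := by
    rw [show (3 / 2 : ℝ) = 1 + 1 / 2 by norm_num, Real.rpow_add (by linarith), Real.rpow_one,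
      ← Real.sqrt_eq_rpow]
  rcases le_or_gt n 100 with hsmall | hbig
  · refine ⟨fun _ _ => false, fun i _ => ⟨i, fun j => rfl⟩, fun P _ => ?_⟩
    rw [hsq]
    have h1 : Real.sqrt n ≤ 10 := by
      rw [Real.sqrt_le_left (by norm_num)]
      have : (n : ℝ) ≤ 100 := by exact_mod_cast hsmall
      linarith
    have h2 : (0 : ℝ) ≤ P.length := Nat.cast_nonneg _
    nlinarith [mul_nonneg (sub_nonneg.mpr hlog1) (add_nonneg h2 (by linarith : (0:ℝ) ≤ n))]
  by_contra hcon
  push Not at hcon
  -- a prime
  set m := Nat.sqrt ((n - 1) / 8) with hm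
  have hm1 : 1 ≤ m := by
    rw [hm, Nat.le_sqrt]
    omega
  have hm2 : m * m ≤ (n - 1) / 8 := Nat.sqrt_le _
  have hm3 : (n - 1) / 8 < (m + 1) * (m + 1) := Nat.lt_succ_sqrt _
  obtain ⟨p, hp, hmp, hpm⟩ := Nat.exists_prime_lt_and_le_two_mul m (by omega)
  have hpn : 2 * p ^ 2 + 1 ≤ n := by
    have h1 : p ^ 2 ≤ (2 * m) ^ 2 := Nat.pow_le_pow_left hpm 2
    have h2 : 8 * (m * m) ≤ n - 1 := by omega
    nlinarith [Nat.sub_add_cancel (by omega : 1 ≤ n)]
  have hnp : n ≤ 8 * p ^ 2 := by
    have h1 : (m + 1) * (m + 1) ≤ p ^ 2 := by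
      rw [sq]; exact Nat.mul_le_mul hmp hmp
    omega
  -- the longest of the programs
  have hex : ∃ s : ℕ, 100 * Real.logb 2 n * (s + n) < (n : ℝ) ^ (3 / 2 : ℝ) ∧
      ∀ M : Fin n → Fin n → Bool, (∀ i i', ∃ i'', ∀ j, M i'' j = (M i j && M i' j)) →
        ∃ P : List (ℕ × ℕ), P.length ≤ s ∧ Computes P (toMat M) := by
    choose! P hP1 hP2 using hcon
    set 𝓜 : Finset (Fin n → Fin n → Bool) :=
      univ.filter (fun M => ∀ i i', ∃ i'', ∀ j, M i'' j = (M i j && M i' j)) with h𝓜
    have hne : 𝓜.Nonempty := ⟨fun _ _ => false, by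
      rw [h𝓜, mem_filter]; exact ⟨mem_univ _, fun i _ => ⟨i, fun j => rfl⟩⟩⟩
    obtain ⟨M₀, hM₀, hmax⟩ := exists_max_image 𝓜 (fun M => (P M).length) hne
    refine ⟨(P M₀).length, hP2 M₀ (mem_filter.mp hM₀).2, fun M hM => ?_⟩
    exact ⟨P M, hmax M (mem_filter.mpr ⟨mem_univ _, hM⟩), hP1 M hM⟩
  obtain ⟨s, hs, hall⟩ := hex
  have h1 := lower_prime n p hp hpn s hall
  have h2 : ((p : ℝ) ^ 3) ≤ (2 * s + n) * Real.logb 2 (n + s + 2) := by
    have h3 : (2 : ℝ) ^ (p ^ 3) ≤ ((n : ℝ) + s + 2) ^ (2 * s + n) := by exact_mod_cast h1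
    have h4 := Real.logb_le_logb_of_le (b := 2) (by norm_num) (by positivity) h3
    rw [Real.logb_pow, Real.logb_pow, Real.logb_self_eq_one (by norm_num), mul_one] at h4
    push_cast at h4
    exact h4
  have hs0 : (0 : ℝ) ≤ s := Nat.cast_nonneg _
  have hsqn : Real.sqrt n * Real.sqrt n = n := Real.mul_self_sqrt (by linarith)
  have hsq1 : 1 ≤ Real.sqrt n := by
    rw [Real.one_le_sqrt]; linarith
  -- the number of instructions is less than `n ^ 2`
  have h3 : (s : ℝ) + n ≤ n * Real.sqrt n / 100 := by
    rw [hsq] at hs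
    have : 100 * (s + n : ℝ) ≤ 100 * Real.logb 2 n * (s + n) := by
      nlinarith
    linarith
  have h4 : (n : ℝ) + s + 2 ≤ (n : ℝ) ^ 2 := by
    have h5 : Real.sqrt n ≤ n := by nlinarith
    have h6 : (n : ℝ) * Real.sqrt n ≤ n * n := by
      apply mul_le_mul_of_nonneg_left h5 (by linarith)
    have h7 : (100 : ℝ) < n := by exact_mod_cast hbig
    nlinarith
  have h5 : Real.logb 2 (n + s + 2) ≤ 2 * Real.logb 2 n := by
    have h6 := Real.logb_le_logb_of_le (b := 2) (by norm_num) (by positivity) h4
    rw [Real.logb_pow] at h6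
    push_cast at h6
    exact h6
  have h6 : (p : ℝ) ^ 3 ≤ (2 * s + n) * (2 * Real.logb 2 n) :=
    h2.trans (mul_le_mul_of_nonneg_left h5 (by positivity))
  -- `n ^ (3/2) ≤ 8 ^ (3/2) p ^ 3`
  have h7 : Real.sqrt n ≤ 3 * p := by
    rw [Real.sqrt_le_left (by positivity)]
    have : (n : ℝ) ≤ 8 * (p : ℝ) ^ 2 := by exact_mod_cast hnp
    nlinarith [sq_nonneg (p : ℝ)]
  have h8 : (n : ℝ) ≤ 8 * (p : ℝ) ^ 2 := by exact_mod_cast hnp
  have h9 : (n : ℝ) * Real.sqrt n ≤ 24 * (p : ℝ) ^ 3 := by
    calc (n : ℝ) * Real.sqrt n ≤ (8 * (p : ℝ) ^ 2) * (3 * p) := by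
          apply mul_le_mul h8 h7 (Real.sqrt_nonneg _) (by positivity)
      _ = 24 * (p : ℝ) ^ 3 := by ring
  rw [hsq] at hs
  have h10 : 0 ≤ Real.logb 2 n * (s + n) := by
    apply mul_nonneg (by linarith) (by linarith)
  nlinarith [mul_nonneg (by linarith : (0 : ℝ) ≤ Real.logb 2 n) (by linarith : (0 : ℝ) ≤ n),
    mul_nonneg (by linarith : (0 : ℝ) ≤ Real.logb 2 n) hs0]

end Pool.Agent.Helper62K9.SLP
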