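import Pool.Agent.Helper62K9.OMVd

set_option autoImplicit false

/-!
Conjunctions, and families closed under `x ∧ (y ∨ z)`.
-/

namespace Pool.Agent.Helper62K9.SLP

open Finset

/-- `f` is constant or the conjunction of some of its arguments -/
def IsConj {k : ℕ} (f : (Fin k → Bool) → Bool) : Prop :=
  (∀ x, f x = false) ∨ ∃ S : Finset (Fin k), ∀ x, f x = true ↔ ∀ i ∈ S, x i = true

/-- `f` is constant or the disjunction of some of its arguments -/
def IsDisj {k : ℕ} (f : (Fin k → Bool) → Bool) : Prop :=
  (∀ x, f x = true) ∨ ∃ S : Finset (Fin k), ∀ x, f x = true ↔ ∃ i ∈ S, x i = true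

lemma conj_of {k : ℕ} (f : (Fin k → Bool) → Bool)
    (h1 : ∀ a c : Fin k → Bool, (∀ i, a i = true → c i = true) → f a = true → f c = true)
    (h2 : ∀ a b : Fin k → Bool, f a = true → f b = true → f (fun i => a i && b i) = true) :
    IsConj f := by
  classical
  by_cases h0 : ∃ a, f a = true
  · right
    -- a true point with the smallest number of ones
    obtain ⟨a₀, ha₀⟩ := h0
    obtain ⟨a, ha, hmin⟩ := exists_min_image (univ.filter (fun a => f a = true))
      (fun a => (univ.filter (fun i => a i = true)).card) ⟨a₀, by simpa using ha₀⟩
    have ha' : f a = true := (mem_filter.mp ha).2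
    refine ⟨univ.filter (fun i => a i = true), fun x => ⟨fun hx i hi => ?_, fun hx => ?_⟩⟩
    · have h3 := h2 a x ha' hx
      have h4 := hmin _ (mem_filter.mpr ⟨mem_univ _, h3⟩)
      have h5 : univ.filter (fun i => (a i && x i) = true) ⊆ univ.filter (fun i => a i = true) := by
        intro l hl
        rw [mem_filter] at hl ⊢
        exact ⟨hl.1, by
          have := hl.2
          rw [Bool.and_eq_true] at this
          exact this.1⟩
      have h6 := eq_of_subset_of_card_le h5 h4
      rw [← h6, mem_filter, Bool.and_eq_true] at hi
      exact hi.2.2
    · exact h1 a x (fun i hi => hx i (mem_filter.mpr ⟨mem_univ _, hi⟩)) ha'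
  · left
    intro x
    rw [Bool.eq_false_iff]
    intro h
    exact h0 ⟨x, h⟩

/-- A family closed under conjunction and an operation that is not a conjunction is closed under
`x ∧ (y ∨ z)`. -/
theorem and_or_of {N k : ℕ} (g : (Fin k → Bool) → Bool) (hg : ¬ IsConj g)
    (R : Finset (Fin N → Bool)) (hR : ClosedUnder g R)
    (hand : ∀ x ∈ R, ∀ y ∈ R, (fun j => x j && y j) ∈ R) :
    ∀ x ∈ R, ∀ y ∈ R, ∀ z ∈ R, (fun j => x j && (y j || z j)) ∈ R := by
  classical
  by_cases h1 : ∀ a c : Fin k → Bool, (∀ i, a i = true → c i = true) → g a = true → g c = true
  · have h2 : ¬ ∀ a b : Fin k → Bool, g a = true → g b = true →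
        g (fun i => a i && b i) = true := fun h2 => hg (conj_of g h1 h2)
    push Not at h2
    obtain ⟨a, b, ha, hb, hab⟩ := h2
    set t : Bool → Bool → Bool → Bool := fun p q r => p && g (fun l =>
      if (a l && b l) = true then p else if a l = true then p && q else if b l = true then p && r
        else (p && q) && r) with ht
    have hcl : ∀ x ∈ R, ∀ y ∈ R, ∀ z ∈ R, (fun j => t (x j) (y j) (z j)) ∈ R := by
      intro x hx y hy z hz
      have h3 := hand x hx _ (hR (fun l => if (a l && b l) = true then x else
        if a l = true then (fun j => x j && y j) else if b l = true then (fun j => x j && z j)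
        else (fun j => (x j && y j) && z j)) (by
          intro l
          split_ifs
          · exact hx
          · exact hand x hx y hy
          · exact hand x hx z hz
          · exact hand _ (hand x hx y hy) z hz))
      have h4 : (fun j => x j && g (fun l => (if (a l && b l) = true then x else
          if a l = true then (fun j => x j && y j) else if b l = true then (fun j => x j && z j)
          else (fun j => (x j && y j) && z j)) j)) = (fun j => t (x j) (y j) (z j)) := by
        funext j
        rw [ht]
        dsimp only
        congr 2
        funext l
        split_ifs <;> rfl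
      rw [h4] at h3
      exact h3
    have v0 : ∀ q r, t false q r = false := fun q r => by rw [ht]; rfl
    have v100 : t true false false = false := by
      rw [ht]
      dsimp only
      rw [Bool.true_and]
      have : g (fun i => a i && b i) = false := by simpa using hab
      refine Eq.trans ?_ this
      congr 1
      funext l
      cases a l <;> cases b l <;> rfl
    have v110 : t true true false = true := by
      rw [ht]
      dsimp only
      rw [Bool.true_and]
      refine Eq.trans ?_ ha
      congr 1
      funext l
      cases a l <;> cases b l <;> rfl
    have v101 : t true false true = true := by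
      rw [ht]
      dsimp only
      rw [Bool.true_and]
      refine Eq.trans ?_ hb
      congr 1
      funext l
      cases a l <;> cases b l <;> rfl
    have v111 : t true true true = true := by
      rw [ht]
      dsimp only
      rw [Bool.true_and]
      apply h1 a _ _ ha
      intro i _
      cases a i <;> cases b i <;> rfl
    clear_value t
    intro x hx y hy z hz
    have h3 := hcl x hx y hy z hz
    have h4 : (fun j => t (x j) (y j) (z j)) = (fun j => x j && (y j || z j)) := by
      funext j
      cases x j <;> cases y j <;> cases z j <;> simp [v0, v100, v110, v101, v111]
    rw [h4] at h3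
    exact h3
  · push Not at h1
    obtain ⟨a, c, hac, ha, hc⟩ := h1
    set t : Bool → Bool → Bool → Bool := fun p q r => p && g (fun l =>
      if a l = true then p else if c l = true then q else r) with ht
    have hcl : ∀ x ∈ R, ∀ y ∈ R, ∀ z ∈ R, (fun j => t (x j) (y j) (z j)) ∈ R := by
      intro x hx y hy z hz
      have h3 := hand x hx _ (hR (fun l => if a l = true then x else
        if c l = true then y else z) (by
          intro l
          split_ifs
          · exact hx
          · exact hy
          · exact hz))
      have h4 : (fun j => x j && g (fun l => (if a l = true then x else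
          if c l = true then y else z) j)) = (fun j => t (x j) (y j) (z j)) := by
        funext j
        rw [ht]
        dsimp only
        congr 2
        funext l
        split_ifs <;> rfl
      rw [h4] at h3
      exact h3
    have v0 : ∀ q r, t false q r = false := fun q r => by rw [ht]; rfl
    have v100 : t true false false = true := by
      rw [ht]
      dsimp only
      rw [Bool.true_and]
      refine Eq.trans ?_ ha
      congr 1
      funext l
      cases a l <;> cases c l <;> rfl
    have v110 : t true true false = false := by
      rw [ht]
      dsimp only
      rw [Bool.true_and]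
      have : g c = false := by simpa using hc
      refine Eq.trans ?_ this
      congr 1
      funext l
      have := hac l
      revert this
      cases a l <;> cases c l <;> simp
    clear_value t
    cases hα : t true false true <;> cases hβ : t true true true
    · -- `x ∧ ¬ y ∧ ¬ z`
      intro x hx y hy z hz
      have h3 := hcl x hx _ (hcl _ (hcl x hx y hy y hy) z hz z hz)
        _ (hcl _ (hcl x hx y hy y hy) z hz z hz)
      have h4 : (fun j => t (x j) (t (t (x j) (y j) (y j)) (z j) (z j))
          (t (t (x j) (y j) (y j)) (z j) (z j))) = (fun j => x j && (y j || z j)) := by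
        funext j
        cases x j <;> cases y j <;> cases z j <;> simp [v0, v100, v110, hα, hβ]
      rw [h4] at h3
      exact h3
    · -- `x ∧ (y ↔ z)`
      intro x hx y hy z hz
      have h3 := hcl x hx _ (hcl x hx y hy z hz) _ (hand y hy z hz)
      have h4 : (fun j => t (x j) (t (x j) (y j) (z j)) (y j && z j)) =
          (fun j => x j && (y j || z j)) := by
        funext j
        cases x j <;> cases y j <;> cases z j <;> simp [v0, v100, v110, hα, hβ]
      rw [h4] at h3
      exact h3
    · -- `x ∧ ¬ y`
      intro x hx y hy z hz
      have h3 := hcl x hx _ (hcl _ (hcl x hx y hy y hy) z hz z hz)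
        _ (hcl _ (hcl x hx y hy y hy) z hz z hz)
      have h4 : (fun j => t (x j) (t (t (x j) (y j) (y j)) (z j) (z j))
          (t (t (x j) (y j) (y j)) (z j) (z j))) = (fun j => x j && (y j || z j)) := by
        funext j
        cases x j <;> cases y j <;> cases z j <;> simp [v0, v100, v110, hα, hβ]
      rw [h4] at h3
      exact h3
    · -- `x ∧ (y → z)`
      intro x hx y hy z hz
      have h3 := hcl x hx _ (hcl x hx y hy z hz) z hz
      have h4 : (fun j => t (x j) (t (x j) (y j) (z j)) (z j)) =
          (fun j => x j && (y j || z j)) := by
        funext j
        cases x j <;> cases y j <;> cases z j <;> simp [v0, v100, v110, hα, hβ]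
      rw [h4] at h3
      exact h3

section
variable {V ι : Type*} [AddCommMonoid V] [Fintype ι] [DecidableEq ι]

/-- families closed under `x ∧ (y ∨ z)` -/
theorem dist_family (R : Finset (ι → Bool))
    (hR : ∀ r ∈ R, ∀ s ∈ R, ∀ t ∈ R, (fun j => r j && (s j || t j)) ∈ R)
    (x : ι → V) (B : Set V) (hx : ∀ j, x j ∈ insert 0 B) :
    Can (Fintype.card ι + R.card) B {z | ∃ r ∈ R, z = form x r} := by
  classical
  have hand : ∀ r ∈ R, ∀ s ∈ R, (fun j => r j && s j) ∈ R := by
    intro r hr s hs
    have h := hR r hr s hs s hs
    have e : (fun j => r j && (s j || s j)) = (fun j => r j && s j) := by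
      funext j; cases r j <;> cases s j <;> rfl
    rw [e] at h
    exact h
  have hinf : ∀ r s : ι → Bool, r ⊓ s = fun j => r j && s j := fun r s => rfl
  have hle : ∀ r s : ι → Bool, r ≤ s ↔ ∀ j, r j = true → s j = true := by
    intro r s
    constructor
    · intro h j hj
      have := h j
      rw [hj] at this
      exact top_le_iff.mp this
    · intro h j
      cases hr : r j with
      | false => exact Bool.false_le _
      | true => rw [h j hr]
  -- the least member that contains `j`
  set J : Finset ι := univ.filter (fun j => ∃ r ∈ R, r j = true) with hJ
  have hc : ∀ j, ∃ c, j ∈ J → c ∈ R ∧ c j = true ∧ ∀ s ∈ R, s j = true → c ≤ s := by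
    intro j
    by_cases hj : j ∈ J
    · obtain ⟨c, h1, h2, h3⟩ := exists_least R (fun r => r j = true)
        (fun r hr hr1 s hs hs1 => ⟨by rw [hinf]; exact hand r hr s hs, by
          rw [hinf]; simp [hr1, hs1]⟩) (by
          rw [hJ, mem_filter] at hj
          exact hj.2)
      exact ⟨c, fun _ => ⟨h1, h2, h3⟩⟩
    · exact ⟨fun _ => false, fun h => absurd h hj⟩
  choose c hc using hc
  have h1 := Can.group c (fun _ => (0 : V)) x B Set.univ
    (fun _ _ => Set.mem_insert _ _) J (fun j _ => hx j)
  set G : Set V := {z | ∃ u ∈ (Set.univ : Set (ι → Bool)),
    z = 0 + ∑ i ∈ J.filter (fun i => c i = u), x i} with hG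
  -- members with at most `m` ones
  have hmain : ∀ m : ℕ, Can ((R.filter (fun r => (univ.filter (fun j => r j = true)).card ≤ m)).card)
      (B ∪ G)
      {z | ∃ r ∈ R.filter (fun r => (univ.filter (fun j => r j = true)).card ≤ m),
        z = form x r} := by
    intro m
    induction m with
    | zero =>
      apply (Can.self _).le (Nat.zero_le _)
      rintro z ⟨r, hr, rfl⟩
      rw [mem_filter] at hr
      left
      rw [form_eq, card_eq_zero.mp (by omega : (univ.filter (fun j => r j = true)).card = 0),
        sum_empty]
    | succ m ih =>
      have e : R.filter (fun r => (univ.filter (fun j => r j = true)).card ≤ m + 1) =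
          R.filter (fun r => (univ.filter (fun j => r j = true)).card ≤ m) ∪
          R.filter (fun r => (univ.filter (fun j => r j = true)).card = m + 1) := by
        ext r
        simp only [mem_filter, mem_union]
        constructor
        · rintro ⟨h1, h3⟩
          by_cases h4 : (univ.filter (fun j => r j = true)).card ≤ m
          · exact Or.inl ⟨h1, h4⟩
          · exact Or.inr ⟨h1, by omega⟩
        · rintro (⟨h1, h3⟩ | ⟨h1, h3⟩)
          · exact ⟨h1, by omega⟩
          · exact ⟨h1, by omega⟩
      have e2 : Disjoint (R.filter (fun r => (univ.filter (fun j => r j = true)).card ≤ m))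
          (R.filter (fun r => (univ.filter (fun j => r j = true)).card = m + 1)) := by
        rw [disjoint_left]
        intro r h1 h3
        rw [mem_filter] at h1 h3
        omega
      rw [e, card_union_of_disjoint e2]
      have h6 := Can.biUnion
        ((B ∪ G) ∪ {z | ∃ r ∈ R.filter (fun r => (univ.filter (fun j => r j = true)).card ≤ m),
          z = form x r})
        (fun r => {form x r}) (fun _ => 1)
        (R.filter (fun r => (univ.filter (fun j => r j = true)).card = m + 1)) (by
          intro A hA
          rw [mem_filter] at hA
          obtain ⟨hA, hAm⟩ := hA
          by_cases hex : ∃ s ∈ R, s ≤ A ∧ s ≠ A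
          · -- a maximal member below `A`
            obtain ⟨s₀, hs₀, hs₀A⟩ := hex
            obtain ⟨A', hA', hmax⟩ := exists_max_image (R.filter (fun s => s ≤ A ∧ s ≠ A))
              (fun s => (univ.filter (fun j => s j = true)).card)
              ⟨s₀, mem_filter.mpr ⟨hs₀, hs₀A⟩⟩
            rw [mem_filter] at hA'
            obtain ⟨hA'R, hA'A, hA'ne⟩ := hA'
            have hcardlt : ∀ s t : ι → Bool, s ≤ t → s ≠ t →
                (univ.filter (fun j => s j = true)).card <
                  (univ.filter (fun j => t j = true)).card := by
              intro s t hst hne
              apply card_lt_card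
              rw [ssubset_iff_subset_ne]
              refine ⟨fun j hj => ?_, fun h => hne ?_⟩
              · rw [mem_filter] at hj ⊢
                exact ⟨hj.1, (hle s t).mp hst j hj.2⟩
              · funext j
                have h3 : j ∈ univ.filter (fun j => s j = true) ↔
                    j ∈ univ.filter (fun j => t j = true) := by rw [h]
                simp only [mem_filter, mem_univ, true_and] at h3
                cases hs : s j <;> cases ht : t j <;> simp [hs, ht] at h3 ⊢
            -- adding one point of the difference to `A'` gives everything
            have hstep : ∀ j, A j = true → A' j = false →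
                j ∈ J ∧ ∀ l, A l = true → A' l = false → c j l = true := by
              intro j hj hj'
              have hjJ : j ∈ J := mem_filter.mpr ⟨mem_univ _, A, hA, hj⟩
              refine ⟨hjJ, ?_⟩
              obtain ⟨hcR, hcj, hcl⟩ := hc j hjJ
              have hcA := hcl A hA hj
              have h3 := hR A hA A' hA'R (c j) hcR
              set U : ι → Bool := fun l => A l && (A' l || c j l) with hU
              by_cases hUA : U = A
              · intro l hl hl'
                have h4 := congrFun hUA l
                rw [hU] at h4
                simp only [hl, hl', Bool.true_and, Bool.false_or] at h4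
                exact h4
              · exfalso
                have hUle : U ≤ A := by
                  rw [hle]
                  intro l hl
                  rw [hU] at hl
                  simp only [Bool.and_eq_true] at hl
                  exact hl.1
                have h4 := hmax U (mem_filter.mpr ⟨h3, hUle, hUA⟩)
                have h5 : A' ≤ U := by
                  rw [hle]
                  intro l hl
                  rw [hU]
                  simp [(hle _ _).mp hA'A l hl, hl]
                have h6 : A' ≠ U := by
                  intro h
                  have h7 := congrFun h j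
                  rw [hU] at h7
                  simp [hj, hj', hcj] at h7
                have h7 := hcardlt A' U h5 h6
                omega
            -- a point of the difference
            obtain ⟨j, hj, hj'⟩ : ∃ j, A j = true ∧ A' j = false := by
              by_contra hcon
              push Not at hcon
              apply hA'ne
              apply le_antisymm hA'A
              rw [hle]
              intro l hl
              have := hcon l hl
              simpa using this
            obtain ⟨hjJ, hjc⟩ := hstep j hj hj'
            have hdiff : univ.filter (fun l => A l = true) =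
                univ.filter (fun l => A' l = true) ∪ J.filter (fun l => c l = c j) := by
              ext l
              rw [mem_union, mem_filter, mem_filter]
              constructor
              · rintro ⟨-, hl⟩
                cases hl' : A' l with
                | true => exact Or.inl ⟨mem_univ _, rfl⟩
                | false =>
                  right
                  obtain ⟨hlJ, hlc⟩ := hstep l hl hl'
                  rw [mem_filter]
                  refine ⟨hlJ, le_antisymm ?_ ?_⟩
                  · exact (hc l hlJ).2.2 (c j) (hc j hjJ).1 (hjc l hl hl')
                  · exact (hc j hjJ).2.2 (c l) (hc l hlJ).1 (hlc j hj hj')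
              · rintro (⟨-, hl⟩ | hl)
                · exact ⟨mem_univ _, (hle _ _).mp hA'A l hl⟩
                · rw [mem_filter] at hl
                  refine ⟨mem_univ _, ?_⟩
                  have h3 := (hc l hl.1).2.1
                  rw [hl.2] at h3
                  exact (hle _ _).mp ((hc j hjJ).2.2 A hA hj) l h3
            have hdis : Disjoint (univ.filter (fun l => A' l = true))
                (J.filter (fun l => c l = c j)) := by
              rw [disjoint_left]
              intro l hl hl2
              rw [mem_filter] at hl hl2
              have h3 := (hc l hl2.1).2.2 A' hA'R hl.2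
              rw [hl2.2] at h3
              have h4 := (hle _ _).mp h3 j (hc j hjJ).2.1
              rw [hj'] at h4
              cases h4
            have h9 : form x A = form x A' + (0 + ∑ i ∈ J.filter (fun i => c i = c j), x i) := by
              rw [form_eq, form_eq, hdiff, sum_union hdis, zero_add]
            rw [h9]
            apply Can.one
            · right; right
              refine ⟨A', mem_filter.mpr ⟨hA'R, ?_⟩, rfl⟩
              have := hcardlt A' A hA'A hA'ne
              omega
            · right; left; right
              exact ⟨c j, Set.mem_univ _, rfl⟩
          · -- `A` is the least member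
            push Not at hex
            have hbot : ∀ s ∈ R, A ≤ s := by
              intro s hs
              have h3 := hex (A ⊓ s) (by rw [hinf]; exact hand A hA s hs) inf_le_left
              rw [← h3]
              exact inf_le_right
            have h9 : form x A = 0 + ∑ i ∈ J.filter (fun i => c i = A), x i := by
              rw [form_eq, zero_add]
              apply sum_congr _ (fun _ _ => rfl)
              ext l
              rw [mem_filter, mem_filter]
              constructor
              · rintro ⟨-, hl⟩
                have hlJ : l ∈ J := mem_filter.mpr ⟨mem_univ _, A, hA, hl⟩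
                exact ⟨hlJ, le_antisymm ((hc l hlJ).2.2 A hA hl) (hbot _ (hc l hlJ).1)⟩
              · rintro ⟨hlJ, hl⟩
                refine ⟨mem_univ _, ?_⟩
                rw [← hl]
                exact (hc l hlJ).2.1
            apply (Can.self _).le (Nat.zero_le 1)
            rintro z hz
            rw [Set.mem_singleton_iff] at hz
            rw [hz]
            right; left; right
            exact ⟨A, Set.mem_univ _, h9⟩)
      rw [sum_const, smul_eq_mul, mul_one] at h6
      refine (ih.trans h6).mono subset_rfl ?_
      rintro z ⟨r, hr, rfl⟩
      rw [mem_union] at hr
      rcases hr with hr | hr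
      · exact Or.inl ⟨r, hr, rfl⟩
      · exact Or.inr ⟨r, hr, rfl⟩
  refine ((h1.trans' (hmain (Fintype.card ι))).le ?_).mono subset_rfl ?_
  · exact Nat.add_le_add (card_le_univ _) (card_le_card (filter_subset _ _))
  · rintro z ⟨r, hr, rfl⟩
    exact ⟨r, mem_filter.mpr ⟨hr, card_le_univ _⟩, rfl⟩

/-- families closed under `x ∨ (y ∧ z)` -/
theorem codist_family (h2 : ∀ v : V, v + v = 0) (R : Finset (ι → Bool))
    (hR : ∀ r ∈ R, ∀ s ∈ R, ∀ t ∈ R, (fun j => r j || (s j && t j)) ∈ R)
    (x : ι → V) (B : Set V) (hx : ∀ j, x j ∈ insert 0 B) :
    Can (2 * Fintype.card ι + 2 * R.card) B {z | ∃ r ∈ R, z = form x r} := by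
  classical
  set R' : Finset (ι → Bool) := R.image (fun r j => !(r j)) with hR'
  have hcard : R'.card ≤ R.card := card_image_le
  have hc := dist_family R' (by
    intro r hr s hs t ht
    rw [hR', mem_image] at hr hs ht ⊢
    obtain ⟨r', hr', rfl⟩ := hr
    obtain ⟨s', hs', rfl⟩ := hs
    obtain ⟨t', ht', rfl⟩ := ht
    refine ⟨_, hR r' hr' s' hs' t' ht', ?_⟩
    funext j
    simp) x B hx
  have h1 := (can_form x B hx (fun _ => true)).union hc
  have h3 : Can (R.card) (B ∪ ({form x (fun _ => true)} ∪ {z | ∃ r ∈ R', z = form x r}))
      {z | ∃ r ∈ R, z = form x r} := by
    have h4 := Can.biUnion (B ∪ ({form x (fun _ => true)} ∪ {z | ∃ r ∈ R', z = form x r}))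
      (fun r => {form x (fun _ => true) + form x (fun j => !(r j))}) (fun _ => 1) R (by
        intro r hr
        apply Can.one
        · right; right; left
          exact rfl
        · right; right; right
          exact ⟨_, mem_image_of_mem _ hr, rfl⟩)
    rw [sum_const, smul_eq_mul, mul_one] at h4
    refine h4.mono subset_rfl ?_
    rintro z ⟨r, hr, rfl⟩
    refine ⟨r, hr, ?_⟩
    rw [Set.mem_singleton_iff, ← form_xor h2]
    congr 1
    funext j
    simp
  refine (h1.trans' h3).le ?_
  omega

end

end Pool.Agent.Helper62K9.SLP
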