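import Pool.Agent.Helper62K9.OMVg

set_option autoImplicit false

/-!
Affine families in linear time.
-/

namespace Pool.Agent.Helper62K9.SLP

open Finset

section
variable {V : Type*} [AddCommMonoid V]

/-- all half sums over the cube -/
theorem cube_sums (d : ℕ) : ∀ (x : (Fin d → Bool) → V) (B : Set V)
    (_ : ∀ π, x π ∈ insert 0 B),
    Can (2 * 2 ^ d) B {z | ∃ i : Fin d, z = ∑ π ∈ univ.filter (fun π => π i = true), x π} := by
  classical
  induction d with
  | zero =>
    intro x B _
    apply (Can.self _).le (Nat.zero_le _)
    rintro z ⟨i, -⟩
    exact i.elim0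
  | succ d ih =>
    intro x B hx
    have hsplit : ∀ (p : (Fin (d + 1) → Bool) → Prop) [DecidablePred p],
        ∑ π ∈ univ.filter p, x π =
          ∑ π : Fin d → Bool, ((if p (Fin.cons false π) then x (Fin.cons false π) else 0) +
            (if p (Fin.cons true π) then x (Fin.cons true π) else 0)) := by
      intro p _
      rw [sum_filter, ← (Fin.consEquiv (fun _ : Fin (d + 1) => Bool)).sum_comp,
        Fintype.sum_prod_type]
      rw [Fintype.sum_bool, add_comm, ← sum_add_distrib]
      rfl
    -- the sum over the half where the first coordinate is `true`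
    have h1 : Can (2 ^ d) B {∑ π : Fin d → Bool, x (Fin.cons true π)} := by
      have h := Can.sum (fun π : Fin d → Bool => x (Fin.cons true π)) B univ (fun π _ => hx _)
      have e : (univ : Finset (Fin d → Bool)).card = 2 ^ d := by simp
      rw [e] at h
      exact h
    -- the contraction along the first coordinate
    have h2 : Can (2 ^ d) B {z | ∃ π : Fin d → Bool, z = x (Fin.cons false π) + x (Fin.cons true π)} := by
      have h := Can.biUnion B (fun π : Fin d → Bool => {x (Fin.cons false π) + x (Fin.cons true π)})
        (fun _ => 1) univ (fun π _ => Can.one (hx _) (hx _))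
      rw [sum_const, smul_eq_mul, mul_one] at h
      have e : (univ : Finset (Fin d → Bool)).card = 2 ^ d := by simp
      rw [e] at h
      refine h.mono subset_rfl ?_
      rintro z ⟨π, rfl⟩
      exact ⟨π, mem_univ _, rfl⟩
    have h3 := ih (fun π => x (Fin.cons false π) + x (Fin.cons true π))
      (B ∪ {z | ∃ π : Fin d → Bool, z = x (Fin.cons false π) + x (Fin.cons true π)})
      (fun π => Or.inr (Or.inr ⟨π, rfl⟩))
    refine ((h1.union (h2.trans' h3)).le (by rw [pow_succ]; omega)).mono subset_rfl ?_
    rintro z ⟨i, rfl⟩
    refine Fin.cases ?_ (fun i => ?_) i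
    · left
      rw [Set.mem_singleton_iff, hsplit]
      apply sum_congr rfl
      intro π _
      simp
    · right
      refine ⟨i, ?_⟩
      rw [hsplit, sum_filter]
      apply sum_congr rfl
      intro π _
      simp only [Fin.cons_succ]
      split_ifs <;> simp

variable {ι : Type*} [Fintype ι] [DecidableEq ι]

theorem gen_sums {d : ℕ} (δ : Fin d → (ι → Bool)) (x : ι → V) (B : Set V)
    (hx : ∀ j, x j ∈ insert 0 B) :
    Can (Fintype.card ι + 2 * 2 ^ d) B {z | ∃ i, z = form x (δ i)} := by
  classical
  have h1 := Can.group (fun j i => δ i j) (fun _ => (0 : V)) x B (Set.univ : Set (Fin d → Bool))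
    (fun _ _ => Set.mem_insert _ _) univ (fun j _ => hx j)
  rw [card_univ] at h1
  have h2 := cube_sums d (fun u => 0 + ∑ j ∈ univ.filter (fun j => (fun i => δ i j) = u), x j)
    (B ∪ {z | ∃ u ∈ (Set.univ : Set (Fin d → Bool)),
      z = 0 + ∑ j ∈ univ.filter (fun j => (fun i => δ i j) = u), x j})
    (fun u => Or.inr (Or.inr ⟨u, Set.mem_univ _, rfl⟩))
  refine (h1.trans' h2).mono subset_rfl ?_
  rintro z ⟨i, rfl⟩
  refine ⟨i, ?_⟩
  rw [form_eq]
  simp only [zero_add]
  rw [← sum_fiberwise_of_maps_to (s := univ.filter (fun j => δ i j = true))
    (t := univ.filter (fun π : Fin d → Bool => π i = true)) (g := fun j i => δ i j) (by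
      intro j hj
      rw [mem_filter] at hj ⊢
      exact ⟨mem_univ _, hj.2⟩)]
  apply sum_congr rfl
  intro u hu
  rw [mem_filter] at hu
  apply sum_congr _ (fun _ _ => rfl)
  ext j
  simp only [mem_filter, mem_univ, true_and]
  constructor
  · rintro ⟨_, h2⟩
    exact h2
  · intro h2
    refine ⟨?_, h2⟩
    have := congrFun h2 i
    rw [this]
    exact hu.2

/-- families closed under the sum of three vectors, in linear time -/
theorem aff_family' (h2 : ∀ v : V, v + v = 0) (R : Finset (ι → Bool))
    (hR : ∀ r ∈ R, ∀ s ∈ R, ∀ t ∈ R, (fun j => (r j ^^ s j) ^^ t j) ∈ R)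
    (x : ι → V) (B : Set V) (hx : ∀ j, x j ∈ insert 0 B) :
    Can (2 * Fintype.card ι + 3 * R.card) B {z | ∃ r ∈ R, z = form x r} := by
  classical
  rcases R.eq_empty_or_nonempty with rfl | ⟨r₀, hr₀⟩
  · apply (Can.self _).le (Nat.zero_le _)
    rintro z ⟨x, hx, -⟩
    simp at hx
  -- a maximal subfamily for which the claim holds
  let good : Finset (ι → Bool) → Prop := fun A => A ⊆ R ∧ r₀ ∈ A ∧
    (∀ r ∈ A, ∀ s ∈ A, ∀ t ∈ A, (fun j => (r j ^^ s j) ^^ t j) ∈ A) ∧
    ∃ (d : ℕ) (δ : Fin d → (ι → Bool)), A.card = 2 ^ d ∧
      Can A.card ({form x r₀} ∪ {z | ∃ i, z = form x (δ i)}) {z | ∃ r ∈ A, z = form x r}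
  have h0 : good {r₀} := by
    refine ⟨by simpa using hr₀, by simp, ?_, 0, fun i => i.elim0, by simp, ?_⟩
    · intro r hr s hs t ht
      rw [mem_singleton] at hr hs ht ⊢
      rw [hr, hs, ht]
      funext j
      cases r₀ j <;> rfl
    · apply (Can.self _).le (Nat.zero_le _)
      rintro z ⟨r, hr, rfl⟩
      rw [mem_singleton] at hr
      rw [hr]
      right; left
      rfl
  obtain ⟨A, hA, hmax⟩ := exists_max_image (R.powerset.filter good) (fun A => A.card)
    ⟨{r₀}, by rw [mem_filter, mem_powerset]; exact ⟨by simpa using hr₀, h0⟩⟩
  obtain ⟨hAR, hrA, hAcl, d, δ, hAd, hAC⟩ := (mem_filter.mp hA).2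
  by_cases hAR' : A = R
  · rw [hAR'] at hAC hAd
    have h1 := (can_form x B hx r₀).union (gen_sums δ x B hx)
    have h3 := h1.trans' (hAC.mono (B' := B ∪ ({form x r₀} ∪ {z | ∃ i, z = form x (δ i)}))
      Set.subset_union_right subset_rfl)
    refine h3.le ?_
    rw [hAd]
    omega
  · exfalso
    obtain ⟨r, hr, hrA'⟩ : ∃ r ∈ R, r ∉ A := by
      by_contra hcon
      push Not at hcon
      exact hAR' (Subset.antisymm hAR hcon)
    set sh : (ι → Bool) → (ι → Bool) := fun a j => (a j ^^ r₀ j) ^^ r j with hsh
    have hshinj : Function.Injective sh := by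
      intro a b h
      funext j
      have := congrFun h j
      rw [hsh] at this
      simp only at this
      revert this
      cases a j <;> cases b j <;> cases r₀ j <;> cases r j <;> simp
    set A' := A ∪ A.image sh with hA'
    have hdis : Disjoint A (A.image sh) := by
      rw [disjoint_left]
      intro a ha hb
      rw [mem_image] at hb
      obtain ⟨b, hb, hab⟩ := hb
      apply hrA'
      have h3 := hAcl a ha b hb r₀ hrA
      have e : (fun j => (a j ^^ b j) ^^ r₀ j) = r := by
        funext j
        have := congrFun hab j
        rw [hsh] at this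
        simp only at this
        rw [← this]
        cases b j <;> cases r₀ j <;> cases r j <;> rfl
      rw [e] at h3
      exact h3
    have hcard : A'.card = 2 * A.card := by
      rw [hA', card_union_of_disjoint hdis, card_image_of_injective _ hshinj]
      ring
    have hApos : 0 < A.card := card_pos.mpr ⟨r₀, hrA⟩
    have hgood : good A' := by
      refine ⟨?_, mem_union_left _ hrA, ?_, d + 1, Fin.cons (fun j => r₀ j ^^ r j) δ, ?_, ?_⟩
      · intro a ha
        rw [hA', mem_union, mem_image] at ha
        rcases ha with ha | ⟨b, hb, rfl⟩
        · exact hAR ha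
        · exact hR b (hAR hb) r₀ hr₀ r hr
      · -- closed
        have hmem : ∀ a, a ∈ A' ↔ a ∈ A ∨ sh a ∈ A := by
          intro a
          rw [hA', mem_union, mem_image]
          constructor
          · rintro (h | ⟨b, hb, rfl⟩)
            · exact Or.inl h
            · right
              have : sh (sh b) = b := by
                funext j
                rw [hsh]
                simp only
                cases b j <;> cases r₀ j <;> cases r j <;> rfl
              rw [this]
              exact hb
          · rintro (h | h)
            · exact Or.inl h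
            · right
              refine ⟨sh a, h, ?_⟩
              funext j
              rw [hsh]
              simp only
              cases a j <;> cases r₀ j <;> cases r j <;> rfl
        intro a ha b hb c hc
        rw [hmem] at ha hb hc ⊢
        have e1 : ∀ a b c : ι → Bool, (fun j => (sh a j ^^ b j) ^^ c j) =
            sh (fun j => (a j ^^ b j) ^^ c j) := by
          intro a b c
          funext j
          rw [hsh]
          simp only
          cases a j <;> cases b j <;> cases c j <;> cases r₀ j <;> cases r j <;> rfl
        have e2 : ∀ a b c : ι → Bool, (fun j => (a j ^^ sh b j) ^^ c j) =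
            sh (fun j => (a j ^^ b j) ^^ c j) := by
          intro a b c
          funext j
          rw [hsh]
          simp only
          cases a j <;> cases b j <;> cases c j <;> cases r₀ j <;> cases r j <;> rfl
        have e3 : ∀ a b c : ι → Bool, (fun j => (a j ^^ b j) ^^ sh c j) =
            sh (fun j => (a j ^^ b j) ^^ c j) := by
          intro a b c
          funext j
          rw [hsh]
          simp only
          cases a j <;> cases b j <;> cases c j <;> cases r₀ j <;> cases r j <;> rfl
        have e4 : ∀ a, sh (sh a) = a := by
          intro a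
          funext j
          rw [hsh]
          simp only
          cases a j <;> cases r₀ j <;> cases r j <;> rfl
        rcases ha with ha | ha <;> rcases hb with hb | hb <;> rcases hc with hc | hc
        · left; exact hAcl a ha b hb c hc
        · right; rw [← e3]; exact hAcl _ ha _ hb _ hc
        · right; rw [← e2]; exact hAcl _ ha _ hb _ hc
        · left
          have := hAcl _ ha _ hb _ hc
          rw [e2, e3, e4] at this
          exact this
        · right; rw [← e1]; exact hAcl _ ha _ hb _ hc
        · left
          have := hAcl _ ha _ hb _ hc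
          rw [e1, e3, e4] at this
          exact this
        · left
          have := hAcl _ ha _ hb _ hc
          rw [e1, e2, e4] at this
          exact this
        · right
          have := hAcl _ ha _ hb _ hc
          rw [e1, e2, e3, e4] at this
          exact this
      · rw [hcard, hAd, pow_succ]
        ring
      · -- cost
        set B' : Set V := {form x r₀} ∪
          {z | ∃ i, z = form x ((Fin.cons (fun j => r₀ j ^^ r j) δ : Fin (d + 1) → (ι → Bool)) i)}
          with hB'
        have h3 : Can A.card B' {z | ∃ r ∈ A, z = form x r} := by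
          refine hAC.mono ?_ subset_rfl
          apply Set.union_subset_union_right
          rintro z ⟨i, rfl⟩
          exact ⟨i.succ, by simp⟩
        have h4 : Can A.card (B' ∪ {z | ∃ r ∈ A, z = form x r})
            {z | ∃ a ∈ A, z = form x (sh a)} := by
          have h5 := Can.biUnion (B' ∪ {z | ∃ r ∈ A, z = form x r})
            (fun a => {form x a + form x (fun j => r₀ j ^^ r j)}) (fun _ => 1) A (by
              intro a ha
              apply Can.one
              · right; right
                exact ⟨a, ha, rfl⟩
              · right; left; right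
                exact ⟨0, by simp⟩)
          rw [sum_const, smul_eq_mul, mul_one] at h5
          refine h5.mono subset_rfl ?_
          rintro z ⟨a, ha, rfl⟩
          refine ⟨a, ha, ?_⟩
          rw [Set.mem_singleton_iff, ← form_xor h2]
          congr 1
          funext j
          rw [hsh]
          simp only
          cases a j <;> cases r₀ j <;> cases r j <;> rfl
        refine ((h3.trans h4).le (le_of_eq ?_)).mono subset_rfl ?_
        · rw [hcard]
          ring
        · rintro z ⟨a, ha, rfl⟩
          rw [hA', mem_union, mem_image] at ha
          rcases ha with ha | ⟨b, hb, rfl⟩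
          · left
            exact ⟨a, ha, rfl⟩
          · right
            exact ⟨b, hb, rfl⟩
    have h3 : A'.card ≤ A.card := hmax A' (by
      rw [mem_filter, mem_powerset]
      exact ⟨hgood.1, hgood⟩)
    omega

end

end Pool.Agent.Helper62K9.SLP
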