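import Pool.Agent.Helper62K9.OMVh
import Pool.Agent.Helper62K9.OMVe

set_option autoImplicit false

/-!
The classification.
-/

namespace Pool.Agent.Helper62K9.SLP

open Finset

/-- A Boolean operation: its arity and its values. -/
abbrev Op : Type := Σ k : ℕ, ((Fin k → Bool) → Bool)

/-- The operation depends on at most one of its arguments. -/
def EssUnary (f : Op) : Prop := ∀ i j, DependsOn f.2 i → DependsOn f.2 j → i = j

/-- The set of rows of `M` is closed under the coordinatewise operations in `F`. -/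
def RowClosed {n N : ℕ} (F : Set Op) (M : Fin n → Fin N → Bool) : Prop :=
  ∀ f ∈ F, ∀ a : Fin f.1 → Fin n, ∃ i, ∀ j, M i j = f.2 (fun l => M (a l) j)

lemma closedUnder_of {n N : ℕ} {F : Set Op} {M : Fin n → Fin N → Bool} (h : RowClosed F M)
    {f : Op} (hf : f ∈ F) : ClosedUnder f.2 (univ.image M) := by
  intro a ha
  have h1 : ∀ i, ∃ b, M b = a i := by
    intro i
    obtain ⟨b, -, hb⟩ := mem_image.mp (ha i)
    exact ⟨b, hb⟩
  choose b hb using h1
  obtain ⟨i, hi⟩ := h f hf b
  rw [mem_image]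
  refine ⟨i, mem_univ _, ?_⟩
  funext j
  rw [hi j]
  have e : (fun l => M (b l) j) = (fun i => a i j) := by
    funext l
    rw [hb l]
  rw [e]

lemma four_of {n N : ℕ} (hn : 0 < n) {F : Set Op} (hF : ∃ f ∈ F, ¬ EssUnary f)
    {M : Fin n → Fin N → Bool} (h : RowClosed F M) : Four (univ.image M) := by
  obtain ⟨f, hf, hfu⟩ := hF
  unfold EssUnary at hfu
  push Not at hfu
  obtain ⟨i, j, hi, hj, hij⟩ := hfu
  exact four f.2 i j hij hi hj _ (closedUnder_of h hf) ⟨M ⟨0, hn⟩, mem_image_of_mem _ (mem_univ _)⟩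

lemma computes_empty {N : ℕ} (M : Fin 0 → Fin N → Bool) : Computes [] (toMat M) :=
  ⟨fun _ => 0, fun _ i => i.elim0⟩

lemma two_zero {N : ℕ} (v : Fin N → ZMod 2) : v + v = 0 := by
  funext j
  exact CharTwo.add_self_eq_zero (v j)

lemma unit_mem {N : ℕ} (j : Fin N) : (Pi.single j 1 : Fin N → ZMod 2) ∈ insert 0
    (Set.range (fun j : Fin N => (Pi.single j 1 : Fin N → ZMod 2))) := Or.inr ⟨j, rfl⟩

theorem upper_any {n N : ℕ} {F : Set Op} (hF : ∃ f ∈ F, ¬ EssUnary f)
    (M : Fin n → Fin N → Bool) (h : RowClosed F M) :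
    ∃ P : List (ℕ × ℕ), Computes P (toMat M) ∧
      (P.length : ℝ) ≤ (n : ℝ) ^ (3 / 2 : ℝ) + 3 * n + 2 * N := by
  rcases Nat.eq_zero_or_pos n with rfl | hn
  · exact ⟨[], computes_empty M, by rw [List.length_nil, Nat.cast_zero]; positivity⟩
  have hM : ∀ i, M i ∈ univ.image M := fun i => mem_image_of_mem _ (mem_univ _)
  have hcard : (univ.image M).card ≤ n := by
    have := card_image_le (s := univ) (f := M)
    rwa [card_univ, Fintype.card_fin] at this
  have hcard' : ((univ.image M).card : ℝ) ≤ n := by exact_mod_cast hcard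
  have hpow : ((univ.image M).card : ℝ) ^ (3 / 2 : ℝ) ≤ (n : ℝ) ^ (3 / 2 : ℝ) :=
    Real.rpow_le_rpow (Nat.cast_nonneg _) hcard' (by norm_num)
  have hpos : (0 : ℝ) ≤ (n : ℝ) ^ (3 / 2 : ℝ) := by positivity
  have hn0 : (0 : ℝ) ≤ n := Nat.cast_nonneg _
  have hN0 : (0 : ℝ) ≤ N := Nat.cast_nonneg _
  rcases four_of hn hF h with h4 | h4 | h4 | h4
  · obtain ⟨t, ht, hc⟩ := and_family _ h4 _ _ (unit_mem (N := N))
    obtain ⟨P, hP, hP2⟩ := computes_of_can M _ hM hc
    refine ⟨P, hP2, ?_⟩
    rw [hP]
    rw [Fintype.card_fin] at ht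
    linarith
  · obtain ⟨t, ht, hc⟩ := or_family two_zero _ h4 _ _ (unit_mem (N := N))
    obtain ⟨P, hP, hP2⟩ := computes_of_can M _ hM hc
    refine ⟨P, hP2, ?_⟩
    rw [hP]
    rw [Fintype.card_fin] at ht
    linarith
  · obtain ⟨t, ht, hc⟩ := maj_family two_zero _ h4 _ _ (unit_mem (N := N))
    obtain ⟨P, hP, hP2⟩ := computes_of_can M _ hM hc
    refine ⟨P, hP2, ?_⟩
    rw [hP]
    rw [Fintype.card_fin] at ht
    have ht' : (t : ℝ) ≤ 2 * N + (univ.image M).card := by exact_mod_cast ht
    linarith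
  · have hc := aff_family' two_zero _ h4 _ _ (unit_mem (N := N))
    obtain ⟨P, hP, hP2⟩ := computes_of_can M _ hM hc
    refine ⟨P, hP2, ?_⟩
    rw [hP, Fintype.card_fin]
    push_cast
    linarith

/-- the dual form of `and_or_of` -/
theorem or_and_of {N k : ℕ} (g : (Fin k → Bool) → Bool) (hg : ¬ IsDisj g)
    (R : Finset (Fin N → Bool)) (hR : ClosedUnder g R)
    (hor : ∀ x ∈ R, ∀ y ∈ R, (fun j => x j || y j) ∈ R) :
    ∀ x ∈ R, ∀ y ∈ R, ∀ z ∈ R, (fun j => x j || (y j && z j)) ∈ R := by
  classical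
  set R' : Finset (Fin N → Bool) := R.image (fun x j => !(x j)) with hR'
  have hmem : ∀ x : Fin N → Bool, x ∈ R → (fun j => !(x j)) ∈ R' := by
    intro x hx
    exact mem_image_of_mem (fun (x : Fin N → Bool) (j : Fin N) => !(x j)) hx
  have hmem' : ∀ x : Fin N → Bool, x ∈ R' → (fun j => !(x j)) ∈ R := by
    intro x hx
    rw [hR', mem_image] at hx
    obtain ⟨y, hy, rfl⟩ := hx
    simpa using hy
  have h := and_or_of (fun x => !(g fun i => !(x i))) (by
    rintro (h1 | ⟨S, hS⟩)
    · apply hg
      left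
      intro x
      have := h1 (fun i => !(x i))
      simpa using this
    · apply hg
      right
      refine ⟨S, fun x => ?_⟩
      have h2 := hS (fun i => !(x i))
      simp only [Bool.not_not] at h2
      constructor
      · intro h3
        by_contra hcon
        push Not at hcon
        have h4 := h2.mpr (fun i hi => by simpa using hcon i hi)
        rw [h3] at h4
        cases h4
      · rintro ⟨i, hi, hxi⟩
        by_contra hcon
        have h3 : g x = false := by simpa using hcon
        have h4 := h2.mp (by rw [h3]; rfl) i hi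
        rw [hxi] at h4
        cases h4) R' (by
      intro a ha
      exact hmem _ (hR (fun i j => !(a i j)) (fun i => hmem' _ (ha i)))) (by
      intro x hx y hy
      have h1 := hmem _ (hor _ (hmem' x hx) _ (hmem' y hy))
      have e : (fun j => !((!(x j)) || (!(y j)))) = (fun j => x j && y j) := by
        funext j; cases x j <;> cases y j <;> rfl
      rw [e] at h1
      exact h1)
  intro x hx y hy z hz
  have h1 := hmem' _ (h _ (hmem x hx) _ (hmem y hy) _ (hmem z hz))
  have e : (fun j => !((!(x j)) && ((!(y j)) || (!(z j))))) =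
      (fun j => x j || (y j && z j)) := by
    funext j; cases x j <;> cases y j <;> cases z j <;> rfl
  rw [e] at h1
  exact h1

theorem upper_easy {n N : ℕ} {F : Set Op} (hF : ∃ f ∈ F, ¬ EssUnary f)
    (hconj : ∃ f ∈ F, ¬ IsConj f.2) (hdisj : ∃ f ∈ F, ¬ IsDisj f.2)
    (M : Fin n → Fin N → Bool) (h : RowClosed F M) :
    ∃ P : List (ℕ × ℕ), Computes P (toMat M) ∧ P.length ≤ 3 * n + 2 * N := by
  rcases Nat.eq_zero_or_pos n with rfl | hn
  · exact ⟨[], computes_empty M, by simp⟩
  have hM : ∀ i, M i ∈ univ.image M := fun i => mem_image_of_mem _ (mem_univ _)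
  have hcard : (univ.image M).card ≤ n := by
    have := card_image_le (s := univ) (f := M)
    rwa [card_univ, Fintype.card_fin] at this
  rcases four_of hn hF h with h4 | h4 | h4 | h4
  · obtain ⟨g, hg, hgc⟩ := hconj
    have hc := dist_family _ (and_or_of g.2 hgc _ (closedUnder_of h hg) h4) _ _
      (unit_mem (N := N))
    obtain ⟨P, hP, hP2⟩ := computes_of_can M _ hM hc
    refine ⟨P, hP2, ?_⟩
    rw [hP, Fintype.card_fin]
    omega
  · obtain ⟨g, hg, hgc⟩ := hdisj
    have hc := codist_family two_zero _ (or_and_of g.2 hgc _ (closedUnder_of h hg) h4) _ _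
      (unit_mem (N := N))
    obtain ⟨P, hP, hP2⟩ := computes_of_can M _ hM hc
    refine ⟨P, hP2, ?_⟩
    rw [hP, Fintype.card_fin]
    omega
  · obtain ⟨t, ht, hc⟩ := maj_family two_zero _ h4 _ _ (unit_mem (N := N))
    obtain ⟨P, hP, hP2⟩ := computes_of_can M _ hM hc
    refine ⟨P, hP2, ?_⟩
    rw [hP]
    rw [Fintype.card_fin] at ht
    omega
  · have hc := aff_family' two_zero _ h4 _ _ (unit_mem (N := N))
    obtain ⟨P, hP, hP2⟩ := computes_of_can M _ hM hc
    refine ⟨P, hP2, ?_⟩
    rw [hP, Fintype.card_fin]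
    omega

/-! ### Lower bounds -/

lemma numeric (n s q : ℕ) (X : ℝ) (hn : 100 < n) (hX : X ≤ (n : ℝ) ^ 2)
    (h : 200 * Real.logb 2 n * (s + n) < X) (hq : X ≤ 50 * q) :
    (n + s + 2) ^ (2 * s + n) < 2 ^ q := by
  have hn2 : (100 : ℝ) < n := by exact_mod_cast hn
  have hs0 : (0 : ℝ) ≤ s := Nat.cast_nonneg _
  have hlog1 : 1 ≤ Real.logb 2 n := by
    rw [← Real.logb_self_eq_one (b := 2) (by norm_num)]
    exact Real.logb_le_logb_of_le (by norm_num) (by norm_num) (by linarith)
  have h3 : 200 * ((s : ℝ) + n) ≤ X := by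
    have : 200 * (s + n : ℝ) ≤ 200 * Real.logb 2 n * (s + n) := by
      nlinarith
    linarith
  have h4 : (n : ℝ) + s + 2 ≤ (n : ℝ) ^ 2 := by nlinarith
  have h5 : Real.logb 2 (n + s + 2) ≤ 2 * Real.logb 2 n := by
    have h6 := Real.logb_le_logb_of_le (b := 2) (by norm_num) (by positivity) h4
    rw [Real.logb_pow] at h6
    push_cast at h6
    exact h6
  have h6 : (2 * s + n : ℝ) * Real.logb 2 (n + s + 2) ≤ (2 * s + n) * (2 * Real.logb 2 n) :=
    mul_le_mul_of_nonneg_left h5 (by positivity)
  have h7 : (2 * s + n : ℝ) * Real.logb 2 (n + s + 2) < q := by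
    have h8 : (2 * s + n : ℝ) * (2 * Real.logb 2 n) ≤ 4 * Real.logb 2 n * (s + n) := by
      nlinarith [mul_nonneg (by linarith : (0 : ℝ) ≤ Real.logb 2 n)
        (by linarith : (0 : ℝ) ≤ (n : ℝ))]
    nlinarith
  have h9 : Real.logb 2 (((n + s + 2 : ℕ) : ℝ) ^ (2 * s + n)) < q := by
    rw [Real.logb_pow]
    push_cast
    exact h7
  have h10 : (((n + s + 2 : ℕ) : ℝ) ^ (2 * s + n)) < (2 : ℝ) ^ q := by
    rw [Real.logb_lt_iff_lt_rpow (by norm_num) (by positivity)] at h9
    rwa [Real.rpow_natCast] at h9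
  exact_mod_cast h10

lemma generic_lower (F : Set Op) (n q : ℕ) (X : ℝ) (hn : 100 < n) (hX : X ≤ (n : ℝ) ^ 2)
    (hq : X ≤ 50 * q) (E : Type) [Fintype E] (hE : 2 ^ q ≤ Fintype.card E)
    (M : E → Fin n → Fin n → Bool) (hinj : Function.Injective M) (hcl : ∀ e, RowClosed F (M e)) :
    ∃ M : Fin n → Fin n → Bool, RowClosed F M ∧ ∀ P : List (ℕ × ℕ), Computes P (toMat M) →
      X ≤ 200 * Real.logb 2 n * (P.length + n) := by
  classical
  by_contra hcon
  push Not at hcon
  choose! P hP1 hP2 using hcon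
  have hpos : 0 < Fintype.card E := lt_of_lt_of_le (by positivity) hE
  obtain ⟨e₀, -, hmax⟩ := exists_max_image (univ : Finset E) (fun e => (P (M e)).length)
    (by rwa [← card_pos, card_univ])
  have h1 := count n (P (M e₀)).length E (fun e => toMat (M e)) (by
    intro e e' hee
    apply hinj
    funext i j
    have h3 := congrFun (congrFun hee i) j
    simp only [toMat] at h3
    revert h3
    cases M e i j <;> cases M e' i j <;> simp) (fun e => ⟨P (M e), hmax e (mem_univ _),
      hP1 _ (hcl e)⟩)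
  have h2 := numeric n (P (M e₀)).length q X hn hX (hP2 _ (hcl e₀)) hq
  omega

lemma const_closed (F : Set Op) (n : ℕ) (hn : 2 ≤ n) :
    RowClosed F (fun (i : Fin n) (_ : Fin n) => decide ((i : ℕ) = 0)) := by
  intro f _ a
  cases hf : f.2 (fun l => decide ((a l : ℕ) = 0)) with
  | true => exact ⟨⟨0, by omega⟩, fun j => by dsimp only; rw [hf]; simp⟩
  | false => exact ⟨⟨1, by omega⟩, fun j => by dsimp only; rw [hf]; simp⟩

lemma small_case (F : Set Op) (n : ℕ) (hn : 2 ≤ n) (hsmall : n ≤ 100) (X : ℝ)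
    (hX : X ≤ (n : ℝ) ^ 2) :
    ∃ M : Fin n → Fin n → Bool, RowClosed F M ∧ ∀ P : List (ℕ × ℕ), Computes P (toMat M) →
      X ≤ 200 * Real.logb 2 n * (P.length + n) := by
  refine ⟨_, const_closed F n hn, fun P _ => ?_⟩
  have hn2 : (2 : ℝ) ≤ n := by exact_mod_cast hn
  have hn3 : (n : ℝ) ≤ 100 := by exact_mod_cast hsmall
  have hlog1 : 1 ≤ Real.logb 2 n := by
    rw [← Real.logb_self_eq_one (b := 2) (by norm_num)]
    exact Real.logb_le_logb_of_le (by norm_num) (by norm_num) hn2
  have h2 : (0 : ℝ) ≤ P.length := Nat.cast_nonneg _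
  nlinarith [mul_nonneg (sub_nonneg.mpr hlog1) (add_nonneg h2 (by linarith : (0:ℝ) ≤ n))]

/-- rows for the first lower bound: arbitrary vectors, their complements, and two constants -/
def freeRow {m n : ℕ} (E : Fin m → Fin n → Bool) : Option (Option (Fin m ⊕ Fin m)) → Fin n → Bool
  | none, _ => false
  | some none, _ => true
  | some (some (Sum.inl i)), j => E i j
  | some (some (Sum.inr i)), j => !(E i j)

theorem lower_unary (F : Set Op) (hF : ∀ f ∈ F, EssUnary f) (n : ℕ) (hn : 2 ≤ n) :
    ∃ M : Fin n → Fin n → Bool, RowClosed F M ∧ ∀ P : List (ℕ × ℕ), Computes P (toMat M) →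
      (n : ℝ) ^ 2 ≤ 200 * Real.logb 2 n * (P.length + n) := by
  classical
  rcases le_or_gt n 100 with hsmall | hbig
  · exact small_case F n hn hsmall _ le_rfl
  set m := (n - 2) / 2 with hm
  obtain ⟨e⟩ : Nonempty (Option (Option (Fin m ⊕ Fin m)) ↪ Fin n) := by
    apply Function.Embedding.nonempty_of_card_le
    rw [Fintype.card_option, Fintype.card_option, Fintype.card_sum, Fintype.card_fin,
      Fintype.card_fin]
    omega
  let ρ := Function.invFun e
  have hρ : ∀ x, ρ (e x) = x := Function.leftInverse_invFun e.injective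
  refine generic_lower F n (m * n) _ hbig le_rfl ?_ (Fin m → Fin n → Bool) ?_
    (fun E i j => freeRow E (ρ i) j) ?_ ?_
  · have h1 : n ≤ 50 * m := by omega
    have h2 : (n : ℝ) ≤ 50 * m := by exact_mod_cast h1
    push_cast
    nlinarith
  · rw [Fintype.card_fun, Fintype.card_fun, Fintype.card_bool, Fintype.card_fin,
      Fintype.card_fin, ← pow_mul, mul_comm m n]
  · intro E E' h
    funext i j
    have h1 := congrFun (congrFun h (e (some (some (Sum.inl i))))) j
    simp only [hρ, freeRow] at h1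
    exact h1
  · intro E f hf a
    rcases unary_form f.2 (hF f hf) with ⟨c, hc⟩ | ⟨i, g, hg⟩
    · cases c
      · exact ⟨e none, fun j => by dsimp only; rw [hc, hρ]; rfl⟩
      · exact ⟨e (some none), fun j => by dsimp only; rw [hc, hρ]; rfl⟩
    · -- the complement of a row
      have hneg : ∃ t, ∀ j, freeRow E t j = !(freeRow E (ρ (a i)) j) := by
        rcases ρ (a i) with _ | _ | t | t
        · exact ⟨some none, fun j => rfl⟩
        · exact ⟨none, fun j => rfl⟩
        · exact ⟨some (some (Sum.inr t)), fun j => rfl⟩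
        · exact ⟨some (some (Sum.inl t)), fun j => by simp [freeRow]⟩
      cases h0 : g false <;> cases h1 : g true
      · refine ⟨e none, fun j => ?_⟩
        dsimp only
        rw [hg, hρ]
        cases freeRow E (ρ (a i)) j
        · exact h0.symm
        · exact h1.symm
      · refine ⟨a i, fun j => ?_⟩
        dsimp only
        rw [hg]
        cases freeRow E (ρ (a i)) j
        · exact h0.symm
        · exact h1.symm
      · obtain ⟨t, ht⟩ := hneg
        refine ⟨e t, fun j => ?_⟩
        dsimp only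
        rw [hg, hρ, ht]
        cases freeRow E (ρ (a i)) j
        · exact h0.symm
        · exact h1.symm
      · refine ⟨e (some none), fun j => ?_⟩
        dsimp only
        rw [hg, hρ]
        cases freeRow E (ρ (a i)) j
        · exact h0.symm
        · exact h1.symm

/-- rows for the second lower bound -/
def planeRow {p : ℕ} (E : ZMod p × ZMod p × ZMod p → Bool) :
    Option (Option ((ZMod p × ZMod p) ⊕ (ZMod p × ZMod p))) → Option (ZMod p × ZMod p) → Bool
  | none, _ => true
  | some t, c => baseRow E t c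

lemma plane_and {p : ℕ} [Fact p.Prime] (E : ZMod p × ZMod p × ZMod p → Bool)
    (r s : Option (Option ((ZMod p × ZMod p) ⊕ (ZMod p × ZMod p)))) :
    ∃ t, ∀ c, planeRow E t c = (planeRow E r c && planeRow E s c) := by
  cases r with
  | none => exact ⟨s, fun c => by simp [planeRow]⟩
  | some r =>
    cases s with
    | none => exact ⟨some r, fun c => by simp [planeRow]⟩
    | some s =>
      obtain ⟨t, ht⟩ := base_and E r s
      exact ⟨some t, ht⟩

lemma plane_conj {p : ℕ} [Fact p.Prime] (E : ZMod p × ZMod p × ZMod p → Bool) {k : ℕ}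
    (a : Fin k → Option (Option ((ZMod p × ZMod p) ⊕ (ZMod p × ZMod p)))) (S : Finset (Fin k)) :
    ∃ t, ∀ c, planeRow E t c = true ↔ ∀ i ∈ S, planeRow E (a i) c = true := by
  classical
  induction S using Finset.induction_on with
  | empty => exact ⟨none, fun c => by simp [planeRow]⟩
  | insert i S _ ih =>
    obtain ⟨t, ht⟩ := ih
    obtain ⟨u, hu⟩ := plane_and E (a i) t
    refine ⟨u, fun c => ?_⟩
    rw [hu, Bool.and_eq_true, ht]
    simp

theorem lower_semilattice (F : Set Op) (hF : (∀ f ∈ F, IsConj f.2) ∨ (∀ f ∈ F, IsDisj f.2))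
    (n : ℕ) (hn : 2 ≤ n) :
    ∃ M : Fin n → Fin n → Bool, RowClosed F M ∧ ∀ P : List (ℕ × ℕ), Computes P (toMat M) →
      (n : ℝ) ^ (3 / 2 : ℝ) ≤ 200 * Real.logb 2 n * (P.length + n) := by
  classical
  have hn1 : (1 : ℝ) ≤ n := by exact_mod_cast (by omega : 1 ≤ n)
  have hX : (n : ℝ) ^ (3 / 2 : ℝ) ≤ (n : ℝ) ^ 2 := by
    rw [← Real.rpow_natCast]
    exact Real.rpow_le_rpow_of_exponent_le hn1 (by norm_num)
  rcases le_or_gt n 100 with hsmall | hbig
  · exact small_case F n hn hsmall _ hX
  -- a prime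
  set m := Nat.sqrt ((n - 2) / 8) with hm
  have hm1 : 1 ≤ m := by
    rw [hm, Nat.le_sqrt]
    omega
  have hm2 : m * m ≤ (n - 2) / 8 := Nat.sqrt_le _
  have hm3 : (n - 2) / 8 < (m + 1) * (m + 1) := Nat.lt_succ_sqrt _
  obtain ⟨p, hp, hmp, hpm⟩ := Nat.exists_prime_lt_and_le_two_mul m (by omega)
  have hpn : 2 * p ^ 2 + 2 ≤ n := by
    have h1 : p ^ 2 ≤ (2 * m) ^ 2 := Nat.pow_le_pow_left hpm 2
    have h2 : 8 * (m * m) ≤ n - 2 := by omega
    nlinarith [Nat.sub_add_cancel (by omega : 2 ≤ n)]
  have hnp : n ≤ 9 * p ^ 2 := by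
    have h1 : (m + 1) * (m + 1) ≤ p ^ 2 := by
      rw [sq]; exact Nat.mul_le_mul hmp hmp
    have h2 : 1 ≤ p ^ 2 := Nat.one_le_pow _ _ hp.pos
    omega
  haveI : Fact p.Prime := ⟨hp⟩
  haveI : NeZero p := ⟨hp.ne_zero⟩
  have hcp : Fintype.card (ZMod p) = p := ZMod.card p
  obtain ⟨e1⟩ : Nonempty (Option (Option ((ZMod p × ZMod p) ⊕ (ZMod p × ZMod p))) ↪ Fin n) := by
    apply Function.Embedding.nonempty_of_card_le
    rw [Fintype.card_option, Fintype.card_option, Fintype.card_sum, Fintype.card_prod, hcp,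
      Fintype.card_fin]
    nlinarith
  obtain ⟨e2⟩ : Nonempty (Option (ZMod p × ZMod p) ↪ Fin n) := by
    apply Function.Embedding.nonempty_of_card_le
    rw [Fintype.card_option, Fintype.card_prod, hcp, Fintype.card_fin]
    nlinarith
  let ρ := Function.invFun e1
  let κ := Function.invFun e2
  have hρ : ∀ x, ρ (e1 x) = x := Function.leftInverse_invFun e1.injective
  have hκ : ∀ x, κ (e2 x) = x := Function.leftInverse_invFun e2.injective
  have hcardE : 2 ^ (p ^ 3) ≤ Fintype.card (ZMod p × ZMod p × ZMod p → Bool) := by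
    rw [Fintype.card_fun, Fintype.card_bool, Fintype.card_prod, Fintype.card_prod, hcp]
    apply le_of_eq
    congr 1
    ring
  have hq : (n : ℝ) ^ (3 / 2 : ℝ) ≤ 50 * ((p ^ 3 : ℕ) : ℝ) := by
    have hsq : (n : ℝ) ^ (3 / 2 : ℝ) = n * Real.sqrt n := by
      rw [show (3 / 2 : ℝ) = 1 + 1 / 2 by norm_num, Real.rpow_add (by linarith), Real.rpow_one,
        ← Real.sqrt_eq_rpow]
    rw [hsq]
    have h8 : (n : ℝ) ≤ 9 * (p : ℝ) ^ 2 := by exact_mod_cast hnp
    have h7 : Real.sqrt n ≤ 3 * p := by
      rw [Real.sqrt_le_left (by positivity)]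
      linarith
    have h9 : (n : ℝ) * Real.sqrt n ≤ (9 * (p : ℝ) ^ 2) * (3 * p) :=
      mul_le_mul h8 h7 (Real.sqrt_nonneg _) (by positivity)
    have h10 : (0 : ℝ) ≤ (p : ℝ) ^ 3 := by positivity
    push_cast
    nlinarith
  rcases hF with hF | hF
  · refine generic_lower F n (p ^ 3) _ hbig hX hq (ZMod p × ZMod p × ZMod p → Bool) hcardE
      (fun E i j => planeRow E (ρ i) (κ j)) ?_ ?_
    · intro E E' h
      funext abx
      obtain ⟨a, b, x⟩ := abx
      have h3 := congrFun (congrFun h (e1 (some (some (Sum.inl (a, b)))))) (e2 (some (x, a * x + b)))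
      simp only [hρ, hκ, planeRow, baseRow, decide_true, Bool.and_true] at h3
      exact h3
    · intro E f hf a
      rcases hF f hf with hc | ⟨S, hS⟩
      · exact ⟨e1 (some none), fun j => by dsimp only; rw [hc, hρ]; rfl⟩
      · obtain ⟨t, ht⟩ := plane_conj E (fun l => ρ (a l)) S
        refine ⟨e1 t, fun j => ?_⟩
        dsimp only
        rw [hρ, Bool.eq_iff_iff, ht, hS]
  · refine generic_lower F n (p ^ 3) _ hbig hX hq (ZMod p × ZMod p × ZMod p → Bool) hcardE
      (fun E i j => !(planeRow E (ρ i) (κ j))) ?_ ?_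
    · intro E E' h
      funext abx
      obtain ⟨a, b, x⟩ := abx
      have h3 := congrFun (congrFun h (e1 (some (some (Sum.inl (a, b)))))) (e2 (some (x, a * x + b)))
      simp only [hρ, hκ, planeRow, baseRow, decide_true, Bool.and_true] at h3
      simpa using h3
    · intro E f hf a
      rcases hF f hf with hc | ⟨S, hS⟩
      · exact ⟨e1 (some none), fun j => by dsimp only; rw [hc, hρ]; rfl⟩
      · obtain ⟨t, ht⟩ := plane_conj E (fun l => ρ (a l)) S
        refine ⟨e1 t, fun j => ?_⟩
        dsimp only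
        rw [hρ, Bool.eq_iff_iff, hS]
        have h4 := ht (κ j)
        constructor
        · intro h5
          have h6 : planeRow E t (κ j) = false := by simpa using h5
          rw [h6] at h4
          simp only [Bool.false_eq_true, false_iff, not_forall] at h4
          obtain ⟨i, hi, h7⟩ := h4
          exact ⟨i, hi, by simpa using h7⟩
        · rintro ⟨i, hi, h5⟩
          have h6 : ¬ planeRow E t (κ j) = true := by
            rw [h4]
            intro h7
            have h8 : planeRow E (ρ (a i)) (κ j) = true := h7 i hi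
            rw [h8] at h5
            cases h5
          simpa using h6

/-- every matrix is a part of a matrix with about twice as many rows whose set of rows is closed
under all operations that depend on at most one argument -/
theorem complete_unary (F : Set Op) (hF : ∀ f ∈ F, EssUnary f) (n N : ℕ)
    (M : Fin n → Fin N → Bool) :
    ∃ M' : Fin (2 * n + 2) → Fin N → Bool, RowClosed F M' ∧ ∀ i, ∃ i', M' i' = M i := by
  classical
  have hc : Fintype.card (Option (Option (Fin n ⊕ Fin n))) = Fintype.card (Fin (2 * n + 2)) := by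
    rw [Fintype.card_option, Fintype.card_option, Fintype.card_sum, Fintype.card_fin,
      Fintype.card_fin]
    omega
  let e := Fintype.equivOfCardEq hc
  refine ⟨fun i j => freeRow M (e.symm i) j, ?_, fun i => ⟨e (some (some (Sum.inl i))), ?_⟩⟩
  · intro f hf a
    rcases unary_form f.2 (hF f hf) with ⟨c, hc⟩ | ⟨i, g, hg⟩
    · cases c
      · exact ⟨e none, fun j => by dsimp only; rw [hc, e.symm_apply_apply]; rfl⟩
      · exact ⟨e (some none), fun j => by dsimp only; rw [hc, e.symm_apply_apply]; rfl⟩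
    · have hneg : ∃ t, ∀ j, freeRow M t j = !(freeRow M (e.symm (a i)) j) := by
        rcases e.symm (a i) with _ | _ | t | t
        · exact ⟨some none, fun j => rfl⟩
        · exact ⟨none, fun j => rfl⟩
        · exact ⟨some (some (Sum.inr t)), fun j => rfl⟩
        · exact ⟨some (some (Sum.inl t)), fun j => by simp [freeRow]⟩
      cases h0 : g false <;> cases h1 : g true
      · refine ⟨e none, fun j => ?_⟩
        dsimp only
        rw [hg, e.symm_apply_apply]
        cases freeRow M (e.symm (a i)) j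
        · exact h0.symm
        · exact h1.symm
      · refine ⟨a i, fun j => ?_⟩
        dsimp only
        rw [hg]
        cases freeRow M (e.symm (a i)) j
        · exact h0.symm
        · exact h1.symm
      · obtain ⟨t, ht⟩ := hneg
        refine ⟨e t, fun j => ?_⟩
        dsimp only
        rw [hg, e.symm_apply_apply, ht]
        cases freeRow M (e.symm (a i)) j
        · exact h0.symm
        · exact h1.symm
      · refine ⟨e (some none), fun j => ?_⟩
        dsimp only
        rw [hg, e.symm_apply_apply]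
        cases freeRow M (e.symm (a i)) j
        · exact h0.symm
        · exact h1.symm
  · funext j
    simp only [e.symm_apply_apply, freeRow]

end Pool.Agent.Helper62K9.SLP
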