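import Pool.Agent.Helper62K9.OMVi

set_option autoImplicit false

/-!
Transposed programs.
-/

namespace Pool.Agent.Helper62K9.SLP

open Finset

theorem computes_of_can' {n N s : ℕ} (M : Matrix (Fin n) (Fin N) (ZMod 2))
    (h : Can s (Set.range (fun j : Fin N => (Pi.single j 1 : Fin N → ZMod 2)))
      {z | ∃ i, z = M i}) :
    ∃ P : List (ℕ × ℕ), P.length = s ∧ Computes P M := by
  obtain ⟨P, hP, h1⟩ := exists_program
    (List.ofFn (fun j : Fin N => (Pi.single j 1 : Fin N → ZMod 2))) h (by
      rintro b ⟨j, rfl⟩
      rw [List.mem_ofFn]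
      exact ⟨j, rfl⟩)
  refine ⟨P, hP, ?_⟩
  choose out hout using fun i => h1 _ ⟨i, rfl⟩
  refine ⟨out, fun v i => ?_⟩
  have e : List.ofFn v = (List.ofFn (fun j : Fin N => (Pi.single j 1 : Fin N → ZMod 2))).map
      (evalHom v) := by
    rw [List.map_ofFn]
    congr 1
    funext j
    rw [Function.comp, evalHom_single]
  rw [e, run_map, getD_map, hout]
  rfl

theorem adjoint {n : ℕ} {V : Type*} [AddCommGroup V] [Module (ZMod 2) V] (x : Fin n → V)
    (B : Set V) (hx : ∀ i, x i ∈ insert 0 B) (out : Fin n → ℕ) (P : List (ℕ × ℕ)) :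
    ∀ m : ℕ, ∃ y : ℕ → V, Can (n + 2 * P.length) B {z | ∃ k < m, z = y k} ∧
      ∀ v : List (ZMod 2), v.length = m →
        ∑ i, (run P v).getD (out i) 0 • x i = ∑ k ∈ range m, v.getD k 0 • y k := by
  classical
  induction P with
  | nil =>
    intro m
    refine ⟨fun k => 0 + ∑ i ∈ univ.filter (fun i => out i = k), x i, ?_, ?_⟩
    · have h := Can.group out (fun _ => (0 : V)) x B (Set.univ : Set ℕ)
        (fun _ _ => Set.mem_insert _ _) univ (fun i _ => hx i)
      rw [card_univ, Fintype.card_fin] at h
      refine (h.le (Nat.le_add_right _ _)).mono subset_rfl ?_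
      rintro z ⟨k, -, rfl⟩
      exact ⟨k, Set.mem_univ _, rfl⟩
    · intro v hv
      rw [run_nil]
      have h1 : ∀ i : Fin n, v.getD (out i) 0 • x i =
          ∑ k ∈ range m, if out i = k then v.getD k 0 • x i else 0 := by
        intro i
        rw [sum_ite_eq]
        split_ifs with hi
        · rfl
        · rw [mem_range, not_lt] at hi
          rw [List.getD_eq_default _ _ (by omega), zero_smul]
      rw [sum_congr rfl (fun i _ => h1 i), sum_comm]
      apply sum_congr rfl
      intro k _
      dsimp only
      rw [zero_add, smul_sum, sum_filter]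
  | cons ab P ih =>
    intro m
    obtain ⟨a, b⟩ := ab
    obtain ⟨y, hy, hyv⟩ := ih (m + 1)
    set z₁ : ℕ → V := fun k => if k = a then y k + y m else y k with hz₁
    set z₂ : ℕ → V := fun k => if k = b then z₁ k + y m else z₁ k with hz₂
    refine ⟨z₂, ?_, ?_⟩
    · have h1 : Can 1 (B ∪ {z | ∃ k < m + 1, z = y k}) {z | ∃ k < m, z = z₁ k} := by
        by_cases ha : a < m
        · refine (Can.one (x := y a) (y := y m) (Or.inr (Or.inr ⟨a, by omega, rfl⟩))
            (Or.inr (Or.inr ⟨m, by omega, rfl⟩))).keep.mono subset_rfl ?_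
          rintro z ⟨k, hk, rfl⟩
          by_cases hka : k = a
          · left
            rw [hz₁, hka]
            simp
          · right; right; right
            refine ⟨k, by omega, ?_⟩
            rw [hz₁]
            simp [hka]
        · apply (Can.self _).le (Nat.zero_le 1)
          rintro z ⟨k, hk, rfl⟩
          right; right
          refine ⟨k, by omega, ?_⟩
          rw [hz₁]
          simp [show k ≠ a by omega]
      have h2 : Can 1 ((B ∪ {z | ∃ k < m + 1, z = y k}) ∪ {z | ∃ k < m, z = z₁ k})
          {z | ∃ k < m, z = z₂ k} := by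
        by_cases hb : b < m
        · refine (Can.one (x := z₁ b) (y := y m) (Or.inr (Or.inr ⟨b, hb, rfl⟩))
            (Or.inr (Or.inl (Or.inr ⟨m, by omega, rfl⟩)))).keep.mono subset_rfl ?_
          rintro z ⟨k, hk, rfl⟩
          by_cases hkb : k = b
          · left
            rw [hz₂, hkb]
            simp
          · right; right; right
            refine ⟨k, hk, ?_⟩
            rw [hz₂]
            simp [hkb]
        · apply (Can.self _).le (Nat.zero_le 1)
          rintro z ⟨k, hk, rfl⟩
          right; right
          refine ⟨k, hk, ?_⟩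
          rw [hz₂]
          simp [show k ≠ b by omega]
      have h3 := hy.trans' (h1.trans' h2)
      refine h3.le ?_
      rw [List.length_cons]
      omega
    · intro v hv
      rw [run_cons, hyv _ (by simp [hv]), sum_range_succ]
      have h1 : ∀ k ∈ range m, (v ++ [v.getD a 0 + v.getD b 0]).getD k 0 = v.getD k 0 := by
        intro k hk
        rw [mem_range] at hk
        rw [List.getD_append _ _ _ _ (by omega)]
      have h2 : (v ++ [v.getD a 0 + v.getD b 0]).getD m 0 = v.getD a 0 + v.getD b 0 := by
        rw [List.getD_append_right _ _ _ _ (by omega), hv]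
        simp
      rw [h2, sum_congr rfl (fun k hk => by rw [h1 k hk])]
      have h3 : ∀ k, v.getD k 0 • z₂ k = v.getD k 0 • y k +
          ((if a = k then v.getD k 0 • y m else 0) + (if b = k then v.getD k 0 • y m else 0)) := by
        intro k
        rw [hz₂, hz₁]
        by_cases hka : k = a <;> by_cases hkb : k = b
        · subst hka; subst hkb
          simp [add_assoc]
        · subst hka
          simp [hkb, Ne.symm hkb]
        · subst hkb
          simp [hka, Ne.symm hka]
        · simp [hka, hkb, Ne.symm hka, Ne.symm hkb]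
      rw [sum_congr rfl (fun k _ => h3 k), sum_add_distrib, sum_add_distrib, sum_ite_eq,
        sum_ite_eq, add_smul]
      have h4 : ∀ c : ℕ, (if c ∈ range m then v.getD c 0 • y m else 0) = v.getD c 0 • y m := by
        intro c
        split_ifs with hc
        · rfl
        · rw [mem_range, not_lt] at hc
          rw [List.getD_eq_default _ _ (by omega), zero_smul]
      rw [h4, h4]

/-- the transposed program -/
theorem transpose_program {n N : ℕ} (P : List (ℕ × ℕ)) (M : Matrix (Fin n) (Fin N) (ZMod 2))
    (h : Computes P M) :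
    ∃ P' : List (ℕ × ℕ), P'.length = n + 2 * P.length ∧ Computes P' M.transpose := by
  obtain ⟨out, hout⟩ := h
  obtain ⟨y, hy, hyv⟩ := adjoint (fun i : Fin n => (Pi.single i 1 : Fin n → ZMod 2))
    (Set.range (fun i : Fin n => (Pi.single i 1 : Fin n → ZMod 2))) (unit_mem (N := n)) out P N
  refine computes_of_can' _ (hy.mono subset_rfl ?_)
  rintro z ⟨k, rfl⟩
  refine ⟨k, k.2, ?_⟩
  have h1 := hyv (List.ofFn (Pi.single k 1 : Fin N → ZMod 2)) (by simp)
  rw [sum_congr rfl (fun i _ => by rw [hout])] at h1
  have h2 : ∑ l ∈ range N, (List.ofFn (Pi.single k 1 : Fin N → ZMod 2)).getD l 0 • y l =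
      y k := by
    rw [sum_eq_single (k : ℕ)]
    · rw [List.getD_eq_getElem _ _ (by simp), List.getElem_ofFn]
      simp
    · intro l hl hlk
      rw [mem_range] at hl
      rw [List.getD_eq_getElem _ _ (by simpa using hl), List.getElem_ofFn]
      have : (⟨l, hl⟩ : Fin N) ≠ k := by
        intro h
        apply hlk
        rw [← h]
      rw [Pi.single_eq_of_ne this, zero_smul]
    · intro h
      exact absurd (mem_range.mpr k.2) h
  rw [h2] at h1
  rw [← h1]
  funext i
  rw [Finset.sum_apply, sum_eq_single i]
  · simp
  · intro l _ hl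
    rw [Pi.smul_apply, Pi.single_eq_of_ne (Ne.symm hl), smul_zero]
  · intro h
    exact absurd (mem_univ _) h

end Pool.Agent.Helper62K9.SLP
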