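import Pool.Agent.Helper62K9.OMVj

set_option autoImplicit false

/-!
The classification for families with at most `C` members.
-/

namespace Pool.Agent.Helper62K9.SLP

open Finset

/-- The rows of `M` belong to a set of at most `C` Boolean vectors that is closed under the
coordinatewise operations in `F`. -/
def RowsIn {n N : ℕ} (F : Set Op) (C : ℕ) (M : Fin n → Fin N → Bool) : Prop :=
  ∃ R : Finset (Fin N → Bool), R.card ≤ C ∧ (∀ f ∈ F, ClosedUnder f.2 R) ∧ ∀ i, M i ∈ R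

lemma rowsIn_of_rowClosed {n N : ℕ} {F : Set Op} {M : Fin n → Fin N → Bool}
    (h : RowClosed F M) : RowsIn F n M := by
  classical
  refine ⟨univ.image M, ?_, fun f hf => closedUnder_of h hf,
    fun i => mem_image_of_mem _ (mem_univ _)⟩
  have := card_image_le (s := univ) (f := M)
  rwa [card_univ, Fintype.card_fin] at this

/-- a matrix with the given set of rows -/
lemma exists_matrix {N : ℕ} {F : Set Op} (R : Finset (Fin N → Bool))
    (hR : ∀ f ∈ F, ClosedUnder f.2 R) :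
    ∃ M : Fin R.card → Fin N → Bool, RowClosed F M ∧ ∀ r ∈ R, ∃ i, M i = r := by
  classical
  let e := R.equivFin
  refine ⟨fun i => (e.symm i : Fin N → Bool), ?_, fun r hr => ⟨e ⟨r, hr⟩, by simp⟩⟩
  intro f hf a
  have h1 := hR f hf (fun l => (e.symm (a l) : Fin N → Bool)) (fun l => (e.symm (a l)).2)
  refine ⟨e ⟨_, h1⟩, fun j => ?_⟩
  simp only [Equiv.symm_apply_apply]

lemma computes_rows {n n' N : ℕ} (M : Fin n → Fin N → Bool) (M' : Fin n' → Fin N → Bool)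
    (h : ∀ i, ∃ i', M' i' = M i) (P : List (ℕ × ℕ)) (hP : Computes P (toMat M')) :
    Computes P (toMat M) := by
  obtain ⟨out, hout⟩ := hP
  choose g hg using h
  refine ⟨fun i => out (g i), fun v i => ?_⟩
  rw [hout]
  have e : toMat M' (g i) = toMat M i := by
    unfold toMat
    rw [hg]
  show ∑ j, toMat M' (g i) j * v j = ∑ j, toMat M i j * v j
  rw [e]

/-- what the three parts of the classification have in common: programs for `M` and for its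
transpose -/
lemma both {n N : ℕ} (M : Fin n → Fin N → Bool) (b : ℝ)
    (h : ∃ P : List (ℕ × ℕ), Computes P (toMat M) ∧ (P.length : ℝ) ≤ b) :
    (∃ P : List (ℕ × ℕ), Computes P (toMat M) ∧ (P.length : ℝ) ≤ b) ∧
    ∃ P : List (ℕ × ℕ), Computes P (toMat M).transpose ∧ (P.length : ℝ) ≤ 2 * b + n := by
  refine ⟨h, ?_⟩
  obtain ⟨P, hP, hb⟩ := h
  obtain ⟨P', hP'l, hP'⟩ := transpose_program P _ hP
  refine ⟨P', hP', ?_⟩
  rw [hP'l]
  push_cast
  linarith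

theorem upper_any' {n N C : ℕ} {F : Set Op} (hF : ∃ f ∈ F, ¬ EssUnary f)
    (M : Fin n → Fin N → Bool) (h : RowsIn F C M) :
    ∃ P : List (ℕ × ℕ), Computes P (toMat M) ∧
      (P.length : ℝ) ≤ (C : ℝ) ^ (3 / 2 : ℝ) + 3 * C + 2 * N := by
  obtain ⟨R, hRC, hR, hM⟩ := h
  obtain ⟨M', hM', hM'R⟩ := exists_matrix R hR
  obtain ⟨P, hP, hb⟩ := upper_any hF M' hM'
  refine ⟨P, computes_rows M M' (fun i => hM'R _ (hM i)) P hP, hb.trans ?_⟩
  have h1 : ((R.card : ℕ) : ℝ) ≤ C := by exact_mod_cast hRC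
  have h2 : ((R.card : ℕ) : ℝ) ^ (3 / 2 : ℝ) ≤ (C : ℝ) ^ (3 / 2 : ℝ) :=
    Real.rpow_le_rpow (Nat.cast_nonneg _) h1 (by norm_num)
  linarith

theorem upper_easy' {n N C : ℕ} {F : Set Op} (hF : ∃ f ∈ F, ¬ EssUnary f)
    (hconj : ∃ f ∈ F, ¬ IsConj f.2) (hdisj : ∃ f ∈ F, ¬ IsDisj f.2)
    (M : Fin n → Fin N → Bool) (h : RowsIn F C M) :
    ∃ P : List (ℕ × ℕ), Computes P (toMat M) ∧ (P.length : ℝ) ≤ 3 * C + 2 * N := by
  obtain ⟨R, hRC, hR, hM⟩ := h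
  obtain ⟨M', hM', hM'R⟩ := exists_matrix R hR
  obtain ⟨P, hP, hb⟩ := upper_easy hF hconj hdisj M' hM'
  refine ⟨P, computes_rows M M' (fun i => hM'R _ (hM i)) P hP, ?_⟩
  have h1 : P.length ≤ 3 * C + 2 * N := by omega
  exact_mod_cast h1

theorem trichotomy (F : Set Op) :
    ((∀ f ∈ F, EssUnary f) →
      (∀ (n N : ℕ) (M : Fin n → Fin N → Bool), RowsIn F (2 * n + 2) M) ∧
      ∀ n ≥ 2, ∃ M : Fin n → Fin n → Bool, RowsIn F n M ∧ ∀ P : List (ℕ × ℕ),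
        Computes P (toMat M) → (n : ℝ) ^ 2 ≤ 200 * Real.logb 2 n * (P.length + n)) ∧
    ((∃ f ∈ F, ¬ EssUnary f) → ((∀ f ∈ F, IsConj f.2) ∨ ∀ f ∈ F, IsDisj f.2) →
      (∀ (n N C : ℕ) (M : Fin n → Fin N → Bool), RowsIn F C M →
        (∃ P : List (ℕ × ℕ), Computes P (toMat M) ∧
          (P.length : ℝ) ≤ (C : ℝ) ^ (3 / 2 : ℝ) + 3 * C + 2 * N) ∧
        ∃ P : List (ℕ × ℕ), Computes P (toMat M).transpose ∧
          (P.length : ℝ) ≤ 2 * ((C : ℝ) ^ (3 / 2 : ℝ) + 3 * C + 2 * N) + n) ∧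
      ∀ n ≥ 2, ∃ M : Fin n → Fin n → Bool, RowsIn F n M ∧ ∀ P : List (ℕ × ℕ),
        Computes P (toMat M) →
          (n : ℝ) ^ (3 / 2 : ℝ) ≤ 200 * Real.logb 2 n * (P.length + n)) ∧
    ((∃ f ∈ F, ¬ EssUnary f) → (∃ f ∈ F, ¬ IsConj f.2) → (∃ f ∈ F, ¬ IsDisj f.2) →
      ∀ (n N C : ℕ) (M : Fin n → Fin N → Bool), RowsIn F C M →
        (∃ P : List (ℕ × ℕ), Computes P (toMat M) ∧ (P.length : ℝ) ≤ 3 * C + 2 * N) ∧
        ∃ P : List (ℕ × ℕ), Computes P (toMat M).transpose ∧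
          (P.length : ℝ) ≤ 2 * (3 * C + 2 * N) + n) := by
  refine ⟨fun hF => ⟨fun n N M => ?_, fun n hn => ?_⟩, fun hF hF2 => ⟨fun n N C M hM => ?_,
    fun n hn => ?_⟩, fun hF h1 h2 n N C M hM => ?_⟩
  · obtain ⟨M', hM', h⟩ := complete_unary F hF n N M
    obtain ⟨R, hRC, hR, hM⟩ := rowsIn_of_rowClosed hM'
    refine ⟨R, hRC, hR, fun i => ?_⟩
    obtain ⟨i', hi'⟩ := h i
    rw [← hi']
    exact hM i'
  · obtain ⟨M, hM, h⟩ := lower_unary F hF n hn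
    exact ⟨M, rowsIn_of_rowClosed hM, h⟩
  · exact both M _ (upper_any' hF M hM)
  · obtain ⟨M, hM, h⟩ := lower_semilattice F hF2 n hn
    exact ⟨M, rowsIn_of_rowClosed hM, h⟩
  · exact both M _ (upper_easy' hF h1 h2 M hM)

end Pool.Agent.Helper62K9.SLP
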